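import Pool.Agent.SCT.Glob

/-!
SCX module MULS (MP_896029_ag; plan /team-store/scx_plan.md): multiplicativity of the descended
constants.

Proof.  `E = algebraicClosure ℚ Ω`, `ι = incl ℚ K Ω`, `X = algebraMap K _ x`.  Let
`Q = ∏ θ ∈ S ∩ S', (X - ι θ)` and `R = ∏ θ ∈ symmDiff S S', (X - ι θ)`.  Both are fixed by every
`s.act σ` (the sets are stable under `σ`; same computation as `hsq` in `exists_b0`, SCT/Glob: `act_incl`,
`act_alg`, `Finset.prod_bij`), and nonzero (`x` is transcendental, `hxne` in `exists_b0` or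
`x_sub_ne` in SCT/ArL).  `∏_S * ∏_S' = R * Q ^ 2` (split `S = (S \ S') ∪ (S ∩ S')`,
`S' = (S' \ S) ∪ (S ∩ S')`, `symmDiff S S' = (S \ S') ∪ (S' \ S)`).  So `(r * r') ^ 2 = (r'' * Q) ^ 2`
and `r * r' = ± r'' * Q`.  Put `u = b * b' * b''`.  The product of the three fixed elements
`ι b * r`, `ι b' * r'`, `ι b'' * r''` is `± ι u * (r'' ^ 2 * Q) = ± ι u * (R * Q)`, it is fixed, and `R * Q`
is fixed and nonzero; so `ι (σ u) = ι u` for all `σ`, `σ u = u`, hence `u` is rational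
(`InfiniteGalois.mem_range_algebraMap_iff_fixed`, as in `exists_b0`; `s.act` takes
`σ : algebraicClosure ℚ Ω ≃ₐ[ℚ] algebraicClosure ℚ Ω`).  `u ^ 2 = e * e' * e''` (cast), so
`e * e' * e''` is the square of a rational number, hence a square (`Rat.isSquare_intCast_iff`).
-/

set_option linter.dupNamespace false

namespace Pool.Agent.SCX

open Polynomial Pool.Agent.Helper36 Pool.Agent.Helper19.Sec Pool.Agent.SCT

private theorem mul_core {k K Ω : Type*} [Field k] [Field K] [Field Ω] [Algebra k K]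
    [Algebra K Ω] [Algebra k Ω] [IsScalarTower k K Ω] [CharZero k] [Algebra.IsAlgebraic K Ω]
    [IsAlgClosed Ω] [DecidableEq (algebraicClosure k Ω)] (s : SectionData k K Ω) (x : K)
    (hx : Transcendental k x) (S S' : Finset (algebraicClosure k Ω))
    (hS0 : ∀ σ : algebraicClosure k Ω ≃+* algebraicClosure k Ω, ∀ θ ∈ S, σ θ ∈ S)
    (hS0' : ∀ σ : algebraicClosure k Ω ≃+* algebraicClosure k Ω, ∀ θ ∈ S', σ θ ∈ S')
    (r r' r'' : univCover k K Ω)
    (hr : r ^ 2 = ∏ θ ∈ S, (algebraMap K (univCover k K Ω) x - incl k K Ω θ))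
    (hr' : r' ^ 2 = ∏ θ ∈ S', (algebraMap K (univCover k K Ω) x - incl k K Ω θ))
    (hr'' : r'' ^ 2 = ∏ θ ∈ symmDiff S S', (algebraMap K (univCover k K Ω) x - incl k K Ω θ))
    (b b' b'' : algebraicClosure k Ω)
    (hfix : ∀ σ, s.act σ (incl k K Ω b * r) = incl k K Ω b * r)
    (hfix' : ∀ σ, s.act σ (incl k K Ω b' * r') = incl k K Ω b' * r')
    (hfix'' : ∀ σ, s.act σ (incl k K Ω b'' * r'') = incl k K Ω b'' * r'') :
    ∃ q : k, algebraMap k (algebraicClosure k Ω) q = b * b' * b'' := by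
  have hS : ∀ σ : algebraicClosure k Ω ≃ₐ[k] algebraicClosure k Ω, ∀ θ ∈ S, σ θ ∈ S :=
    fun σ θ hθ => hS0 σ.toRingEquiv θ hθ
  have hS' : ∀ σ : algebraicClosure k Ω ≃ₐ[k] algebraicClosure k Ω, ∀ θ ∈ S', σ θ ∈ S' :=
    fun σ θ hθ => hS0' σ.toRingEquiv θ hθ
  set xM : univCover k K Ω := algebraMap K (univCover k K Ω) x with hxM
  have hxne : ∀ c : algebraicClosure k Ω, xM - incl k K Ω c ≠ 0 := by
    intro c h0
    have h1 : (c : Ω) = algebraMap K Ω x := congrArg Subtype.val (sub_eq_zero.mp h0).symm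
    have h2 : IsAlgebraic k (algebraMap K Ω x) := by
      rw [← h1]
      exact mem_algebraicClosure_iff.mp c.2
    exact hx ((isAlgebraic_algebraMap_iff (algebraMap K Ω).injective).mp h2)
  have hfp : ∀ T : Finset (algebraicClosure k Ω),
      (∀ σ : algebraicClosure k Ω ≃ₐ[k] algebraicClosure k Ω, ∀ θ ∈ T, σ θ ∈ T) →
      ∀ σ, s.act σ (∏ θ ∈ T, (xM - incl k K Ω θ)) = ∏ θ ∈ T, (xM - incl k K Ω θ) := by
    intro T hT σ
    rw [map_prod]
    refine Finset.prod_bij (fun θ _ => σ θ) (fun θ hθ => hT σ θ hθ)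
      (fun a _ b _ h => σ.injective h) ?_ ?_
    · intro θ hθ
      exact ⟨σ⁻¹ θ, hT σ⁻¹ θ hθ, σ.apply_symm_apply θ⟩
    · intro θ _
      rw [map_sub, act_incl, act_alg]
  have hne : ∀ T : Finset (algebraicClosure k Ω), ∏ θ ∈ T, (xM - incl k K Ω θ) ≠ 0 := fun T =>
    Finset.prod_ne_zero_iff.mpr fun θ _ => hxne θ
  set Q : univCover k K Ω := ∏ θ ∈ S ∩ S', (xM - incl k K Ω θ) with hQ
  set R : univCover k K Ω := ∏ θ ∈ symmDiff S S', (xM - incl k K Ω θ) with hR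
  have hQf : ∀ σ, s.act σ Q = Q := by
    apply hfp
    intro σ θ hθ
    rw [Finset.mem_inter] at hθ ⊢
    exact ⟨hS σ θ hθ.1, hS' σ θ hθ.2⟩
  have hRf : ∀ σ, s.act σ R = R := by
    apply hfp
    intro σ θ hθ
    rw [Finset.mem_symmDiff] at hθ ⊢
    rcases hθ with ⟨h1, h2⟩ | ⟨h1, h2⟩
    · left
      refine ⟨hS σ θ h1, fun h3 => h2 ?_⟩
      have h4 := hS' σ.symm _ h3
      rw [AlgEquiv.symm_apply_apply] at h4
      exact h4
    · right
      refine ⟨hS' σ θ h1, fun h3 => h2 ?_⟩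
      have h4 := hS σ.symm _ h3
      rw [AlgEquiv.symm_apply_apply] at h4
      exact h4
  have hsym : R = (∏ θ ∈ S \ S', (xM - incl k K Ω θ)) * ∏ θ ∈ S' \ S, (xM - incl k K Ω θ) := by
    rw [hR, symmDiff_def, Finset.sup_eq_union, Finset.prod_union]
    exact disjoint_sdiff_sdiff
  have hSp : ∏ θ ∈ S, (xM - incl k K Ω θ) = Q * ∏ θ ∈ S \ S', (xM - incl k K Ω θ) :=
    (Finset.prod_inter_mul_prod_sdiff S S' _).symm
  have hS'p : ∏ θ ∈ S', (xM - incl k K Ω θ) = Q * ∏ θ ∈ S' \ S, (xM - incl k K Ω θ) := by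
    rw [hQ, Finset.inter_comm S S']
    exact (Finset.prod_inter_mul_prod_sdiff S' S _).symm
  have hw2 : (r * r' * r'') ^ 2 = (R * Q) ^ 2 := by
    calc (r * r' * r'') ^ 2 = r ^ 2 * r' ^ 2 * r'' ^ 2 := by ring
      _ = (Q * ∏ θ ∈ S \ S', (xM - incl k K Ω θ)) * (Q * ∏ θ ∈ S' \ S, (xM - incl k K Ω θ)) *
          R := by rw [hr, hr', hr'', hSp, hS'p]
      _ = ((∏ θ ∈ S \ S', (xM - incl k K Ω θ)) * ∏ θ ∈ S' \ S, (xM - incl k K Ω θ)) * R *
          Q ^ 2 := by ring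
      _ = (R * Q) ^ 2 := by rw [← hsym]; ring
  have hw0 : r * r' * r'' ≠ 0 := by
    intro h0
    rw [h0] at hw2
    have h1 : R * Q ≠ 0 := mul_ne_zero (hne _) (hne _)
    exact pow_ne_zero 2 h1 (by rw [← hw2]; ring)
  have hwf : ∀ σ, s.act σ (r * r' * r'') = r * r' * r'' := by
    intro σ
    rcases sq_eq_sq_iff_eq_or_eq_neg.mp hw2 with h2 | h2
    · rw [h2, map_mul, hRf, hQf]
    · rw [h2, map_neg, map_mul, hRf, hQf]
  have hu : ∀ σ : algebraicClosure k Ω ≃ₐ[k] algebraicClosure k Ω,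
      σ (b * b' * b'') = b * b' * b'' := by
    intro σ
    have h1 : s.act σ (incl k K Ω (b * b' * b'') * (r * r' * r'')) =
        incl k K Ω (b * b' * b'') * (r * r' * r'') := by
      have h2 : incl k K Ω (b * b' * b'') * (r * r' * r'') =
          (incl k K Ω b * r) * (incl k K Ω b' * r') * (incl k K Ω b'' * r'') := by
        rw [map_mul, map_mul]
        ring
      rw [h2, map_mul, map_mul, hfix, hfix', hfix'']
    rw [map_mul, hwf, act_incl] at h1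
    exact (incl k K Ω).injective (mul_right_cancel₀ hw0 h1)
  exact (InfiniteGalois.mem_range_algebraMap_iff_fixed (b * b' * b'')).mpr hu

variable {K Ω : Type*} [Field K] [Field Ω] [Algebra ℚ K] [Algebra K Ω] [Algebra ℚ Ω]
  [IsScalarTower ℚ K Ω] [Algebra.IsAlgebraic K Ω] [IsAlgClosed Ω]

theorem mul_square [DecidableEq (algebraicClosure ℚ Ω)] (s : SectionData ℚ K Ω) (x : K)
    (hx : Transcendental ℚ x) (S S' : Finset (algebraicClosure ℚ Ω))
    (hS : ∀ σ : algebraicClosure ℚ Ω ≃ₐ[ℚ] algebraicClosure ℚ Ω, ∀ θ ∈ S, σ θ ∈ S)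
    (hS' : ∀ σ : algebraicClosure ℚ Ω ≃ₐ[ℚ] algebraicClosure ℚ Ω, ∀ θ ∈ S', σ θ ∈ S')
    (r r' r'' : univCover ℚ K Ω)
    (hr : r ^ 2 = ∏ θ ∈ S, (algebraMap K (univCover ℚ K Ω) x - incl ℚ K Ω θ))
    (hr' : r' ^ 2 = ∏ θ ∈ S', (algebraMap K (univCover ℚ K Ω) x - incl ℚ K Ω θ))
    (hr'' : r'' ^ 2 = ∏ θ ∈ symmDiff S S', (algebraMap K (univCover ℚ K Ω) x - incl ℚ K Ω θ))
    (b b' b'' : algebraicClosure ℚ Ω) (e e' e'' : ℤ)
    (hb : b ^ 2 = (e : algebraicClosure ℚ Ω)) (hb' : b' ^ 2 = (e' : algebraicClosure ℚ Ω))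
    (hb'' : b'' ^ 2 = (e'' : algebraicClosure ℚ Ω))
    (hfix : ∀ σ, s.act σ (incl ℚ K Ω b * r) = incl ℚ K Ω b * r)
    (hfix' : ∀ σ, s.act σ (incl ℚ K Ω b' * r') = incl ℚ K Ω b' * r')
    (hfix'' : ∀ σ, s.act σ (incl ℚ K Ω b'' * r'') = incl ℚ K Ω b'' * r'') :
    IsSquare (e * e' * e'') := by
  obtain ⟨q, hq⟩ := mul_core s x hx S S' (fun σ θ hθ =>
    hS (AlgEquiv.ofRingEquiv (f := σ) (fun q => by simp)) θ hθ) (fun σ θ hθ =>
    hS' (AlgEquiv.ofRingEquiv (f := σ) (fun q => by simp)) θ hθ) r r' r'' hr hr' hr'' b b' b''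
    hfix hfix' hfix''
  rw [eq_ratCast] at hq
  have hq2 : q ^ 2 = ((e * e' * e'' : ℤ) : ℚ) := by
    have h1 : ((q ^ 2 : ℚ) : algebraicClosure ℚ Ω) =
        (((e * e' * e'' : ℤ) : ℚ) : algebraicClosure ℚ Ω) := by
      push_cast
      rw [hq, mul_pow, mul_pow, hb, hb', hb'']
    exact_mod_cast h1
  rw [← Rat.isSquare_intCast_iff]
  exact ⟨q, by rw [← hq2]; ring⟩

end Pool.Agent.SCX
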