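import Pool.Agent.SCX.ArL
import Pool.Agent.SCX.MulS
import Pool.Agent.SCT.Arith

/-!
SCX module ARITHT (MP_896029_ag; plan /team-store/scx_plan.md): the arithmetic consequences of a
section, for all products of even degree.

`O` is the set of the `j` with `F j` of odd degree; `Even (T ∩ O).card` iff `∏ j ∈ T, F j` has even degree
(`natDegree_prod`; a sum of natural numbers is even iff the number of the odd ones is even,
`Finset.even_sum_iff_even_card_odd`).

Proof: as `arith` (SCT/Arith).  `B` as there.  Take `κ = {T : Finset ι // Even (T ∩ O).card}` and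
`T k = k.1`.  `exists_sqrt_prod` for `S = rts (∏ j ∈ k.1, F j)` (even cardinality, roots of `P`) gives
`r k`, `exists_b` gives `b k`, `e k`; `arith_localT` for every prime `q > B`.  The function
`e : Finset ι → ℤ` of the statement is `e ⟨T, h⟩` if `h : Even (T ∩ O).card` and `1` otherwise.
Multiplicativity: `mul_square` for `S = rts (∏ j ∈ T, F j)`, `S' = rts (∏ j ∈ T', F j)`; as the `F j` have
pairwise disjoint root sets (separability of `P`), `symmDiff S S' = rts (∏ j ∈ symmDiff T T', F j)`, and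
`symmDiff T T'` is again even (`(symmDiff T T') ∩ O = symmDiff (T ∩ O) (T' ∩ O)` and
`|symmDiff A B| + 2 |A ∩ B| = |A| + |B|`).
-/

set_option linter.dupNamespace false

namespace Pool.Agent.SCX

open Polynomial Pool.Agent.Helper36 Pool.Agent.Helper19.Sec Pool.Agent.SCT

variable {ι : Type} [Fintype ι] [DecidableEq ι]

private theorem aeval_map_aux {E : Type*} [Field E] {inst : Algebra ℚ E} (P : ℤ[X]) (z : E) :
    aeval z (P.map (Int.castRingHom ℚ)) = aeval z P := by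
  rw [aeval_def, aeval_def, eval₂_map]
  congr 1
  exact RingHom.ext_int _ _

private theorem even_symm (T T' O : Finset ι) (h : Even (T ∩ O).card) (h' : Even (T' ∩ O).card) :
    Even ((symmDiff T T') ∩ O).card := by
  have h1 : (symmDiff T T') ∩ O = ((T ∩ O) \ (T' ∩ O)) ∪ ((T' ∩ O) \ (T ∩ O)) := by
    ext x
    simp only [Finset.mem_inter, Finset.mem_symmDiff, Finset.mem_union, Finset.mem_sdiff]
    tauto
  have h2 : Disjoint ((T ∩ O) \ (T' ∩ O)) ((T' ∩ O) \ (T ∩ O)) := by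
    rw [Finset.disjoint_left]
    intro x hx hx'
    exact (Finset.mem_sdiff.1 hx').2 (Finset.mem_sdiff.1 hx).1
  rw [h1, Finset.card_union_of_disjoint h2]
  have h3 := Finset.card_sdiff_add_card_inter (T ∩ O) (T' ∩ O)
  have h4 := Finset.card_sdiff_add_card_inter (T' ∩ O) (T ∩ O)
  rw [Finset.inter_comm (T' ∩ O) (T ∩ O)] at h4
  rw [← h3] at h
  rw [← h4] at h'
  rw [Nat.even_add] at h h' ⊢
  tauto

private theorem even_deg (F : ι → ℤ[X]) (hF : ∀ j, F j ≠ 0) (O : Finset ι)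
    (hO : ∀ j, j ∈ O ↔ Odd (F j).natDegree) (T : Finset ι) (h : Even (T ∩ O).card) :
    Even (∏ j ∈ T, F j).natDegree := by
  rw [natDegree_prod T F (fun j _ => hF j), Finset.even_sum_iff_even_card_odd]
  have h1 : T.filter (fun x => Odd (F x).natDegree) = T ∩ O := by
    ext x
    rw [Finset.mem_filter, Finset.mem_inter, hO]
  rw [h1]
  exact h

private theorem root_uniq {E : Type*} [Field E] [Algebra ℚ E] (F : ι → ℤ[X])
    (hsepQ : ((∏ j, F j).map (Int.castRingHom ℚ)).Separable) (θ : E) (i j : ι)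
    (hi : aeval θ (F i) = 0) (hj : aeval θ (F j) = 0) : i = j := by
  by_contra hne
  have h1 : F i * F j ∣ ∏ j, F j := by
    have h2 := Finset.prod_dvd_prod_of_subset {i, j} Finset.univ F (Finset.subset_univ _)
    rw [Finset.prod_pair hne] at h2
    exact h2
  have h3 : ((F i * F j).map (Int.castRingHom ℚ)).Separable :=
    hsepQ.of_dvd (Polynomial.map_dvd _ h1)
  rw [Polynomial.map_mul] at h3
  obtain ⟨a, b, hab⟩ := h3.isCoprime
  have h4 := congrArg (aeval θ) hab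
  rw [map_add, map_mul, map_mul, aeval_map_aux, aeval_map_aux, hi, hj, mul_zero, mul_zero,
    add_zero, map_one] at h4
  exact zero_ne_one h4

private theorem root_prod {E : Type*} [Field E] (F : ι → ℤ[X]) (θ : E) (T : Finset ι) :
    aeval θ (∏ j ∈ T, F j) = 0 ↔ ∃ j ∈ T, aeval θ (F j) = 0 := by
  rw [map_prod, Finset.prod_eq_zero_iff]

theorem arithT (F : ι → ℤ[X]) (hPeven : Even (∏ j, F j).natDegree)
    (h6 : 6 ≤ (∏ j, F j).natDegree) (hsepQ : ((∏ j, F j).map (Int.castRingHom ℚ)).Separable)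
    (O : Finset ι) (hO : ∀ j, j ∈ O ↔ Odd (F j).natDegree) :
    ∃ B : ℕ, 2 ≤ B ∧ ∀ d : ℤ, Squarefree d → HasSection (∏ j, F j) d →
      ∃ e : Finset ι → ℤ, (∀ T, Squarefree (e T)) ∧
        (∀ T T' : Finset ι, Even (T ∩ O).card → Even (T' ∩ O).card →
          IsSquare (e T * e T' * e (symmDiff T T'))) ∧
        ∀ q : ℕ, q.Prime → B < q →
          (¬ (q : ℤ) ∣ d → ∀ T, Even (T ∩ O).card → ¬ (q : ℤ) ∣ e T) ∧
          ((q : ℤ) ∣ d → ∃ i : ι, ∃ z : ι → ℤˣ, z ∈ pat F i q ∧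
            ∀ T, Even (T ∩ O).card → (i ∈ T → (q : ℤ) ∣ e T) ∧
              (i ∉ T → ¬ (q : ℤ) ∣ e T ∧ jacobiSym (e T) q = ∏ j ∈ T, ((z j : ℤˣ) : ℤ))) := by
  classical
  obtain ⟨N, hN⟩ := exists_sep_bound (∏ j, F j) hsepQ
  have hsepQ' := hsepQ
  have hPeven' := hPeven
  have h6' := h6
  set P : ℤ[X] := ∏ j, F j with hP
  have hP0 : P ≠ 0 := by
    intro h0
    rw [h0, natDegree_zero] at h6
    omega
  have hlead : P.leadingCoeff ≠ 0 := leadingCoeff_ne_zero.mpr hP0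
  refine ⟨N + P.leadingCoeff.natAbs + 2, by omega, ?_⟩
  rintro d hd ⟨K, Ω, _, _, _, _, _, _, _, x, y, hx, hxy, ⟨s0⟩⟩
  have hclosed : IsAlgClosed Ω := IsAlgClosure.isAlgClosed K
  have halg : Algebra.IsAlgebraic K Ω := IsAlgClosure.isAlgebraic
  let s : SectionData ℚ K Ω := s0.toData
  have hF0 : ∀ j, F j ≠ 0 := fun j h0 =>
    hP0 (zero_dvd_iff.mp (h0 ▸ Finset.dvd_prod_of_mem F (Finset.mem_univ j)))
  have hdvd : ∀ T : Finset ι, (∏ j ∈ T, F j) ∣ P := fun T =>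
    Finset.prod_dvd_prod_of_subset T Finset.univ F (Finset.subset_univ _)
  have hG0 : ∀ T : Finset ι, (∏ j ∈ T, F j) ≠ 0 := fun T =>
    Finset.prod_ne_zero_iff.2 fun j _ => hF0 j
  have hsepj : ∀ T : Finset ι, ((∏ j ∈ T, F j).map (Int.castRingHom ℚ)).Separable := fun T =>
    hsepQ.of_dvd (Polynomial.map_dvd _ (hdvd T))
  have hd0 : (d : ℚ) ≠ 0 := by exact_mod_cast hd.ne_zero
  have hxy' : algebraMap ℚ K (d : ℚ) * y ^ 2 = aeval x (P.map (Int.castRingHom ℚ)) := by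
    have h1 : aeval x (P.map (Int.castRingHom ℚ)) = aeval x P := aeval_map_aux P x
    rw [h1, ← hxy, map_intCast]
  have hdeg : ∀ k : {T : Finset ι // Even (T ∩ O).card}, Even (∏ j ∈ k.1, F j).natDegree :=
    fun k => even_deg F hF0 O hO k.1 k.2
  have hcard : ∀ k : {T : Finset ι // Even (T ∩ O).card},
      Even (rts (algebraicClosure ℚ Ω) (∏ j ∈ k.1, F j)).card := by
    intro k
    rw [card_rts (hsepj k.1)]
    exact hdeg k
  have hr : ∀ k : {T : Finset ι // Even (T ∩ O).card}, ∃ r : univCover ℚ K Ω,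
      r ^ 2 = ∏ θ ∈ rts (algebraicClosure ℚ Ω) (∏ j ∈ k.1, F j),
      (algebraMap K (univCover ℚ K Ω) x - incl ℚ K Ω θ) := by
    intro k
    refine exists_sqrt_prod (P.map (Int.castRingHom ℚ)) hsepQ (d : ℚ) hd0 x y hx hxy' _ ?_ (hcard k)
    intro θ hθ
    have h1 : aeval θ (∏ j ∈ k.1, F j) = 0 := (mem_rts (hG0 k.1) θ).mp hθ
    obtain ⟨g, hg⟩ := hdvd k.1
    have h2 : aeval θ P = 0 := by rw [hg, map_mul, h1, zero_mul]
    exact (aeval_map_aux P θ).trans h2
  choose r hr using hr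
  have hstab : ∀ (T : Finset ι) (σ : algebraicClosure ℚ Ω ≃ₐ[ℚ] algebraicClosure ℚ Ω),
      ∀ θ ∈ rts (algebraicClosure ℚ Ω) (∏ j ∈ T, F j),
        σ θ ∈ rts (algebraicClosure ℚ Ω) (∏ j ∈ T, F j) := by
    intro T σ θ hθ
    rw [mem_rts (hG0 T)] at hθ ⊢
    have h1 := Polynomial.aeval_algHom_apply
      (RingHom.toIntAlgHom (σ : algebraicClosure ℚ Ω →+* algebraicClosure ℚ Ω)) θ (∏ j ∈ T, F j)
    rw [hθ, map_zero] at h1
    exact h1
  have hb : ∀ k : {T : Finset ι // Even (T ∩ O).card},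
      ∃ (b : algebraicClosure ℚ Ω) (e : ℤ), Squarefree e ∧
      b ^ 2 = (e : algebraicClosure ℚ Ω) ∧ ∀ σ, s.act σ (incl ℚ K Ω b * r k) =
        incl ℚ K Ω b * r k := by
    intro k
    exact exists_b s x hx (rts (algebraicClosure ℚ Ω) (∏ j ∈ k.1, F j)) (hstab k.1) (r k) (hr k)
  choose b e hesq hbe hfix using hb
  refine ⟨fun T => if h : Even (T ∩ O).card then e ⟨T, h⟩ else 1, ?_, ?_, ?_⟩
  · intro T
    simp only
    split_ifs with h
    · exact hesq ⟨T, h⟩
    · exact squarefree_one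
  · intro T T' hT hT'
    have hTT := even_symm T T' O hT hT'
    simp only [dif_pos hT, dif_pos hT', dif_pos hTT]
    have hrs : rts (algebraicClosure ℚ Ω) (∏ j ∈ symmDiff T T', F j) =
        symmDiff (rts (algebraicClosure ℚ Ω) (∏ j ∈ T, F j))
          (rts (algebraicClosure ℚ Ω) (∏ j ∈ T', F j)) := by
      ext θ
      rw [Finset.mem_symmDiff, mem_rts (hG0 _), mem_rts (hG0 _), mem_rts (hG0 _), root_prod,
        root_prod, root_prod]
      constructor
      · rintro ⟨j, hj, hjθ⟩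
        rw [Finset.mem_symmDiff] at hj
        rcases hj with ⟨hj1, hj2⟩ | ⟨hj1, hj2⟩
        · refine Or.inl ⟨⟨j, hj1, hjθ⟩, ?_⟩
          rintro ⟨i, hi, hiθ⟩
          exact hj2 (root_uniq F hsepQ' θ i j hiθ hjθ ▸ hi)
        · refine Or.inr ⟨⟨j, hj1, hjθ⟩, ?_⟩
          rintro ⟨i, hi, hiθ⟩
          exact hj2 (root_uniq F hsepQ' θ i j hiθ hjθ ▸ hi)
      · rintro (⟨⟨j, hj, hjθ⟩, hn⟩ | ⟨⟨j, hj, hjθ⟩, hn⟩)
        · exact ⟨j, Finset.mem_symmDiff.2 (Or.inl ⟨hj, fun h => hn ⟨j, h, hjθ⟩⟩), hjθ⟩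
        · exact ⟨j, Finset.mem_symmDiff.2 (Or.inr ⟨hj, fun h => hn ⟨j, h, hjθ⟩⟩), hjθ⟩
    have hr3 := hr ⟨symmDiff T T', hTT⟩
    rw [show (⟨symmDiff T T', hTT⟩ : {T : Finset ι // Even (T ∩ O).card}).1 = symmDiff T T' from rfl,
      hrs] at hr3
    exact mul_square s x hx (rts (algebraicClosure ℚ Ω) (∏ j ∈ T, F j))
      (rts (algebraicClosure ℚ Ω) (∏ j ∈ T', F j)) (hstab T) (hstab T') (r ⟨T, hT⟩) (r ⟨T', hT'⟩)
      (r ⟨symmDiff T T', hTT⟩) (hr ⟨T, hT⟩) (hr ⟨T', hT'⟩) hr3 (b ⟨T, hT⟩) (b ⟨T', hT'⟩)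
      (b ⟨symmDiff T T', hTT⟩) _ _ _ (hbe _) (hbe _) (hbe _) (hfix _) (hfix _) (hfix _)
  · intro q hq hBq
    have hq2 : q ≠ 2 := by omega
    have hl : ¬ (q : ℤ) ∣ P.leadingCoeff := by
      intro hdvd
      have h1 := Int.natAbs_dvd_natAbs.mpr hdvd
      rw [Int.natAbs_natCast] at h1
      have h2 := Nat.le_of_dvd (Int.natAbs_pos.mpr hlead) h1
      omega
    have hloc := arith_localT s F hPeven' h6' hsepQ' q hq hq2 hl (hN q hq (by omega)) d hd x y hx hxy
      (fun k : {T : Finset ι // Even (T ∩ O).card} => k.1) hdeg e hesq b hbe r hr hfix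
    constructor
    · intro hqd T hT
      simp only [dif_pos hT]
      exact hloc.1 hqd ⟨T, hT⟩
    · intro hqd
      obtain ⟨i, z, hz, hk⟩ := hloc.2 hqd
      refine ⟨i, z, hz, fun T hT => ?_⟩
      simp only [dif_pos hT]
      exact hk ⟨T, hT⟩

end Pool.Agent.SCX
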