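import Pool.Agent.SCT.ArL

/-!
SCX module ARL (MP_896029_ag; plan /team-store/scx_plan.md): the arithmetic consequences of a section at
a good prime `q`, for a family `G k = ∏ j ∈ T k, F j` of products of even degree.

Proof: this is the proof of `arith_local` (SCT/ArL) with `G k` in place of `F j`.
* The local data, `hint`, `hsep`, `hτroot`, `hcl`, `hconst` are word for word the same; `hPeven` is now
  a hypothesis.  `G k` divides `P = ∏ j, F j`; it is separable over `ℚ` and over `ZMod q`; its roots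
  are roots of `P`; `q` does not divide its leading coefficient `∏ j ∈ T k, lead (F j)`
  (`leadingCoeff_prod`).  Root sets `rts E (G k)`, of even cardinality (`card_rts`, `hT`).
* `q ∤ d`: as before (`even_unr`, `tau_b`).
* `q ∣ d`: `classes` gives `θ0`; let `i` be the index with `F i (θ0) = 0`.  `θ0 ∈ rts E (G k)` iff `i ∈ T k`
  (for `j ≠ i`, `F j (θ0) ≠ 0` by coprimality).  `even_ram_tau` gives `s.act τ (r k) = - r k` if `i ∈ T k`,
  so `q ∣ e k`, and `s.act τ (r k) = r k` otherwise, so `q ∤ e k`.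
* The integer `a` (residue of `θ0`), `F i (a) = 0` modulo `q`, `F j (a) ≠ 0` modulo `q` for `j ≠ i`, as
  before.  For `i ∉ T k` the same computation with `even_ram_phi` for the set `rts E (G k)` gives
  `IsSquare (lead (G k) * G k (a) * e k : ZMod q)`.
* The pattern `z j = 1` if `j = i`, and for `j ≠ i` `z j = 1` iff `lead (F j) * F j (a)` is a square
  modulo `q` (as in the proof of `arith_local`).  So `z j = quadraticChar (ZMod q) (lead (F j) * F j (a))`
  for `j ≠ i` (nonzero argument, `quadraticChar_one_iff_isSquare`, `quadraticChar_eq_neg_one_iff_not_one`);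
  multiply over `j ∈ T k` (`i ∉ T k`; `map_prod`):
  `∏ z j = quadraticChar (lead (G k) * G k (a)) = quadraticChar (e k) = jacobiSym (e k) q`, because the
  product of the last two arguments is a nonzero square (`leadingCoeff_prod`, `eval_prod`).
-/

set_option linter.dupNamespace false

namespace Pool.Agent.SCX

open Polynomial Pool.Agent.Helper36 Pool.Agent.Helper19.Sec Pool.Agent.SCT

attribute [-instance] DivisionRing.toRatAlgebra

variable {K Ω : Type*} [Field K] [Field Ω] [Algebra ℚ K] [Algebra K Ω] [Algebra ℚ Ω]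
  [IsScalarTower ℚ K Ω] [Algebra.IsAlgebraic K Ω] [IsAlgClosed Ω]
  {ι : Type} [Fintype ι] [DecidableEq ι]

theorem arith_localT (s : SectionData ℚ K Ω) (F : ι → ℤ[X])
    (hPeven : Even (∏ j, F j).natDegree) (h6 : 6 ≤ (∏ j, F j).natDegree)
    (hsepQ : ((∏ j, F j).map (Int.castRingHom ℚ)).Separable)
    (q : ℕ) (hq : q.Prime) (hq2 : q ≠ 2) (hl : ¬ (q : ℤ) ∣ (∏ j, F j).leadingCoeff)
    (hsq : ((∏ j, F j).map (Int.castRingHom (ZMod q))).Separable) (d : ℤ) (hd : Squarefree d)
    (x y : K) (hx : Transcendental ℚ x) (hxy : (d : K) * y ^ 2 = aeval x (∏ j, F j))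
    {κ : Type} (T : κ → Finset ι) (hT : ∀ k, Even (∏ j ∈ T k, F j).natDegree)
    (e : κ → ℤ) (he : ∀ k, Squarefree (e k)) (b : κ → algebraicClosure ℚ Ω)
    (hb : ∀ k, b k ^ 2 = (e k : algebraicClosure ℚ Ω)) (r : κ → univCover ℚ K Ω)
    (hr : ∀ k, r k ^ 2 = ∏ θ ∈ rts (algebraicClosure ℚ Ω) (∏ j ∈ T k, F j),
      (algebraMap K (univCover ℚ K Ω) x - incl ℚ K Ω θ))
    (hfix : ∀ k, ∀ σ, s.act σ (incl ℚ K Ω (b k) * r k) = incl ℚ K Ω (b k) * r k) :
    (¬ (q : ℤ) ∣ d → ∀ k, ¬ (q : ℤ) ∣ e k) ∧
    ((q : ℤ) ∣ d → ∃ i : ι, ∃ z : ι → ℤˣ, z ∈ pat F i q ∧ ∀ k,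
      (i ∈ T k → (q : ℤ) ∣ e k) ∧
      (i ∉ T k → ¬ (q : ℤ) ∣ e k ∧ jacobiSym (e k) q = ∏ j ∈ T k, ((z j : ℤˣ) : ℤ))) := by
  classical
  have : Fact q.Prime := ⟨hq⟩
  set P : ℤ[X] := ∏ j, F j with hP
  set f : ℚ[X] := P.map (Int.castRingHom ℚ) with hf
  have hqi : Prime (q : ℤ) := Nat.prime_iff_prime_int.1 hq
  have hinj : Function.Injective (Int.castRingHom ℚ) := Int.cast_injective
  have hP0 : P ≠ 0 := by
    intro h0
    rw [h0, natDegree_zero] at h6
    omega
  have hF0 : ∀ j, F j ≠ 0 := by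
    intro j h0
    exact hP0 (Finset.prod_eq_zero (Finset.mem_univ j) h0)
  have hdegf : f.natDegree = P.natDegree := natDegree_map_eq_of_injective hinj P
  have hPevenf : Even f.natDegree := by
    rw [hdegf]
    exact hPeven
  have hleadf : f.leadingCoeff = (P.leadingCoeff : ℚ) := by
    rw [hf, leadingCoeff_map_of_injective hinj]
    rfl
  have hlP : P.leadingCoeff = ∏ j, (F j).leadingCoeff := leadingCoeff_prod _ _
  have hlj : ∀ j, ¬ (q : ℤ) ∣ (F j).leadingCoeff := by
    intro j h0
    refine hl ?_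
    rw [hlP]
    exact h0.trans (Finset.dvd_prod_of_mem _ (Finset.mem_univ j))
  -- the products
  set G : κ → ℤ[X] := fun k => ∏ j ∈ T k, F j with hG
  have hGk : ∀ k, G k = ∏ j ∈ T k, F j := fun k => rfl
  have hG0 : ∀ k, G k ≠ 0 := fun k => Finset.prod_ne_zero_iff.2 fun j _ => hF0 j
  have hGdvd : ∀ k, G k ∣ P := fun k =>
    Finset.prod_dvd_prod_of_subset _ _ _ (Finset.subset_univ _)
  have hGsep : ∀ k, ((G k).map (Int.castRingHom ℚ)).Separable := fun k =>
    hsepQ.of_dvd (Polynomial.map_dvd _ (hGdvd k))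
  have hGlead : ∀ k, (G k).leadingCoeff = ∏ j ∈ T k, (F j).leadingCoeff := fun k =>
    leadingCoeff_prod _ _
  -- evaluation
  have hae : ∀ (H : ℤ[X]) (θ : algebraicClosure ℚ Ω),
      aeval θ (H.map (Int.castRingHom ℚ)) = aeval θ H := by
    intro H θ
    rw [aeval_def, aeval_def, eval₂_map]
    congr 1
    exact RingHom.ext_int _ _
  have haeP : ∀ θ : algebraicClosure ℚ Ω, aeval θ P = ∏ j, aeval θ (F j) := fun θ => map_prod _ _ _
  have haeG : ∀ k (θ : algebraicClosure ℚ Ω), aeval θ (G k) = ∏ j ∈ T k, aeval θ (F j) :=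
    fun k θ => map_prod _ _ _
  -- the local data
  obtain ⟨V, φ, τ, hloc⟩ := exists_local_int (E := algebraicClosure ℚ Ω) q hq hq2
  have hint : ∀ θ : algebraicClosure ℚ Ω, aeval θ f = 0 → V.valuation θ ≤ 1 := by
    intro θ hθ
    rw [hf, hae] at hθ
    exact root_int hloc P hl θ hθ
  have hsep : ∀ θ θ' : algebraicClosure ℚ Ω, aeval θ f = 0 → aeval θ' f = 0 → θ ≠ θ' →
      V.valuation (θ - θ') = 1 := by
    intro θ θ' hθ hθ' hne
    rw [hf, hae] at hθ hθ'
    exact root_sep hq hloc P hl hsq θ θ' hθ hθ' hne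
  have hτroot := tau_root hloc.isLoc f hint hsep
  have hd0 : (d : ℚ) ≠ 0 := Int.cast_ne_zero.2 hd.ne_zero
  have hxy' : algebraMap ℚ K (d : ℚ) * y ^ 2 = aeval x f := by
    rw [map_intCast, hxy, hf, aeval_def, aeval_def, eval₂_map]
    congr 1
    exact RingHom.ext_int _ _
  have hcl := classes s hloc.isLoc f hsepQ hPevenf (by rw [hdegf]; exact h6) (d : ℚ) hd0 x y hx hxy'
    hint hsep
  have hconst : ∀ w : algebraicClosure ℚ Ω,
      w ^ 2 = algebraMap ℚ (algebraicClosure ℚ Ω) ((d : ℚ) / f.leadingCoeff) →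
      (¬ (q : ℤ) ∣ d → τ w = w) ∧ ((q : ℤ) ∣ d → τ w = -w) := by
    intro w hw
    rw [hleadf] at hw
    exact tau_const hq hloc d P.leadingCoeff hd hl w hw
  -- the sets of roots
  have hchE : CharZero (algebraicClosure ℚ Ω) := algebraRat.charZero _
  have hmem : ∀ k θ, θ ∈ rts (algebraicClosure ℚ Ω) (G k) ↔ aeval θ (G k) = 0 :=
    fun k θ => mem_rts (hG0 k) θ
  have hS : ∀ k, ∀ θ ∈ rts (algebraicClosure ℚ Ω) (G k), aeval θ f = 0 := by
    intro k θ hθ
    rw [hf, hae]
    obtain ⟨c, hc⟩ := hGdvd k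
    rw [hc, map_mul, (hmem k θ).1 hθ, zero_mul]
  have hSeven : ∀ k, Even (rts (algebraicClosure ℚ Ω) (G k)).card := by
    intro k
    rw [card_rts (hGsep k)]
    exact hT k
  have hr' : ∀ k, r k ^ 2 = ∏ θ ∈ rts (algebraicClosure ℚ Ω) (G k),
      (algebraMap K (univCover ℚ K Ω) x - incl ℚ K Ω θ) := hr
  have hr0 : ∀ k, r k ≠ 0 := by
    intro k h0
    have h1 := hr' k
    rw [h0, zero_pow (by norm_num)] at h1
    exact Finset.prod_ne_zero_iff.2 (fun θ _ => x_sub_ne x hx θ) h1.symm
  have hfix1 : ∀ k, s.act τ (r k) = r k → τ (b k) = b k := by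
    intro k h1
    have := act_fix_of (κ := 1) (hr0 k) (hfix k τ) (by rw [map_one, one_mul]; exact h1)
    rwa [mul_one] at this
  constructor
  · -- the unramified case
    intro hqd k
    have h1 := even_unr s τ f hsepQ (d : ℚ) hd0 x y hx hxy'
      (hcl.2 fun w hw => (hconst w hw).1 hqd) _ (hS k) (hSeven k) (r k) (hr' k)
    exact (tau_b hq hloc (e k) (he k) (b k) (hb k)).1 (hfix1 k h1)
  · -- the ramified case
    intro hqd
    obtain ⟨θ0, h0, hφ0, hneg⟩ := hcl.1 fun w hw => (hconst w hw).2 hqd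
    have h0P : ∏ j, aeval θ0 (F j) = 0 := by
      rw [← haeP, ← hae]
      exact h0
    obtain ⟨i, -, hi⟩ := Finset.prod_eq_zero_iff.1 h0P
    have hFj : ∀ j, j ≠ i → aeval θ0 (F j) ≠ 0 := by
      intro j hj h1
      obtain ⟨u, v, huv⟩ := coprime_of_sep (Int.castRingHom ℚ) F hsepQ hj
      have h2 := congrArg (aeval θ0) huv
      rw [map_add, map_mul, map_mul, hae, hae, hi, h1, mul_zero, mul_zero, add_zero, map_one] at h2
      exact zero_ne_one h2
    have hθi : ∀ k, i ∈ T k → θ0 ∈ rts (algebraicClosure ℚ Ω) (G k) := by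
      intro k hk
      rw [hmem, haeG]
      exact Finset.prod_eq_zero hk hi
    have hθj : ∀ k, i ∉ T k → θ0 ∉ rts (algebraicClosure ℚ Ω) (G k) := by
      intro k hk hθ
      rw [hmem, haeG] at hθ
      obtain ⟨j, hj, hj2⟩ := Finset.prod_eq_zero_iff.1 hθ
      exact hFj j (fun h1 => hk (h1 ▸ hj)) hj2
    have hτr : ∀ k, (θ0 ∈ rts (algebraicClosure ℚ Ω) (G k) → s.act τ (r k) = - r k) ∧
        (θ0 ∉ rts (algebraicClosure ℚ Ω) (G k) → s.act τ (r k) = r k) := fun k =>
      even_ram_tau s τ f hsepQ (d : ℚ) hd0 x y hx hxy' hτroot θ0 h0 hneg _ (hS k) (hSeven k)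
        (r k) (hr' k)
    have hek : ∀ k, i ∉ T k → ¬ (q : ℤ) ∣ e k := fun k hk =>
      (tau_b hq hloc (e k) (he k) (b k) (hb k)).1 (hfix1 k ((hτr k).2 (hθj k hk)))
    -- the residue of the root
    obtain ⟨a, ha⟩ := int_rep hq hloc θ0 (hint θ0 h0) hφ0
    have hia := root_mod hloc (F i) θ0 hi a ha
    have hja : ∀ j, j ≠ i →
        ((F j).map (Int.castRingHom (ZMod q))).eval ((a : ℤ) : ZMod q) ≠ 0 := by
      intro j hj h1
      obtain ⟨u, v, huv⟩ := coprime_of_sep (Int.castRingHom (ZMod q)) F hsq hj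
      have h2 := congrArg (eval ((a : ℤ) : ZMod q)) huv
      rw [eval_add, eval_mul, eval_mul, hia, h1, mul_zero, mul_zero, add_zero, eval_one] at h2
      exact zero_ne_one h2
    have hevm : ∀ H : ℤ[X], ((H.map (Int.castRingHom (ZMod q))).eval ((a : ℤ) : ZMod q)) =
        ((H.eval a : ℤ) : ZMod q) := by
      intro H
      rw [eval_intCast_map]
      rfl
    -- squares
    have hsqr : ∀ k, i ∉ T k →
        IsSquare (((((G k).leadingCoeff * (G k).eval a) * e k : ℤ)) : ZMod q) := by
      intro k hk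
      obtain ⟨δ, hδ⟩ := IsAlgClosed.exists_pow_nat_eq
        (∏ θ ∈ rts (algebraicClosure ℚ Ω) (G k), (θ0 - θ)) (n := 2) (by norm_num)
      have hδ0 : δ ≠ 0 := by
        rintro rfl
        rw [zero_pow (by norm_num)] at hδ
        obtain ⟨θ, hθ, hθ2⟩ := Finset.prod_eq_zero_iff.1 hδ.symm
        rw [sub_eq_zero] at hθ2
        exact hθj k hk (hθ2 ▸ hθ)
      have h1 := even_ram_phi s hloc.isLoc f hsepQ hPevenf (d : ℚ) hd0 x y hx hxy' hint hsep θ0 h0
        hφ0 hneg _ (hS k) (fun θ hθ => by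
          rw [hmem] at hθ ⊢
          have h2 := congrArg φ hθ
          rw [map_zero] at h2
          rw [← h2, ← hae, ← hae, ← aeval_algHom_apply]) (hSeven k) (hθj k hk) (r k) (hr' k) δ hδ
      have h2 := act_fix_of (hr0 k) (hfix k φ) h1
      have h3 : φ (b k * δ) = b k * δ := by
        rw [map_mul]
        calc φ (b k) * φ δ = (φ (b k) * (φ δ / δ)) * δ := by field_simp
          _ = b k * δ := by rw [h2]
      have hz1 : φ (((G k).leadingCoeff : algebraicClosure ℚ Ω) * (b k * δ)) =
          ((G k).leadingCoeff : algebraicClosure ℚ Ω) * (b k * δ) := by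
        rw [map_mul, h3, map_intCast]
      have hz2 : (((G k).leadingCoeff : algebraicClosure ℚ Ω) * (b k * δ)) ^ 2 =
          (((G k).leadingCoeff * e k : ℤ) : algebraicClosure ℚ Ω) * aeval θ0 (G k) := by
        rw [prod_rts (hGsep k), mul_pow, mul_pow, hb, hδ]
        push_cast
        ring
      have hva := aeval_congr hloc (G k) θ0 a ha
      have hvaj : V.valuation (aeval θ0 (G k)) ≤ 1 := by
        have h4 : aeval θ0 (G k) = (aeval θ0 (G k) - (((G k).eval a : ℤ) : algebraicClosure ℚ Ω)) +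
            (((G k).eval a : ℤ) : algebraicClosure ℚ Ω) := by ring
        rw [h4]
        exact (V.valuation.map_add _ _).trans (max_le hva.le (hloc.le_one _))
      have hz3 : V.valuation (((G k).leadingCoeff : algebraicClosure ℚ Ω) * (b k * δ)) ≤ 1 := by
        have h5 : V.valuation (((G k).leadingCoeff : algebraicClosure ℚ Ω) * (b k * δ)) ^ 2 ≤ 1 := by
          rw [← map_pow, hz2, map_mul]
          exact mul_le_one' (hloc.le_one _) hvaj
        exact (pow_le_one_iff_of_nonneg zero_le (by norm_num)).1 h5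
      refine isSquare_of hq hloc _ hz3 hz1 _ ?_
      rw [hz2]
      have h6 : (((G k).leadingCoeff * e k : ℤ) : algebraicClosure ℚ Ω) * aeval θ0 (G k) -
          (((G k).leadingCoeff * (G k).eval a * e k : ℤ) : algebraicClosure ℚ Ω) =
          (((G k).leadingCoeff * e k : ℤ) : algebraicClosure ℚ Ω) *
          (aeval θ0 (G k) - (((G k).eval a : ℤ) : algebraicClosure ℚ Ω)) := by
        push_cast
        ring
      rw [h6, map_mul]
      exact (mul_le_of_le_one_left' (hloc.le_one _)).trans_lt hva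
    -- the pattern
    refine ⟨i, fun j => if j = i then 1 else if IsSquare (((F j).leadingCoeff : ZMod q) *
      ((F j).map (Int.castRingHom (ZMod q))).eval ((a : ℤ) : ZMod q)) then 1 else -1, ?_, ?_⟩
    · unfold pat
      rw [Set.Finite.mem_toFinset]
      refine ⟨((a : ℤ) : ZMod q), hia, fun j => ⟨fun hj => if_pos hj, fun hj => ?_⟩⟩
      dsimp only
      rw [if_neg hj]
      by_cases h1 : IsSquare (((F j).leadingCoeff : ZMod q) *
        ((F j).map (Int.castRingHom (ZMod q))).eval ((a : ℤ) : ZMod q))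
      · rw [if_pos h1]
        exact ⟨fun _ => h1, fun _ => rfl⟩
      · rw [if_neg h1]
        exact ⟨fun h2 => absurd h2 (by decide), fun h2 => absurd h2 h1⟩
    · intro k
      refine ⟨fun hk => ?_, fun hk => ⟨hek k hk, ?_⟩⟩
      · refine (tau_b hq hloc (e k) (he k) (b k) (hb k)).2 ?_
        have := act_fix_of (κ := -1) (hr0 k) (hfix k τ) (by
          rw [map_neg, map_one, neg_one_mul]
          exact (hτr k).1 (hθi k hk))
        rw [mul_neg, mul_one] at this
        exact neg_eq_iff_eq_neg.1 this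
      · -- the symbol
        have he1 : ((e k : ℤ) : ZMod q) ≠ 0 := by
          rw [Ne, ZMod.intCast_zmod_eq_zero_iff_dvd]
          exact hek k hk
        have hu : ∀ j ∈ T k, (((F j).leadingCoeff : ZMod q) *
            ((F j).map (Int.castRingHom (ZMod q))).eval ((a : ℤ) : ZMod q)) ≠ 0 := by
          intro j hj
          have hji : j ≠ i := fun h1 => hk (h1 ▸ hj)
          have hl1 : (((F j).leadingCoeff : ℤ) : ZMod q) ≠ 0 := by
            rw [Ne, ZMod.intCast_zmod_eq_zero_iff_dvd]
            exact hlj j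
          exact mul_ne_zero hl1 (hja j hji)
        have hz : ∀ j ∈ T k, (((if j = i then (1 : ℤˣ) else if IsSquare
            (((F j).leadingCoeff : ZMod q) *
            ((F j).map (Int.castRingHom (ZMod q))).eval ((a : ℤ) : ZMod q)) then 1 else -1 : ℤˣ)) : ℤ)
            = quadraticChar (ZMod q) (((F j).leadingCoeff : ZMod q) *
            ((F j).map (Int.castRingHom (ZMod q))).eval ((a : ℤ) : ZMod q)) := by
          intro j hj
          have hji : j ≠ i := fun h1 => hk (h1 ▸ hj)
          rw [if_neg hji]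
          by_cases h1 : IsSquare (((F j).leadingCoeff : ZMod q) *
            ((F j).map (Int.castRingHom (ZMod q))).eval ((a : ℤ) : ZMod q))
          · rw [if_pos h1, Units.val_one]
            exact ((quadraticChar_one_iff_isSquare (hu j hj)).2 h1).symm
          · rw [if_neg h1, Units.val_neg, Units.val_one]
            refine (quadraticChar_eq_neg_one_iff_not_one (hu j hj)).2 ?_ |>.symm
            intro h2
            exact h1 ((quadraticChar_one_iff_isSquare (hu j hj)).1 h2)
        dsimp only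
        rw [Finset.prod_congr rfl hz, ← map_prod]
        have hprod : ∏ j ∈ T k, (((F j).leadingCoeff : ZMod q) *
            ((F j).map (Int.castRingHom (ZMod q))).eval ((a : ℤ) : ZMod q)) =
            (((G k).leadingCoeff * (G k).eval a : ℤ) : ZMod q) := by
          rw [hGlead k, hGk k, eval_prod, ← Finset.prod_mul_distrib, Int.cast_prod]
          refine Finset.prod_congr rfl fun j _ => ?_
          rw [hevm]
          push_cast
          ring
        rw [hprod]
        have hne : (((G k).leadingCoeff * (G k).eval a : ℤ) : ZMod q) ≠ 0 := by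
          rw [← hprod]
          exact Finset.prod_ne_zero_iff.2 hu
        have hiff := isSquare_iff_of_mul hne he1 (by
          have := hsqr k hk
          push_cast at this ⊢
          exact this)
        rw [← jacobiSym.legendreSym.to_jacobiSym]
        by_cases h1 : IsSquare ((((G k).leadingCoeff * (G k).eval a : ℤ)) : ZMod q)
        · rw [(quadraticChar_one_iff_isSquare hne).2 h1]
          exact (legendreSym.eq_one_iff q he1).2 (hiff.1 h1)
        · rw [(quadraticChar_eq_neg_one_iff_not_one hne).2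
            fun h2 => h1 ((quadraticChar_one_iff_isSquare hne).1 h2)]
          exact (legendreSym.eq_neg_one_iff q).2 fun h2 => h1 (hiff.2 h2)

end Pool.Agent.SCX
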