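import Pool.Agent.SCX.Flip

/-!
SCX module ARITHO (MP_896029_ag; plan /team-store/scx_plan.md): from the constants of the even sets `T`
to constants of the single indices (pure arithmetic).

Proof.  Call `T` even if `Even (T ∩ O).card`; for distinct `j, k ∈ O` the set `{j, k}` is even, and
`{j}` is even for `j ∉ O`.  Fix `o ∈ O`.  Let `q` be a prime `> B`.
(1) Type.  If `q ∣ d`, the index `i` of `h` is unique: for `i ≠ i'` there is an even `T` with `i ∈ T`,
`i' ∉ T` (`{i}` if `i ∉ O`, else `{i, k}` with `k ∈ O`, `k ≠ i, i'`, as `|O| ≥ 3`), so `q ∣ e T` and `q ∤ e T`.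
(2) Let `So` be the finite set of the primes `q ∈ d.natAbs.primeFactors`, `B < q`, such that `q ∣ e T`
for all even `T` with `o ∈ T` and `q ∤ e T` for all even `T` with `o ∉ T` (primes of type `o`), and
`Do = ∏ q ∈ So, q`.  `Do` is squarefree, positive, and divides `e {o, j}` for `j ∈ O`, `j ≠ o`
(distinct primes; `Finset.prod_primes_dvd` or `Nat.Coprime` products).
(3) Put `E o = Do`, `E j = e {o, j} / Do` for `j ∈ O`, `j ≠ o`, `E j = e {j}` for `j ∉ O`.  All are
squarefree.  For a prime `q > B`: `q ∣ E j` iff `q ∣ d` and the type of `q` is `j`.  (For `j ∈ O`, `j ≠ o`: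
`e {o, j} = E j * Do` is squarefree, `q ∣ e {o, j}` iff the type is `o` or `j`, `q ∣ Do` iff it is `o`, and `q`
does not divide both `E j` and `Do`.)
(4) Let `q ∣ d`, `q > B`, of type `i`, with the pattern `z`.  Jacobi symbols modulo the prime `q` of
numbers prime to `q` are `± 1` and multiplicative (`jacobiSym.mul_left`), and `(z j)^2 = 1`.
 * `i ≠ o`: let `ε = jacobiSym Do q * z o` (`= ± 1`).  Then `jacobiSym (E j) q = ε * z j` for all `j ∈ O`,
   `j ≠ i`: for `j = o` clear; for `j ≠ o`, `z o * z j = jacobiSym (e {o, j}) q = jacobiSym (E j) q * jacobiSym Do q`.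
 * `i = o`: choose `k ∈ O`, `k ≠ o`; `ε = jacobiSym (E k) q * z k`.  For `j ∈ O`, `j ≠ o, k`:
   `symmDiff {o, j} {o, k} = {j, k}`, so `e {o, j} * e {o, k} * e {j, k} = Do^2 * E j * E k * e {j, k}` is a square and
   so is `E j * E k * e {j, k}` (a rational square is an integral square), prime to `q`; hence
   `jacobiSym (E j) q * jacobiSym (E k) q * (z j * z k) = 1` and `jacobiSym (E j) q = ε * z j`.
 * In both cases `jacobiSym (E j) q = z j` for `j ∉ O`, `j ≠ i`.
 So the vector `y = z` (if `ε = 1`) or `y = flp O i z` (if `ε = -1`) is in `flipSet O i (Pat i q)` and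
 `jacobiSym (E j) q = y j` for `j ≠ i`.
-/

set_option linter.dupNamespace false

namespace Pool.Agent.SCX

open Finset Pool.Agent.SCT

variable {ι : Type} [Fintype ι] [DecidableEq ι]

omit [Fintype ι] in
private theorem even_single {O : Finset ι} {j : ι} (hj : j ∉ O) :
    Even (({j} : Finset ι) ∩ O).card := by
  have h1 : ({j} : Finset ι) ∩ O = ∅ := by
    ext x
    simp only [mem_inter, mem_singleton, notMem_empty, iff_false, not_and]
    intro hx
    rw [hx]
    exact hj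
  rw [h1, card_empty]
  exact Even.zero

omit [Fintype ι] in
private theorem even_pair {O : Finset ι} {j k : ι} (hj : j ∈ O) (hk : k ∈ O) (hjk : j ≠ k) :
    Even (({j, k} : Finset ι) ∩ O).card := by
  have h1 : ({j, k} : Finset ι) ∩ O = {j, k} := by
    refine Finset.inter_eq_left.2 ?_
    intro x hx
    rcases mem_insert.1 hx with h | h
    · rw [h]
      exact hj
    · rw [mem_singleton.1 h]
      exact hk
  rw [h1, card_pair hjk]
  exact even_two

omit [Fintype ι] in
private theorem sep {O : Finset ι} (hO3 : 3 ≤ O.card) {i o : ι} (hio : i ≠ o) :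
    ∃ T : Finset ι, Even (T ∩ O).card ∧ i ∈ T ∧ o ∉ T := by
  by_cases hi : i ∈ O
  · have h1 : 0 < ((O.erase i).erase o).card := by
      have h2 := Finset.pred_card_le_card_erase (s := O) (a := i)
      have h3 := Finset.pred_card_le_card_erase (s := O.erase i) (a := o)
      omega
    obtain ⟨k, hk⟩ := Finset.card_pos.1 h1
    rw [mem_erase, mem_erase] at hk
    refine ⟨{i, k}, even_pair hi hk.2.2 (fun h => hk.2.1 h.symm), mem_insert_self _ _, ?_⟩
    rw [mem_insert, mem_singleton]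
    rintro (h | h)
    · exact hio h.symm
    · exact hk.1 h.symm
  · refine ⟨{i}, even_single hi, mem_singleton_self _, ?_⟩
    rw [mem_singleton]
    exact fun h => hio h.symm

omit [Fintype ι] in
private theorem symm_pair {o j k : ι} (hoj : j ≠ o) (hok : k ≠ o) (hjk : j ≠ k) :
    symmDiff ({o, j} : Finset ι) {o, k} = {j, k} := by
  ext x
  rw [Finset.mem_symmDiff]
  simp only [mem_insert, mem_singleton]
  constructor
  · rintro (⟨h1 | h1, h2⟩ | ⟨h1 | h1, h2⟩)
    · exact absurd (Or.inl h1) h2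
    · exact Or.inl h1
    · exact absurd (Or.inl h1) h2
    · exact Or.inr h1
  · rintro (h | h)
    · refine Or.inl ⟨Or.inr h, ?_⟩
      rintro (h2 | h2)
      · exact hoj (h.symm.trans h2)
      · exact hjk (h.symm.trans h2)
    · refine Or.inr ⟨Or.inr h, ?_⟩
      rintro (h2 | h2)
      · exact hok (h.symm.trans h2)
      · exact hjk (h2.symm.trans h)

private theorem gcd_of_not_dvd {q : ℕ} (hq : q.Prime) {a : ℤ} (h : ¬ (q : ℤ) ∣ a) :
    a.gcd q = 1 := by
  have h1 : IsCoprime (q : ℤ) a :=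
    (Prime.coprime_iff_not_dvd (Nat.prime_iff_prime_int.1 hq)).2 h
  exact Int.isCoprime_iff_gcd_eq_one.1 h1.symm

private theorem jac_sq {q : ℕ} (hq : q.Prime) {a : ℤ} (h : ¬ (q : ℤ) ∣ a) :
    jacobiSym a q * jacobiSym a q = 1 := by
  have h1 := jacobiSym.sq_one (gcd_of_not_dvd hq h)
  rwa [sq] at h1

private theorem jac_pm {q : ℕ} (hq : q.Prime) {a : ℤ} (h : ¬ (q : ℤ) ∣ a) :
    jacobiSym a q = 1 ∨ jacobiSym a q = -1 :=
  jacobiSym.eq_one_or_neg_one (gcd_of_not_dvd hq h)

private theorem zsq (z : ℤˣ) : (z : ℤ) * (z : ℤ) = 1 := by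
  rcases Int.units_eq_one_or z with h | h
  · rw [h]
    rfl
  · rw [h]
    rfl

private theorem zpm (z : ℤˣ) : (z : ℤ) = 1 ∨ (z : ℤ) = -1 := by
  rcases Int.units_eq_one_or z with h | h
  · rw [h]
    exact Or.inl rfl
  · rw [h]
    exact Or.inr rfl

/-- the last step: from a common sign to a member of `flipSet` -/
private theorem fin (O : Finset ι) (i : ι) (P : Finset (ι → ℤˣ)) (z : ι → ℤˣ) (hz : z ∈ P)
    (J : ι → ℤ) (ε : ℤ) (hε : ε = 1 ∨ ε = -1)
    (h1 : ∀ j ∈ O, j ≠ i → J j = ε * ((z j : ℤˣ) : ℤ))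
    (h2 : ∀ j, j ∉ O → j ≠ i → J j = ((z j : ℤˣ) : ℤ)) :
    ∃ y ∈ flipSet O i P, ∀ j, j ≠ i → J j = ((y j : ℤˣ) : ℤ) := by
  rcases hε with rfl | rfl
  · refine ⟨z, mem_flipSet.2 (Or.inl hz), fun j hj => ?_⟩
    by_cases hjO : j ∈ O
    · rw [h1 j hjO hj, one_mul]
    · exact h2 j hjO hj
  · refine ⟨flp O i z, mem_flipSet.2 (Or.inr ⟨z, hz, rfl⟩), fun j hj => ?_⟩
    unfold flp
    by_cases hjO : j ∈ O
    · rw [h1 j hjO hj, if_pos ⟨hjO, hj⟩, Units.val_neg]
      ring
    · rw [h2 j hjO hj, if_neg (fun h => hjO h.1)]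

theorem arithO (O : Finset ι) (hO3 : 3 ≤ O.card) (Pat : ι → ℕ → Finset (ι → ℤˣ))
    (B : ℕ) (d : ℤ) (hd : Squarefree d) (e : Finset ι → ℤ) (he : ∀ T, Squarefree (e T))
    (hmul : ∀ T T' : Finset ι, Even (T ∩ O).card → Even (T' ∩ O).card →
      IsSquare (e T * e T' * e (symmDiff T T')))
    (h : ∀ q : ℕ, q.Prime → B < q →
      (¬ (q : ℤ) ∣ d → ∀ T, Even (T ∩ O).card → ¬ (q : ℤ) ∣ e T) ∧
      ((q : ℤ) ∣ d → ∃ i : ι, ∃ z : ι → ℤˣ, z ∈ Pat i q ∧
        ∀ T, Even (T ∩ O).card → (i ∈ T → (q : ℤ) ∣ e T) ∧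
          (i ∉ T → ¬ (q : ℤ) ∣ e T ∧ jacobiSym (e T) q = ∏ j ∈ T, ((z j : ℤˣ) : ℤ)))) :
    ∃ E : ι → ℤ, (∀ j, Squarefree (E j)) ∧ ∀ q : ℕ, q.Prime → B < q →
      (¬ (q : ℤ) ∣ d → ∀ j, ¬ (q : ℤ) ∣ E j) ∧
      ((q : ℤ) ∣ d → ∃ i : ι, (q : ℤ) ∣ E i ∧ (∀ j, j ≠ i → ¬ (q : ℤ) ∣ E j) ∧
        ∃ z : ι → ℤˣ, z ∈ flipSet O i (Pat i q) ∧
          ∀ j, j ≠ i → jacobiSym (E j) q = ((z j : ℤˣ) : ℤ)) := by
  classical
  obtain ⟨o, ho⟩ : O.Nonempty := Finset.card_pos.1 (by omega)
  have hd0 : d ≠ 0 := hd.ne_zero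
  -- the types
  have hK : ∀ q : ℕ, q.Prime → B < q → (q : ℤ) ∣ d → ∃ i : ι, ∃ z : ι → ℤˣ, z ∈ Pat i q ∧
      (∀ T, Even (T ∩ O).card → ((q : ℤ) ∣ e T ↔ i ∈ T)) ∧
      ∀ T, Even (T ∩ O).card → i ∉ T → jacobiSym (e T) q = ∏ j ∈ T, ((z j : ℤˣ) : ℤ) := by
    intro q hq hB hqd
    obtain ⟨i, z, hz, hT⟩ := (h q hq hB).2 hqd
    refine ⟨i, z, hz, fun T hT2 => ⟨fun h1 => ?_, (hT T hT2).1⟩, fun T hT2 hi =>
      ((hT T hT2).2 hi).2⟩
    by_contra hi
    exact ((hT T hT2).2 hi).1 h1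
  obtain ⟨So, hSo⟩ : ∃ So : Finset ℕ, So = d.natAbs.primeFactors.filter
    (fun q => B < q ∧ ∀ T : Finset ι, Even (T ∩ O).card → ((q : ℤ) ∣ e T ↔ o ∈ T)) := ⟨_, rfl⟩
  have hSomem : ∀ q, q ∈ So ↔ (q.Prime ∧ (q : ℤ) ∣ d) ∧
      (B < q ∧ ∀ T : Finset ι, Even (T ∩ O).card → ((q : ℤ) ∣ e T ↔ o ∈ T)) := by
    intro q
    rw [hSo, mem_filter, Nat.mem_primeFactors]
    refine and_congr_left fun _ => ?_
    constructor
    · exact fun h1 => ⟨h1.1, Int.natCast_dvd.2 h1.2.1⟩
    · exact fun h1 => ⟨h1.1, Int.natCast_dvd.1 h1.2, Int.natAbs_ne_zero.2 hd0⟩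
  obtain ⟨D, hD⟩ : ∃ D : ℕ, D = ∏ q ∈ So, q := ⟨_, rfl⟩
  have hprod : ∀ a : ℤ, (∀ q ∈ So, (q : ℤ) ∣ a) → (D : ℤ) ∣ a := by
    intro a ha
    rw [Int.natCast_dvd, hD]
    refine Finset.prod_primes_dvd _ (fun q hq => ((hSomem q).1 hq).1.1.prime) fun q hq => ?_
    exact Int.natCast_dvd.1 (ha q hq)
  have hDd : (D : ℤ) ∣ d := hprod d fun q hq => ((hSomem q).1 hq).1.2
  have hDsf : Squarefree (D : ℤ) := hd.squarefree_of_dvd hDd
  have hD0 : (D : ℤ) ≠ 0 := hDsf.ne_zero
  have hqD : ∀ q : ℕ, q.Prime → ((q : ℤ) ∣ (D : ℤ) ↔ q ∈ So) := by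
    intro q hq
    rw [Int.natCast_dvd_natCast, hD]
    constructor
    · intro h1
      obtain ⟨a, ha, h2⟩ := (hq.prime.dvd_finset_prod_iff _).1 h1
      rw [(Nat.prime_dvd_prime_iff_eq hq ((hSomem a).1 ha).1.1).1 h2]
      exact ha
    · exact fun h1 => Finset.dvd_prod_of_mem _ h1
  have hDe : ∀ j ∈ O, j ≠ o → (D : ℤ) ∣ e {o, j} := by
    intro j hj hjo
    refine hprod _ fun q hq => ?_
    exact (((hSomem q).1 hq).2.2 _ (even_pair ho hj (fun h => hjo h.symm))).2
      (mem_insert_self _ _)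
  obtain ⟨E, hE⟩ : ∃ E : ι → ℤ, E = fun j => if j = o then (D : ℤ) else
    if j ∈ O then e {o, j} / (D : ℤ) else e {j} := ⟨_, rfl⟩
  have hEo : E o = D := by
    rw [hE]
    exact if_pos rfl
  have hEO : ∀ j ∈ O, j ≠ o → E j * D = e {o, j} := by
    intro j hj hjo
    rw [hE]
    show (if j = o then (D : ℤ) else if j ∈ O then e {o, j} / (D : ℤ) else e {j}) * D = _
    rw [if_neg hjo, if_pos hj]
    exact Int.ediv_mul_cancel (hDe j hj hjo)
  have hEn : ∀ j, j ∉ O → E j = e {j} := by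
    intro j hj
    rw [hE]
    show (if j = o then (D : ℤ) else if j ∈ O then e {o, j} / (D : ℤ) else e {j}) = _
    rw [if_neg (fun h1 => hj (by rw [h1]; exact ho)), if_neg hj]
  refine ⟨E, ?_, ?_⟩
  · intro j
    by_cases hjo : j = o
    · rw [hjo, hEo]
      exact hDsf
    · by_cases hj : j ∈ O
      · exact (he {o, j}).squarefree_of_dvd ⟨_, (hEO j hj hjo).symm⟩
      · rw [hEn j hj]
        exact he _
  intro q hq hB
  have hqp : Prime (q : ℤ) := Nat.prime_iff_prime_int.1 hq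
  constructor
  · intro hqd j
    by_cases hjo : j = o
    · rw [hjo, hEo]
      exact fun h1 => hqd (h1.trans hDd)
    · by_cases hj : j ∈ O
      · intro h1
        refine (h q hq hB).1 hqd {o, j} (even_pair ho hj (fun h => hjo h.symm)) ?_
        rw [← hEO j hj hjo]
        exact h1.mul_right _
      · rw [hEn j hj]
        exact (h q hq hB).1 hqd _ (even_single hj)
  intro hqd
  obtain ⟨i, z, hz, hi1, hi2⟩ := hK q hq hB hqd
  -- `q` divides `D` iff the type is `o`
  have hqDo : (q : ℤ) ∣ (D : ℤ) ↔ i = o := by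
    rw [hqD q hq, hSomem]
    constructor
    · rintro ⟨-, -, h1⟩
      by_contra hio
      obtain ⟨T, hT1, hT2, hT3⟩ := sep hO3 hio
      exact hT3 ((h1 T hT1).1 ((hi1 T hT1).2 hT2))
    · intro hio
      rw [hio] at hi1
      exact ⟨⟨hq, hqd⟩, hB, hi1⟩
  have hqE : ∀ j, (q : ℤ) ∣ E j ↔ i = j := by
    intro j
    by_cases hjo : j = o
    · rw [hjo, hEo]
      exact hqDo
    · by_cases hj : j ∈ O
      · have h1 := hi1 {o, j} (even_pair ho hj (fun h => hjo h.symm))
        rw [← hEO j hj hjo, mem_insert, mem_singleton] at h1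
        constructor
        · intro h2
          rcases h1.1 (h2.mul_right _) with h3 | h3
          · exfalso
            have h4 : (q : ℤ) * q ∣ e {o, j} := by
              rw [← hEO j hj hjo]
              exact mul_dvd_mul h2 (hqDo.2 h3)
            exact hqp.not_unit (he _ _ h4)
          · exact h3
        · intro h2
          rcases hqp.dvd_or_dvd (h1.2 (Or.inr h2)) with h3 | h3
          · exact h3
          · exact absurd ((hqDo.1 h3).symm.trans h2) (fun h => hjo h.symm)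
      · rw [hEn j hj]
        have h1 := hi1 {j} (even_single hj)
        rw [mem_singleton] at h1
        exact h1
  refine ⟨i, (hqE i).2 rfl, fun j hj h1 => hj ((hqE j).1 h1).symm, ?_⟩
  have hnE : ∀ j, j ≠ i → ¬ (q : ℤ) ∣ E j := fun j hj h1 => hj ((hqE j).1 h1).symm
  have hout : ∀ j, j ∉ O → j ≠ i → jacobiSym (E j) q = ((z j : ℤˣ) : ℤ) := by
    intro j hj hji
    rw [hEn j hj, hi2 {j} (even_single hj) (by rw [mem_singleton]; exact fun h => hji h.symm),
      prod_singleton]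
  have hpair : ∀ j ∈ O, ∀ k ∈ O, j ≠ k → j ≠ i → k ≠ i →
      jacobiSym (e {j, k}) q = ((z j : ℤˣ) : ℤ) * ((z k : ℤˣ) : ℤ) := by
    intro j hj k hk hjk hji hki
    rw [hi2 {j, k} (even_pair hj hk hjk) ?_, prod_pair hjk]
    rw [mem_insert, mem_singleton]
    rintro (h1 | h1)
    · exact hji h1.symm
    · exact hki h1.symm
  by_cases hio : i = o
  · -- type `o`
    have h1 : 0 < (O.erase o).card := by
      have h2 := Finset.pred_card_le_card_erase (s := O) (a := o)
      omega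
    obtain ⟨k, hk⟩ := Finset.card_pos.1 h1
    rw [mem_erase] at hk
    obtain ⟨hko, hkO⟩ := hk
    have hki : k ≠ i := fun h => hko (h.trans hio)
    have hkne := hnE k hki
    refine fin O i (Pat i q) z hz (fun j => jacobiSym (E j) q)
      (jacobiSym (E k) q * ((z k : ℤˣ) : ℤ)) ?_ ?_ hout
    · rcases jac_pm hq hkne with h2 | h2 <;> rcases zpm (z k) with h3 | h3 <;>
        rw [h2, h3] <;> norm_num
    · intro j hj hji
      have hjo : j ≠ o := fun h => hji (h.trans hio.symm)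
      have hzk := zsq (z k)
      by_cases hjk : j = k
      · rw [hjk]
        show jacobiSym (E k) q = _
        calc jacobiSym (E k) q = jacobiSym (E k) q * (((z k : ℤˣ) : ℤ) * ((z k : ℤˣ) : ℤ)) := by
              rw [hzk, mul_one]
          _ = _ := by ring
      · obtain ⟨s, hs⟩ := hmul {o, j} {o, k} (even_pair ho hj (fun h => hjo h.symm))
          (even_pair ho hkO (fun h => hko h.symm))
        rw [symm_pair hjo hko hjk, ← hEO j hj hjo, ← hEO k hkO hko] at hs
        have h2 : (D : ℤ) ^ 2 ∣ s ^ 2 := by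
          refine ⟨E j * E k * e {j, k}, ?_⟩
          rw [sq s, ← hs]
          ring
        have h3 : (D : ℤ) ∣ s := (Int.pow_dvd_pow_iff two_ne_zero).1 h2
        obtain ⟨t, ht⟩ := h3
        have h4 : E j * E k * e {j, k} = t ^ 2 := by
          have h5 : (D : ℤ) ^ 2 * (E j * E k * e {j, k}) = (D : ℤ) ^ 2 * t ^ 2 := by
            rw [ht] at hs
            linear_combination hs
          exact mul_left_cancel₀ (pow_ne_zero 2 hD0) h5
        have hejk : ¬ (q : ℤ) ∣ e {j, k} := by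
          intro h5
          have h6 := (hi1 {j, k} (even_pair hj hkO hjk)).1 h5
          rw [mem_insert, mem_singleton] at h6
          rcases h6 with h6 | h6
          · exact hji h6.symm
          · exact hki h6.symm
        have htq : ¬ (q : ℤ) ∣ t := by
          intro h5
          have h6 : (q : ℤ) ∣ E j * E k * e {j, k} := by
            rw [h4]
            exact dvd_pow h5 two_ne_zero
          rcases hqp.dvd_or_dvd h6 with h7 | h7
          · rcases hqp.dvd_or_dvd h7 with h8 | h8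
            · exact hnE j hji h8
            · exact hkne h8
          · exact hejk h7
        have h5 : jacobiSym (E j) q * jacobiSym (E k) q * jacobiSym (e {j, k}) q = 1 := by
          rw [← jacobiSym.mul_left, ← jacobiSym.mul_left, h4]
          exact jacobiSym.sq_one' (gcd_of_not_dvd hq htq)
        rw [hpair j hj k hkO hjk hji hki] at h5
        have hzj := zsq (z j)
        have hJk := jac_sq hq hkne
        show jacobiSym (E j) q = jacobiSym (E k) q * ((z k : ℤˣ) : ℤ) * ((z j : ℤˣ) : ℤ)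
        calc jacobiSym (E j) q = jacobiSym (E j) q * (jacobiSym (E k) q * jacobiSym (E k) q) *
              (((z k : ℤˣ) : ℤ) * ((z k : ℤˣ) : ℤ)) * (((z j : ℤˣ) : ℤ) * ((z j : ℤˣ) : ℤ)) := by
              rw [hJk, hzk, hzj]
              ring
          _ = (jacobiSym (E j) q * jacobiSym (E k) q *
              (((z j : ℤˣ) : ℤ) * ((z k : ℤˣ) : ℤ))) *
              (jacobiSym (E k) q * ((z k : ℤˣ) : ℤ) * ((z j : ℤˣ) : ℤ)) := by ring
          _ = _ := by rw [h5, one_mul]
  · -- another type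
    have hoi : o ≠ i := fun h => hio h.symm
    have hDne : ¬ (q : ℤ) ∣ (D : ℤ) := fun h1 => hio (hqDo.1 h1)
    have hDD := jac_sq hq hDne
    have hzo := zsq (z o)
    refine fin O i (Pat i q) z hz (fun j => jacobiSym (E j) q)
      (jacobiSym (D : ℤ) q * ((z o : ℤˣ) : ℤ)) ?_ ?_ hout
    · rcases jac_pm hq hDne with h2 | h2 <;> rcases zpm (z o) with h3 | h3 <;>
        rw [h2, h3] <;> norm_num
    · intro j hj hji
      by_cases hjo : j = o
      · rw [hjo]
        show jacobiSym (E o) q = _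
        rw [hEo]
        calc jacobiSym (D : ℤ) q = jacobiSym (D : ℤ) q * (((z o : ℤˣ) : ℤ) * ((z o : ℤˣ) : ℤ)) := by
              rw [hzo, mul_one]
          _ = _ := by ring
      · have h1 := hpair o ho j hj (fun h => hjo h.symm) hoi hji
        rw [← hEO j hj hjo, jacobiSym.mul_left] at h1
        show jacobiSym (E j) q = jacobiSym (D : ℤ) q * ((z o : ℤˣ) : ℤ) * ((z j : ℤˣ) : ℤ)
        calc jacobiSym (E j) q = (jacobiSym (E j) q * jacobiSym (D : ℤ) q) *
              jacobiSym (D : ℤ) q := by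
              rw [mul_assoc, hDD, mul_one]
          _ = _ := by
              rw [h1]
              ring

end Pool.Agent.SCX
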