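import Pool.Agent.SCX.CntG

/-!
SCX module CNTA (MP_896029_ag; plan /team-store/scx_plan.md): the number of squarefree `d` with a
section, when the density of the primes modulo which `P` has a root is less than one.
-/

set_option linter.dupNamespace false

namespace Pool.Agent.SCX

open Polynomial Finset Pool.Agent.Helper36 Pool.Agent.Helper19.Sec Pool.Agent.SCT

theorem pat_unit_card (P : ℤ[X]) (q : ℕ) : (pat (fun _ : Unit => P) () q).card ≤ 1 := by
  refine Finset.card_le_one.2 fun y hy z hz => ?_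
  have key : ∀ y ∈ pat (fun _ : Unit => P) () q, y = 1 := by
    intro y hy
    have h1 : y ∈ patSet (fun _ : Unit => P) () q := (Set.toFinite _).mem_toFinset.mp hy
    obtain ⟨t, -, ht⟩ := h1
    funext j
    exact (ht j).1 rfl
  rw [key y hy, key z hz]

theorem pat_unit_empty (P : ℤ[X]) (q : ℕ)
    (h : ¬ ∃ t : ZMod q, (P.map (Int.castRingHom (ZMod q))).eval t = 0) :
    (pat (fun _ : Unit => P) () q).card = 0 := by
  rw [Finset.card_eq_zero, Finset.eq_empty_iff_forall_notMem]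
  intro y hy
  have h1 : y ∈ patSet (fun _ : Unit => P) () q := (Set.toFinite _).mem_toFinset.mp hy
  obtain ⟨t, ht, -⟩ := h1
  exact h ⟨t, ht⟩

open Classical in
theorem cntA (P : ℤ[X]) (hPeven : Even P.natDegree) (h6 : 6 ≤ P.natDegree)
    (hsepQ : (P.map (Int.castRingHom ℚ)).Separable) (δ C0 : ℝ) (hδ : 0 < δ) (hδ1 : δ ≤ 1)
    (hden : ∀ s : ℝ, 1 < s → s ≤ 2 → ∀ Y : ℕ,
      ∑ q ∈ (range (Y + 1)).filter (fun q => q.Prime ∧ ∃ t : ZMod q,
        (P.map (Int.castRingHom (ZMod q))).eval t = 0), (q : ℝ) ^ (-s) ≤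
        (1 - δ) * Real.log (1 / (s - 1)) + C0) :
    ∃ C δ : ℝ, 0 ≤ C ∧ 0 < δ ∧ ∀ N : ℕ, 2 ≤ N →
      ({d : ℤ | Squarefree d ∧ |d| ≤ N ∧ HasSection P d}.ncard : ℝ) ≤
        C * N / (Real.log N) ^ δ := by
  have hprod : ∏ j : Unit, (fun _ : Unit => P) j = P := by
    rw [Fintype.prod_unique]
  obtain ⟨B, hB, har⟩ := arith (fun _ : Unit => P) (fun _ => hPeven) (by rw [hprod]; exact h6)
    (by rw [hprod]; exact hsepQ)
  rw [hprod] at har
  refine cntG (ι := Unit) (fun i q => pat (fun _ : Unit => P) i q) ?_ B hB ?_ {d : ℤ | HasSection P d} ?_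
  · intro i q y hy
    have h1 : y ∈ patSet (fun _ : Unit => P) i q := (Set.toFinite _).mem_toFinset.mp hy
    obtain ⟨t, -, ht⟩ := h1
    exact (ht i).1 rfl
  · intro X hX hXB
    refine count X δ C0 hδ hδ1 ?_
    intro i s hs hs2 Y
    refine le_trans ?_ (hden s hs hs2 Y)
    rw [← filter_filter, sum_filter (p := fun q => ∃ t : ZMod q,
      (P.map (Int.castRingHom (ZMod q))).eval t = 0)]
    refine sum_le_sum fun q _ => ?_
    have h0 : (0 : ℝ) ≤ (q : ℝ) ^ (-s) := Real.rpow_nonneg (Nat.cast_nonneg q) _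
    rw [hX]
    cases i
    split_ifs with h
    · have h1 : ((pat (fun _ : Unit => P) () q).card : ℝ) ≤ 1 := by
        exact_mod_cast pat_unit_card P q
      calc _ ≤ 1 * (q : ℝ) ^ (-s) := mul_le_mul_of_nonneg_right h1 h0
        _ = _ := one_mul _
    · rw [pat_unit_empty P q h]
      simp
  · intro d hd hs
    exact har d hd hs

end Pool.Agent.SCX
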