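import Pool.Agent.SCT.Unl

/-!
SCX module UNL (MP_896029_ag; plan /team-store/scx_plan.md): the contribution of a family `𝒰` of sets
of large variables with at most `κ` elements.

Proof: copy of `unl_series`, `unl_inner`, `unl` (SCT/Unl) with the changes:
* `unl_series`: `hcard` is replaced by `(U.card : ℝ) ≤ κ`, and `hden` by the new hypothesis; with
  `a_v(s, Y) = ∑_{q ≤ Y} uw X v q q^(-s)` (`uw X v q = |Pat v.i q| / 2^(m-1)`), `κ * a_v ≤ R`,
  `R = (1 - δ) log (1/(s-1)) + |C0| ≥ 0`; so `∑_{v ∈ U} a_v ≤ |U| R / κ ≤ R`.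
* `unl_inner`, `unl`: same proofs (`unl_one` of SCT/Unl can be used as it is).
-/

set_option linter.dupNamespace false

namespace Pool.Agent.SCX

open Finset Pool.Agent.SCT

variable {ι : Type} [Fintype ι] [DecidableEq ι]

private theorem seriesX [Nonempty ι] (X : CData ι) (κ : ℝ) (hκ : 0 < κ) (δ C0 : ℝ) (hδ1 : δ ≤ 1)
    (hden : ∀ i, ∀ s : ℝ, 1 < s → s ≤ 2 → ∀ Y : ℕ,
      κ * ∑ q ∈ (range (Y + 1)).filter Nat.Prime,
        ((X.Pat i q).card : ℝ) / 2 ^ (Fintype.card ι - 1) * (q : ℝ) ^ (-s) ≤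
      (1 - δ) * Real.log (1 / (s - 1)) + C0)
    (U : Finset (Idx ι)) (hU : (U.card : ℝ) ≤ κ) :
    ∃ C : ℝ, 0 ≤ C ∧ ∀ T : ℕ, 3 ≤ T →
      ∑ n ∈ (Icc 1 T).filter Squarefree, ∏ q ∈ n.primeFactors, ∑ v ∈ U, uw X v q ≤
        C * T * (Real.log T) ^ (-δ) := by
  have hg0 : ∀ q, 0 ≤ ∑ v ∈ U, uw X v q := fun q => sum_nonneg fun v _ => uw_nonneg X v q
  have hgG : ∀ q, ∑ v ∈ U, uw X v q ≤ (U.card : ℝ) := by
    intro q
    calc ∑ v ∈ U, uw X v q ≤ ∑ v ∈ U, (1 : ℝ) := sum_le_sum fun v _ => uw_le_one X v q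
      _ = U.card := by simp
  obtain ⟨C1, hC1, h1⟩ := mertens_of_dirichlet (fun q => ∑ v ∈ U, uw X v q) U.card (1 - δ) |C0|
    hg0 hgG (by
      intro s hs hs2 Y
      have e1 : ∑ q ∈ (range (Y + 1)).filter Nat.Prime, (∑ v ∈ U, uw X v q) * (q : ℝ) ^ (-s) =
          ∑ v ∈ U, ∑ q ∈ (range (Y + 1)).filter Nat.Prime, uw X v q * (q : ℝ) ^ (-s) := by
        simp_rw [sum_mul]
        rw [sum_comm]
      rw [e1]
      have hlog : 0 ≤ Real.log (1 / (s - 1)) := by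
        apply Real.log_nonneg
        rw [le_div_iff₀ (by linarith)]
        linarith
      have hR : 0 ≤ (1 - δ) * Real.log (1 / (s - 1)) + |C0| := by
        have := mul_nonneg (by linarith : 0 ≤ 1 - δ) hlog
        have := abs_nonneg C0
        linarith
      have hv : ∀ v : Idx ι, ∑ q ∈ (range (Y + 1)).filter Nat.Prime, uw X v q * (q : ℝ) ^ (-s) ≤
          ((1 - δ) * Real.log (1 / (s - 1)) + |C0|) / κ := by
        intro v
        rw [le_div_iff₀ hκ, mul_comm]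
        have h2 := hden v.i s hs hs2 Y
        have h3 := le_abs_self C0
        have h4 : κ * ∑ q ∈ (range (Y + 1)).filter Nat.Prime, uw X v q * (q : ℝ) ^ (-s) ≤
            (1 - δ) * Real.log (1 / (s - 1)) + C0 := h2
        linarith
      calc ∑ v ∈ U, ∑ q ∈ (range (Y + 1)).filter Nat.Prime, uw X v q * (q : ℝ) ^ (-s)
          ≤ ∑ v ∈ U, ((1 - δ) * Real.log (1 / (s - 1)) + |C0|) / κ :=
            sum_le_sum fun v _ => hv v
        _ = ((U.card : ℝ) / κ) * ((1 - δ) * Real.log (1 / (s - 1)) + |C0|) := by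
            rw [sum_const, nsmul_eq_mul]
            ring
        _ ≤ 1 * ((1 - δ) * Real.log (1 / (s - 1)) + |C0|) := by
            refine mul_le_mul_of_nonneg_right ?_ hR
            rw [div_le_one hκ]
            exact hU
        _ = (1 - δ) * Real.log (1 / (s - 1)) + |C0| := one_mul _)
  obtain ⟨C2, hC2, h2⟩ := mul_bound (U.card : ℝ) (Nat.cast_nonneg _)
  refine ⟨C2 * Real.exp C1, by positivity, fun T hT => ?_⟩
  have hT0 : (0 : ℝ) < T := by exact_mod_cast (by omega : 0 < T)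
  have hlogT : 0 < Real.log T := Real.log_pos (by exact_mod_cast (by omega : 1 < T))
  refine (h2 (fun q => ∑ v ∈ U, uw X v q) hg0 hgG T (by omega)).trans ?_
  have h3 := h1 T hT
  calc C2 * T / Real.log T * Real.exp (∑ q ∈ (range (T + 1)).filter Nat.Prime,
        (∑ v ∈ U, uw X v q) / q)
      ≤ C2 * T / Real.log T * Real.exp ((1 - δ) * Real.log (Real.log T) + C1) := by
        refine mul_le_mul_of_nonneg_left ?_ (by positivity)
        exact Real.exp_le_exp.2 h3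
    _ = C2 * Real.exp C1 * T * (Real.log T) ^ (-δ) := by
        rw [Real.exp_add]
        have e1 : Real.exp ((1 - δ) * Real.log (Real.log T)) =
            Real.log T * (Real.log T) ^ (-δ) := by
          rw [Real.rpow_def_of_pos hlogT]
          nth_rewrite 2 [← Real.exp_log hlogT]
          rw [← Real.exp_add]
          congr 1
          ring
        rw [e1]
        field_simp

private theorem innerX [Nonempty ι] (X : CData ι) (δ : ℝ) (hδ : 0 < δ) (hδ1 : δ ≤ 1)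
    (U : Finset (Idx ι)) (hser : ∃ C : ℝ, 0 ≤ C ∧ ∀ T : ℕ, 3 ≤ T →
      ∑ n ∈ (Icc 1 T).filter Squarefree, ∏ q ∈ n.primeFactors, ∑ v ∈ U, uw X v q ≤
        C * T * (Real.log T) ^ (-δ)) :
    ∃ C : ℝ, 0 ≤ C ∧ ∀ Y K : ℕ, 3 ≤ Y → 1 ≤ K → K * K ≤ Y →
      ∑ n ∈ (Icc 1 (Y / K)).filter Squarefree, ∏ q ∈ n.primeFactors, ∑ v ∈ U, uw X v q ≤
        C * ((Y : ℝ) / K) * (Real.log Y) ^ (-δ) := by
  obtain ⟨C, hC, h⟩ := hser
  refine ⟨12 * C, by positivity, fun Y K hY hK hKY => ?_⟩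
  have hY0 : (0 : ℝ) < Y := by exact_mod_cast (by omega : 0 < Y)
  have hK0 : (0 : ℝ) < K := by exact_mod_cast (by omega : 0 < K)
  set T := Y / K with hT
  have hTK : K ≤ T := by
    rw [hT]; exact (Nat.le_div_iff_mul_le (by omega)).2 hKY
  have hT1 : 1 ≤ T := hK.trans hTK
  have hYT : Y < K * (T + 1) := by rw [hT]; exact Nat.lt_mul_div_succ Y (by omega)
  have hTYK : (T : ℝ) ≤ Y / K := by
    rw [le_div_iff₀ hK0]
    exact_mod_cast (Nat.div_mul_le_self Y K)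
  set T' := max T 3 with hT'
  have hT'3 : 3 ≤ T' := le_max_right _ _
  have hTT' : T ≤ T' := le_max_left _ _
  have hT'T : (T' : ℝ) ≤ 3 * T := by
    have : T' ≤ 3 * T := by
      rw [hT']; exact max_le (by omega) (by omega)
    exact_mod_cast this
  have hpow : Y ≤ T' ^ 4 := by
    have h1 : Y < T * (T + 1) := lt_of_lt_of_le hYT (Nat.mul_le_mul_right _ hTK)
    have h2 : T * (T + 1) ≤ T' * (T' + 1) := Nat.mul_le_mul hTT' (by omega)
    have h3 : T' + 1 ≤ T' ^ 3 := by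
      have : T' ^ 3 = T' * T' * T' := by ring
      rw [this]
      nlinarith
    calc Y ≤ T' * (T' + 1) := by omega
      _ ≤ T' * T' ^ 3 := Nat.mul_le_mul_left _ h3
      _ = T' ^ 4 := by ring
  have hlogY : 0 < Real.log Y := Real.log_pos (by exact_mod_cast (by omega : 1 < Y))
  have hlogT' : Real.log Y / 4 ≤ Real.log T' := by
    have h1 : Real.log Y ≤ Real.log ((T' : ℝ) ^ 4) :=
      Real.log_le_log hY0 (by exact_mod_cast hpow)
    rw [Real.log_pow] at h1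
    push_cast at h1
    linarith
  calc ∑ n ∈ (Icc 1 T).filter Squarefree, ∏ q ∈ n.primeFactors, ∑ v ∈ U, uw X v q
      ≤ ∑ n ∈ (Icc 1 T').filter Squarefree, ∏ q ∈ n.primeFactors, ∑ v ∈ U, uw X v q := by
        refine sum_le_sum_of_subset_of_nonneg ?_ ?_
        · exact filter_subset_filter _ (Icc_subset_Icc_right hTT')
        · intro n _ _
          exact prod_nonneg fun q _ => sum_nonneg fun v _ => uw_nonneg X v q
    _ ≤ C * T' * (Real.log T') ^ (-δ) := h T' hT'3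
    _ ≤ C * (3 * (Y / K)) * (4 * (Real.log Y) ^ (-δ)) := by
        refine mul_le_mul ?_ ?_ (Real.rpow_nonneg (by linarith) _) (by positivity)
        · refine mul_le_mul_of_nonneg_left ?_ hC
          linarith
        · calc (Real.log T') ^ (-δ) ≤ (Real.log Y / 4) ^ (-δ) :=
                Real.rpow_le_rpow_of_nonpos (by positivity) hlogT' (by linarith)
            _ = (Real.log Y) ^ (-δ) * (1 / 4 : ℝ) ^ (-δ) := by
                rw [← Real.mul_rpow hlogY.le (by norm_num)]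
                congr 1
                ring
            _ ≤ (Real.log Y) ^ (-δ) * 4 := by
                refine mul_le_mul_of_nonneg_left ?_ (Real.rpow_nonneg hlogY.le _)
                rw [one_div, Real.inv_rpow (by norm_num), Real.rpow_neg (by norm_num), inv_inv]
                calc (4 : ℝ) ^ δ ≤ (4 : ℝ) ^ (1 : ℝ) :=
                      Real.rpow_le_rpow_of_exponent_le (by norm_num) hδ1
                  _ = 4 := Real.rpow_one 4
            _ = 4 * (Real.log Y) ^ (-δ) := mul_comm _ _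
    _ = 12 * C * ((Y : ℝ) / K) * (Real.log Y) ^ (-δ) := by ring

theorem unlX [Nonempty ι] (X : CData ι) (𝒰 : Set (Finset (Idx ι))) (κ : ℝ) (hκ : 0 < κ)
    (h𝒰 : ∀ U ∈ 𝒰, (U.card : ℝ) ≤ κ) (δ C0 : ℝ) (hδ : 0 < δ) (hδ1 : δ ≤ 1)
    (hden : ∀ i, ∀ s : ℝ, 1 < s → s ≤ 2 → ∀ Y : ℕ,
      κ * ∑ q ∈ (range (Y + 1)).filter Nat.Prime,
        ((X.Pat i q).card : ℝ) / 2 ^ (Fintype.card ι - 1) * (q : ℝ) ^ (-s) ≤
      (1 - δ) * Real.log (1 / (s - 1)) + C0) :
    ∃ C : ℝ, 0 ≤ C ∧ ∀ U ∈ 𝒰, ∀ Y Z : ℕ, 3 ≤ Y → 1 ≤ Z →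
      ((Z : ℝ) ^ (2 * Fintype.card (Idx ι))) ≤ Y →
      ∑ D ∈ (Fintype.piFinset fun _ : Idx ι => Icc 1 Y).filter
        (fun D => ∏ v, D v ≤ Y ∧ ∀ v, v ∉ U → D v ≤ Z), |X.Phi D| ≤
      C * Y * (Real.log Y) ^ (-δ) * (1 + Real.log Z) ^ (Fintype.card (Idx ι)) := by
  classical
  have hex : ∀ U : Finset (Idx ι), ∃ C : ℝ, 0 ≤ C ∧ ((U.card : ℝ) ≤ κ →
      ∀ Y K : ℕ, 3 ≤ Y → 1 ≤ K → K * K ≤ Y →
      ∑ n ∈ (Icc 1 (Y / K)).filter Squarefree, ∏ q ∈ n.primeFactors, ∑ v ∈ U, uw X v q ≤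
        C * ((Y : ℝ) / K) * (Real.log Y) ^ (-δ)) := by
    intro U
    by_cases hU : (U.card : ℝ) ≤ κ
    · obtain ⟨C, hC, h⟩ := innerX X δ hδ hδ1 U (seriesX X κ hκ δ C0 hδ1 hden U hU)
      exact ⟨C, hC, fun _ => h⟩
    · exact ⟨0, le_refl _, fun h => absurd h hU⟩
  choose C hC h using hex
  refine ⟨∑ U, C U, sum_nonneg fun U _ => hC U, fun U hU Y Z hY hZ hZY => ?_⟩
  have hlogY : 0 < Real.log Y := Real.log_pos (by exact_mod_cast (by omega : 1 < Y))
  have hlogZ : 0 ≤ Real.log Z := Real.log_nonneg (by exact_mod_cast hZ)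
  refine (unl_one X δ U (C U) (hC U) (h U (h𝒰 U hU)) Y Z hY hZ hZY).trans ?_
  have h1 : C U ≤ ∑ U, C U := single_le_sum (fun U _ => hC U) (mem_univ U)
  have h2 : 0 ≤ (Real.log Y) ^ (-δ) := Real.rpow_nonneg hlogY.le _
  gcongr

end Pool.Agent.SCX
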