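import Pool.Agent.SCT.Count
import Pool.Agent.SCX.Unl

/-!
SCX module COUNT (MP_896029_ag; plan /team-store/scx_plan.md): the counting theorem when some Fourier
coefficients vanish.

Proof: copy of `count` (SCT/Count; `cnt_ana`, `cnt_le`, `cnt_unl`, `lnk` are used as they are), with
one more case: if `U` contains `v` which is not live, then `X.Phi D = 0` for every `D` with
`large Z D = U`: `n = D v > Z ≥ 1`; if `X.gam v n ≠ 0` then `Good X.B n`, so `n` has a prime factor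
`q > X.B` and `coefP (X.Pat v.i q) v.A = 0` is a factor of `X.gam v n`.  If all elements of `U` are
live and no two of them are linked use `unlX` with
`𝒰 = {U | (∀ v ∈ U, live v) ∧ (∀ v ∈ U, ∀ w ∈ U, ¬ Linked v w)}`, otherwise `lnk`.
-/

set_option linter.dupNamespace false

namespace Pool.Agent.SCX

open Finset Pool.Agent.SCT

variable {ι : Type} [Fintype ι] [DecidableEq ι] [Nonempty ι]

omit [Nonempty ι] in
/-- a large variable which is not live kills the summand -/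
theorem cntX_zero (X : CData ι) {live : Idx ι → Prop}
    (hlive : ∀ v, ¬ live v → ∀ q : ℕ, q.Prime → X.B < q → coefP (X.Pat v.i q) v.A = 0)
    {Z : ℕ} (hZ : 1 ≤ Z) {v : Idx ι} (hv : ¬ live v) {D : Idx ι → ℕ} (hD : v ∈ large Z D) :
    X.Phi D = 0 := by
  have h1 : Z < D v := by
    unfold large at hD
    exact (Finset.mem_filter.mp hD).2
  have h2 : X.gam v (D v) = 0 := by
    unfold CData.gam
    split_ifs with hg
    · obtain ⟨q, hq, hqd⟩ := Nat.exists_prime_and_dvd (show D v ≠ 1 by omega)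
      have h3 : ∏ q ∈ (D v).primeFactors, coefP (X.Pat v.i q) v.A = 0 :=
        Finset.prod_eq_zero (Nat.mem_primeFactors.mpr ⟨hq, hqd, by omega⟩)
          (hlive v hv q hq (hg.2 q hq hqd))
      rw [h3, zero_mul]
    · rfl
  unfold CData.Phi
  rw [Finset.prod_eq_zero (Finset.mem_univ v) h2, zero_mul]

theorem countX (X : CData ι) (live : Idx ι → Prop)
    (hlive : ∀ v, ¬ live v → ∀ q : ℕ, q.Prime → X.B < q → coefP (X.Pat v.i q) v.A = 0)
    (κ : ℝ) (hκ : 0 < κ)
    (hcard : ∀ U : Finset (Idx ι), (∀ v ∈ U, live v) → (∀ v ∈ U, ∀ w ∈ U, ¬ Linked v w) →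
      (U.card : ℝ) ≤ κ) (δ C0 : ℝ) (hδ : 0 < δ) (hδ1 : δ ≤ 1)
    (hden : ∀ i, ∀ s : ℝ, 1 < s → s ≤ 2 → ∀ Y : ℕ,
      κ * ∑ q ∈ (range (Y + 1)).filter Nat.Prime,
        ((X.Pat i q).card : ℝ) / 2 ^ (Fintype.card ι - 1) * (q : ℝ) ^ (-s) ≤
      (1 - δ) * Real.log (1 / (s - 1)) + C0) :
    ∃ C δ' : ℝ, 0 ≤ C ∧ 0 < δ' ∧ ∀ N : ℕ, 2 ≤ N →
      ((X.Cnt N).ncard : ℝ) ≤ C * N / (Real.log N) ^ δ' := by
  classical
  obtain ⟨C1, hC1, hunl⟩ := unlX X
    {U | (∀ v ∈ U, live v) ∧ (∀ v ∈ U, ∀ w ∈ U, ¬ Linked v w)} κ hκ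
    (fun U hU => hcard U hU.1 hU.2) δ C0 hδ hδ1 hden
  obtain ⟨C2, A, hC2, hA, hlnk⟩ := lnk X
  obtain ⟨N0, hana⟩ := cnt_ana (Fintype.card (Idx ι)) (Fintype.card ι) A δ hδ hδ1 hA
  set vN := Fintype.card (Idx ι) with hvN
  set m := Fintype.card ι with hm
  -- the bound for large `N`
  have hbig : ∀ N : ℕ, N0 ≤ N → ((X.Cnt N).ncard : ℝ) ≤
      (2 ^ vN * C2 + 2 ^ vN * (C1 * 2 ^ m * 3 ^ vN)) * N * (Real.log N) ^ (-(δ / 2)) := by
    intro N hN
    obtain ⟨Z, hZ1, hZ2, hN3, ha, hb⟩ := hana N hN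
    have hN0 : N ≠ 0 := by omega
    have hNr : (0 : ℝ) < N := by
      have : (3 : ℝ) ≤ N := by exact_mod_cast hN3
      linarith
    set L := Nat.log 2 N with hL
    have hlogN : 0 < Real.log N := Real.log_pos (by
      have : (3 : ℝ) ≤ N := by exact_mod_cast hN3
      linarith)
    have hx0 : 0 ≤ (Real.log N) ^ (-(δ / 2)) := by positivity
    -- split according to `U`
    have h1 : ∑ k ∈ cntKs ι L, ∑ D ∈ vbox k, X.Phi D =
        ∑ U : Finset (Idx ι), ∑ k ∈ cntKs ι L, ∑ D ∈ (vbox k).filter (fun D => large Z D = U), X.Phi D := by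
      rw [Finset.sum_comm]
      refine Finset.sum_congr rfl fun k _ => ?_
      exact (Finset.sum_fiberwise (vbox k) (fun D => large Z D) X.Phi).symm
    have h2 : ∀ U : Finset (Idx ι),
        ∑ k ∈ cntKs ι L, ∑ D ∈ (vbox k).filter (fun D => large Z D = U), X.Phi D ≤
          (C2 + C1 * 2 ^ m * 3 ^ vN) * N * (Real.log N) ^ (-(δ / 2)) := by
      intro U
      by_cases hU : ∃ v ∈ U, ∃ w ∈ U, Linked v w
      · -- linked
        have h3 : ∀ k ∈ cntKs ι L, ∑ D ∈ (vbox k).filter (fun D => large Z D = U), X.Phi D ≤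
            C2 * N * (1 + (L : ℝ)) ^ A * (Z : ℝ) ^ (-(1 : ℝ) / 6) := by
          intro k hk
          have hk2 := cnt_mem_Ks.mp hk
          refine (le_abs_self _).trans ((hlnk k U Z hZ1 hU).trans ?_)
          have h4 : (2 : ℝ) ^ (∑ i, k i) ≤ N := by
            calc (2 : ℝ) ^ (∑ i, k i) ≤ 2 ^ L := pow_le_pow_right₀ (by norm_num) hk2
              _ ≤ N := by exact_mod_cast Nat.pow_log_le_self 2 hN0
          have h5 : (1 + ((∑ i, k i : ℕ) : ℝ)) ^ A ≤ (1 + (L : ℝ)) ^ A := by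
            refine Real.rpow_le_rpow (by positivity) ?_ hA
            have : ((∑ i, k i : ℕ) : ℝ) ≤ L := by exact_mod_cast hk2
            linarith
          gcongr
        calc ∑ k ∈ cntKs ι L, ∑ D ∈ (vbox k).filter (fun D => large Z D = U), X.Phi D
            ≤ ∑ k ∈ cntKs ι L, C2 * N * (1 + (L : ℝ)) ^ A * (Z : ℝ) ^ (-(1 : ℝ) / 6) :=
              Finset.sum_le_sum h3
          _ = (cntKs ι L).card * (C2 * N * (1 + (L : ℝ)) ^ A * (Z : ℝ) ^ (-(1 : ℝ) / 6)) := by
              rw [Finset.sum_const, nsmul_eq_mul]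
          _ ≤ ((L : ℝ) + 1) ^ m * (C2 * N * (1 + (L : ℝ)) ^ A * (Z : ℝ) ^ (-(1 : ℝ) / 6)) := by
              have h6 : ((cntKs ι L).card : ℝ) ≤ ((L : ℝ) + 1) ^ m := by
                exact_mod_cast cnt_Ks_card (ι := ι) L
              gcongr
          _ = C2 * N * (((L : ℝ) + 1) ^ m * (1 + (L : ℝ)) ^ A * (Z : ℝ) ^ (-(1 : ℝ) / 6)) := by ring
          _ ≤ C2 * N * (Real.log N) ^ (-(δ / 2)) := by gcongr
          _ ≤ (C2 + C1 * 2 ^ m * 3 ^ vN) * N * (Real.log N) ^ (-(δ / 2)) := by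
              gcongr
              have : 0 ≤ C1 * 2 ^ m * 3 ^ vN := by positivity
              linarith
      · -- unlinked
        have hU' : ∀ v ∈ U, ∀ w ∈ U, ¬ Linked v w := by
          intro v hv w hw h
          exact hU ⟨v, hv, w, hw, h⟩
        by_cases hlv : ∀ v ∈ U, live v
        swap
        · -- a variable which is not live
          push Not at hlv
          obtain ⟨v, hv, hnl⟩ := hlv
          have h3 : ∑ k ∈ cntKs ι L, ∑ D ∈ (vbox k).filter (fun D => large Z D = U), X.Phi D = 0 := by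
            refine Finset.sum_eq_zero fun k _ => Finset.sum_eq_zero fun D hD => ?_
            refine cntX_zero X hlive hZ1 hnl ?_
            rw [(Finset.mem_filter.mp hD).2]
            exact hv
          rw [h3]
          positivity
        have hY : N ≤ 2 ^ m * N := Nat.le_mul_of_pos_left _ (by positivity)
        have hYr : (N : ℝ) ≤ ((2 ^ m * N : ℕ) : ℝ) := by exact_mod_cast hY
        have h3 := hunl U ⟨hlv, hU'⟩ (2 ^ m * N) Z (by omega) hZ1 (hZ2.trans hYr)
        have h4 : (Real.log ((2 ^ m * N : ℕ) : ℝ)) ^ (-δ) ≤ (Real.log N) ^ (-δ) :=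
          Real.rpow_le_rpow_of_nonpos hlogN (Real.log_le_log hNr hYr) (by linarith)
        have hZlog : 0 ≤ Real.log (Z : ℝ) := Real.log_nonneg (by exact_mod_cast hZ1)
        calc ∑ k ∈ cntKs ι L, ∑ D ∈ (vbox k).filter (fun D => large Z D = U), X.Phi D
            ≤ ∑ k ∈ cntKs ι L, ∑ D ∈ (vbox k).filter (fun D => large Z D = U), |X.Phi D| :=
              Finset.sum_le_sum fun k _ => Finset.sum_le_sum fun D _ => le_abs_self _
          _ ≤ _ := cnt_unl X U hN0
          _ ≤ _ := h3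
          _ ≤ C1 * ((2 ^ m * N : ℕ) : ℝ) * (Real.log N) ^ (-δ) * (1 + Real.log Z) ^ vN := by
              gcongr
          _ = C1 * 2 ^ m * N * ((Real.log N) ^ (-δ) * (1 + Real.log Z) ^ vN) := by
              push_cast
              ring
          _ ≤ C1 * 2 ^ m * N * (3 ^ vN * (Real.log N) ^ (-(δ / 2))) := by gcongr
          _ = (C1 * 2 ^ m * 3 ^ vN) * N * (Real.log N) ^ (-(δ / 2)) := by ring
          _ ≤ (C2 + C1 * 2 ^ m * 3 ^ vN) * N * (Real.log N) ^ (-(δ / 2)) := by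
              gcongr
              linarith
    calc ((X.Cnt N).ncard : ℝ) ≤ ∑ k ∈ cntKs ι L, ∑ D ∈ vbox k, X.Phi D := cnt_le X N
      _ = _ := h1
      _ ≤ ∑ U : Finset (Idx ι), (C2 + C1 * 2 ^ m * 3 ^ vN) * N * (Real.log N) ^ (-(δ / 2)) :=
        Finset.sum_le_sum fun U _ => h2 U
      _ = (2 ^ vN * C2 + 2 ^ vN * (C1 * 2 ^ m * 3 ^ vN)) * N * (Real.log N) ^ (-(δ / 2)) := by
        rw [Finset.sum_const, Finset.card_univ, Fintype.card_finset, nsmul_eq_mul, ← hvN]
        push_cast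
        ring
  -- all `N`
  set C3 : ℝ := 2 ^ vN * C2 + 2 ^ vN * (C1 * 2 ^ m * 3 ^ vN) with hC3
  have hC3' : 0 ≤ C3 := by positivity
  set M : ℝ := (Real.log ((N0 + 2 : ℕ) : ℝ)) ^ (δ / 2) with hM
  have hM0 : 0 ≤ M := by
    have : 0 ≤ Real.log ((N0 + 2 : ℕ) : ℝ) := Real.log_natCast_nonneg _
    positivity
  refine ⟨C3 + 2 * M, δ / 2, by positivity, by positivity, fun N hN => ?_⟩
  have hNr : (2 : ℝ) ≤ N := by exact_mod_cast hN
  have hlogN : 0 < Real.log N := Real.log_pos (by linarith)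
  have hpos : 0 < (Real.log N) ^ (δ / 2) := by positivity
  rw [le_div_iff₀ hpos]
  rcases Nat.lt_or_ge N N0 with h | h
  · have h1 : ((X.Cnt N).ncard : ℝ) ≤ 2 * N := by
      have h2 : X.Cnt N ⊆ ↑(Finset.range (N + 1)) := by
        rintro n ⟨hn, -⟩
        rw [Finset.mem_coe, Finset.mem_range]
        omega
      have h3 := Set.ncard_le_ncard h2 (Finset.finite_toSet _)
      rw [Set.ncard_coe_finset, Finset.card_range] at h3
      have h4 : ((X.Cnt N).ncard : ℝ) ≤ N + 1 := by exact_mod_cast h3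
      linarith
    have h2 : (Real.log N) ^ (δ / 2) ≤ M := by
      rw [hM]
      refine Real.rpow_le_rpow hlogN.le (Real.log_le_log (by linarith) ?_) (by positivity)
      exact_mod_cast (by omega : N ≤ N0 + 2)
    calc ((X.Cnt N).ncard : ℝ) * (Real.log N) ^ (δ / 2) ≤ (2 * N) * M := by gcongr
      _ ≤ (C3 + 2 * M) * N := by nlinarith
  · have h1 := hbig N h
    have h2 : (Real.log N) ^ (-(δ / 2)) * (Real.log N) ^ (δ / 2) = 1 := by
      rw [← Real.rpow_add hlogN]
      simp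
    calc ((X.Cnt N).ncard : ℝ) * (Real.log N) ^ (δ / 2)
        ≤ (C3 * N * (Real.log N) ^ (-(δ / 2))) * (Real.log N) ^ (δ / 2) := by gcongr
      _ = C3 * N * ((Real.log N) ^ (-(δ / 2)) * (Real.log N) ^ (δ / 2)) := by ring
      _ = C3 * N := by rw [h2, mul_one]
      _ ≤ (C3 + 2 * M) * N := by
        gcongr
        linarith

end Pool.Agent.SCX
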