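import Pool.Agent.SCX.Iso
import Pool.Agent.SCX.Count
import Pool.Agent.SCX.CntG
import Pool.Agent.SCX.ArithT
import Pool.Agent.SCX.ArithO
import Pool.Agent.SCT.PatDen

/-!
SCX module CNTO (MP_896029_ag; plan /team-store/scx_plan.md): the number of squarefree `d` with a
section, at least three factors of odd degree.
-/

set_option linter.dupNamespace false

namespace Pool.Agent.SCX

open Polynomial Finset Pool.Agent.Helper36 Pool.Agent.Helper19.Sec Pool.Agent.SCT

variable {ι : Type} [Fintype ι] [DecidableEq ι]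

omit [DecidableEq ι] in
theorem pat_norm (F : ι → ℤ[X]) : ∀ i q, ∀ y ∈ pat F i q, y i = 1 := by
  intro i q y hy
  have h1 : y ∈ patSet F i q := (Set.toFinite (patSet F i q)).mem_toFinset.mp hy
  obtain ⟨t, -, ht⟩ := h1
  exact (ht i).1 rfl

omit [DecidableEq ι] in
theorem even_card_of_even_natDegree (F : ι → ℤ[X]) (hF : ∀ j, F j ≠ 0)
    (hev : Even (∏ j, F j).natDegree) (O : Finset ι) (hO : ∀ j, j ∈ O ↔ Odd (F j).natDegree) :
    Even O.card := by
  classical
  rw [natDegree_prod _ _ (fun j _ => hF j), even_sum_iff_even_card_odd] at hev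
  have : O = univ.filter (fun j => Odd (F j).natDegree) := by
    ext j
    rw [mem_filter, hO j]
    exact ⟨fun h => ⟨mem_univ _, h⟩, fun h => h.2⟩
  rw [this]
  exact hev

theorem cntO (F : ι → ℤ[X]) (hPeven : Even (∏ j, F j).natDegree)
    (hirr : ∀ j, Irreducible ((F j).map (Int.castRingHom ℚ))) (hdeg : ∀ j, 2 ≤ (F j).natDegree)
    (h6 : 6 ≤ (∏ j, F j).natDegree) (hsepQ : ((∏ j, F j).map (Int.castRingHom ℚ)).Separable)
    (O : Finset ι) (hO : ∀ j, j ∈ O ↔ Odd (F j).natDegree) (hO3 : 3 ≤ O.card) :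
    ∃ C δ : ℝ, 0 ≤ C ∧ 0 < δ ∧ ∀ N : ℕ, 2 ≤ N →
      ({d : ℤ | Squarefree d ∧ |d| ≤ N ∧ HasSection (∏ j, F j) d}.ncard : ℝ) ≤
        C * N / (Real.log N) ^ δ := by
  classical
  have hne : Nonempty ι := by
    obtain ⟨j, -⟩ : O.Nonempty := Finset.card_pos.1 (by omega)
    exact ⟨j⟩
  have hF0 : ∀ j, F j ≠ 0 := by
    intro j h0
    have := hdeg j
    rw [h0, natDegree_zero] at this
    omega
  have hOev : Even O.card := even_card_of_even_natDegree F hF0 hPeven O hO
  obtain ⟨B, hB, har⟩ := arithT F hPeven h6 hsepQ O hO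
  obtain ⟨δ, C0, hδ, hδ1, hden⟩ := pat_den F hirr hdeg
  refine cntG (fun i q => flipSet O i (pat F i q)) (fun i q => flipSet_norm O i _ (pat_norm F i q))
    B hB ?_ {d : ℤ | HasSection (∏ j, F j) d} ?_
  · intro X hX hXB
    refine countX X (fun v => Even (v.A ∩ O).card) ?_ (2 ^ (Fintype.card ι - 1) / 2)
      (by positivity) ?_ δ C0 hδ hδ1 ?_
    · intro v hv q _ _
      rw [hX]
      exact coefP_flipSet_eq_zero O v.i _ v.A v.2 hv
    · intro U hU hUl
      have h1 := card_unlinked_live O hOev hO3 U hU hUl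
      have h2 : 2 ^ Fintype.card ι = 2 * 2 ^ (Fintype.card ι - 1) := by
        have : 0 < Fintype.card ι := Fintype.card_pos
        obtain ⟨m, hm⟩ := Nat.exists_eq_succ_of_ne_zero this.ne'
        rw [hm, Nat.succ_eq_add_one, Nat.add_sub_cancel, pow_succ]
        ring
      rw [h2] at h1
      have h3 : (4 : ℝ) * U.card ≤ 2 * 2 ^ (Fintype.card ι - 1) := by exact_mod_cast h1
      linarith
    · intro i s hs hs2 Y
      rw [hX]
      refine le_trans ?_ (hden i s hs hs2 Y)
      rw [mul_sum]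
      refine sum_le_sum fun q _ => ?_
      have h1 : ((flipSet O i (pat F i q)).card : ℝ) ≤ 2 * (pat F i q).card := by
        exact_mod_cast card_flipSet_le O i (pat F i q)
      have h2 : (2 : ℝ) ^ (Fintype.card ι - 1) / 2 *
          (((flipSet O i (pat F i q)).card : ℝ) / 2 ^ (Fintype.card ι - 1) * (q : ℝ) ^ (-s)) =
          ((flipSet O i (pat F i q)).card : ℝ) / 2 * (q : ℝ) ^ (-s) := by
        have : (2 : ℝ) ^ (Fintype.card ι - 1) ≠ 0 := by positivity
        field_simp
      rw [h2]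
      exact mul_le_mul_of_nonneg_right (by linarith) (Real.rpow_nonneg (Nat.cast_nonneg q) _)
  · intro d hd hs
    obtain ⟨e, he, hmul, h⟩ := har d hd hs
    exact arithO O hO3 (pat F) B d hd e he hmul h

end Pool.Agent.SCX
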