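import Pool.Agent.SCX.FacO

/-!
SCX module (MP_896029_ag): two cubics.  If `f1`, `f2` are irreducible cubics over `ℚ` then some automorphism of the
algebraic closure fixes no root of `f1 * f2`.

Proof.  The group acts transitively on the three roots of each, so some `a` moves all roots of `f1` and some `b`
moves all roots of `f2`.  A fixed-point-free permutation of three points is its own fourth power, and the fourth power
of any permutation of three points is trivial or fixed-point-free.  So `a ^ 4`, `b ^ 4` or `a ^ 4 * b ^ 4` works.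
-/

set_option linter.dupNamespace false

namespace Pool.Agent.SCX

open Polynomial Finset

/-! ### permutations of three points -/

private lemma s3_cyc : ∀ x y : Equiv.Perm (Fin 3), x 0 = 1 → y 0 = 2 →
    (∀ i, x i ≠ i) ∨ (∀ i, y i ≠ i) ∨ (∀ i, (x * y) i ≠ i) := by
  decide

private lemma s3_four : ∀ x : Equiv.Perm (Fin 3), (∀ i, x i ≠ i) → (∀ i, (x ^ 4) i ≠ i) := by
  decide

private lemma s3_alt : ∀ x : Equiv.Perm (Fin 3), x ^ 4 = 1 ∨ (∀ i, (x ^ 4) i ≠ i) := by
  decide

private lemma fpf_of_trans {G : Type*} [Group G] (q : G →* Equiv.Perm (Fin 3))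
    (h1 : ∃ g, q g 0 = 1) (h2 : ∃ g, q g 0 = 2) : ∃ g, ∀ i, q g i ≠ i := by
  obtain ⟨x, hx⟩ := h1
  obtain ⟨y, hy⟩ := h2
  rcases s3_cyc _ _ hx hy with h | h | h
  · exact ⟨x, h⟩
  · exact ⟨y, h⟩
  · exact ⟨x * y, by rwa [map_mul]⟩

private lemma fpf_pair {G : Type*} [Group G] (q1 q2 : G →* Equiv.Perm (Fin 3))
    (h1 : ∃ g, ∀ i, q1 g i ≠ i) (h2 : ∃ g, ∀ i, q2 g i ≠ i) :
    ∃ g, (∀ i, q1 g i ≠ i) ∧ ∀ i, q2 g i ≠ i := by
  obtain ⟨a, ha⟩ := h1
  obtain ⟨b, hb⟩ := h2
  have ha4 := s3_four _ ha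
  have hb4 := s3_four _ hb
  rcases s3_alt (q2 a) with h | h
  · rcases s3_alt (q1 b) with h' | h'
    · refine ⟨a ^ 4 * b ^ 4, ?_, ?_⟩
      · rw [map_mul, map_pow, map_pow, h', mul_one]
        exact ha4
      · rw [map_mul, map_pow, map_pow, h, one_mul]
        exact hb4
    · exact ⟨b ^ 4, by rwa [map_pow], by rwa [map_pow]⟩
  · exact ⟨a ^ 4, by rwa [map_pow], by rwa [map_pow]⟩

/-! ### the action on the roots -/

private abbrev GQ := AlgebraicClosure ℚ ≃ₐ[ℚ] AlgebraicClosure ℚ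

private lemma normal_qbar : Normal ℚ (AlgebraicClosure ℚ) := by
  have h : Algebra.IsAlgebraic ℚ (AlgebraicClosure ℚ) := by
    have h := AlgebraicClosure.isAlgebraic ℚ
    convert! h
  exact normal_iff.2 fun x => ⟨h.isIntegral.isIntegral x, IsAlgClosed.splits _⟩

private lemma root_iff (g : ℚ[X]) (σ : GQ) (x : AlgebraicClosure ℚ) :
    σ x ∈ g.rootSet (AlgebraicClosure ℚ) ↔ x ∈ g.rootSet (AlgebraicClosure ℚ) := by
  rw [mem_rootSet, mem_rootSet]
  have h : aeval (σ x) g = σ (aeval x g) := aeval_algHom_apply σ.toAlgHom x g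
  rw [h, map_eq_zero_iff _ σ.injective]

/-- the action on the roots of `g` -/
private noncomputable def act (g : ℚ[X]) : GQ →* Equiv.Perm (g.rootSet (AlgebraicClosure ℚ)) where
  toFun σ := Equiv.Perm.subtypePerm σ.toEquiv (root_iff g σ)
  map_one' := by
    ext x
    rfl
  map_mul' σ τ := by
    ext x
    rfl

private lemma act_coe (g : ℚ[X]) (σ : GQ) (x : g.rootSet (AlgebraicClosure ℚ)) :
    ((act g σ x : g.rootSet (AlgebraicClosure ℚ)) : AlgebraicClosure ℚ) = σ x := rfl

private lemma act_trans {g : ℚ[X]} (hg : Irreducible g) (x y : g.rootSet (AlgebraicClosure ℚ)) :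
    ∃ σ, act g σ x = y := by
  have hx := (mem_rootSet.1 x.2).2
  have hy := (mem_rootSet.1 y.2).2
  have h : IsConjRoot ℚ (y : AlgebraicClosure ℚ) (x : AlgebraicClosure ℚ) := by
    show minpoly ℚ _ = minpoly ℚ _
    rw [← minpoly.eq_of_irreducible hg hx, ← minpoly.eq_of_irreducible hg hy]
  have := normal_qbar
  obtain ⟨σ, hσ⟩ := isConjRoot_iff_exists_algEquiv.1 h
  exact ⟨σ, Subtype.ext hσ⟩

/-- numbering of the roots of an irreducible cubic -/
private lemma exists_num {g : ℚ[X]} (hg : Irreducible g) (hd : g.natDegree = 3) :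
    Nonempty (g.rootSet (AlgebraicClosure ℚ) ≃ Fin 3) := by
  classical
  have h := card_rootSet_eq_natDegree (K := AlgebraicClosure ℚ) (p := g) hg.separable
    (IsAlgClosed.splits _)
  rw [hd] at h
  exact ⟨Fintype.equivFinOfCardEq h⟩

/-- **two cubics** -/
theorem cubic_pair {g1 g2 : ℚ[X]} (h1 : Irreducible g1) (h2 : Irreducible g2)
    (d1 : g1.natDegree = 3) (d2 : g2.natDegree = 3) :
    ∃ σ : AlgebraicClosure ℚ ≃ₐ[ℚ] AlgebraicClosure ℚ, ∀ x : AlgebraicClosure ℚ,
      aeval x g1 = 0 ∨ aeval x g2 = 0 → σ x ≠ x := by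
  obtain ⟨e1⟩ := exists_num h1 d1
  obtain ⟨e2⟩ := exists_num h2 d2
  have key : ∀ (g : ℚ[X]) (hg : Irreducible g) (e : g.rootSet (AlgebraicClosure ℚ) ≃ Fin 3) (i : Fin 3),
      ∃ σ, (e.permCongrHom.toMonoidHom.comp (act g)) σ 0 = i := by
    intro g hg e i
    obtain ⟨σ, hσ⟩ := act_trans hg (e.symm 0) (e.symm i)
    refine ⟨σ, ?_⟩
    show e (act g σ (e.symm 0)) = i
    rw [hσ, Equiv.apply_symm_apply]
  obtain ⟨σ, s1, s2⟩ := fpf_pair (e1.permCongrHom.toMonoidHom.comp (act g1))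
    (e2.permCongrHom.toMonoidHom.comp (act g2))
    (fpf_of_trans _ (key g1 h1 e1 1) (key g1 h1 e1 2))
    (fpf_of_trans _ (key g2 h2 e2 1) (key g2 h2 e2 2))
  have fin : ∀ (g : ℚ[X]) (hg : Irreducible g) (e : g.rootSet (AlgebraicClosure ℚ) ≃ Fin 3),
      (∀ i, (e.permCongrHom.toMonoidHom.comp (act g)) σ i ≠ i) →
      ∀ x : AlgebraicClosure ℚ, aeval x g = 0 → σ x ≠ x := by
    intro g hg e h x hx hfix
    have hm : x ∈ g.rootSet (AlgebraicClosure ℚ) := mem_rootSet.2 ⟨hg.ne_zero, hx⟩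
    refine h (e ⟨x, hm⟩) ?_
    show e (act g σ (e.symm (e ⟨x, hm⟩))) = e ⟨x, hm⟩
    rw [Equiv.symm_apply_apply]
    congr 1
    exact Subtype.ext hfix
  refine ⟨σ, fun x hx => ?_⟩
  rcases hx with hx | hx
  · exact fin g1 h1 e1 s1 x hx
  · exact fin g2 h2 e2 s2 x hx

open Classical in
theorem two_cubics (f : ℤ[X]) (hsq : Squarefree (f.map (Int.castRingHom ℚ)))
    (h6 : f.natDegree = 6) (hroot : ∀ x : ℚ, aeval x f ≠ 0)
    (h2 : Multiset.card ((UniqueFactorizationMonoid.normalizedFactors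
          (f.map (Int.castRingHom ℚ))).filter (fun g => Odd g.natDegree)) = 2) :
    ∃ σ : AlgebraicClosure ℚ ≃ₐ[ℚ] AlgebraicClosure ℚ,
      ∀ x : AlgebraicClosure ℚ, aeval x f = 0 → σ x ≠ x := by
  obtain ⟨n, F, c, hc, hf, hirr, hdeg, hnat, hsep, hcard⟩ :=
    exists_factors_odd f hsq (by rw [h6]; decide) h6.ge hroot
  rw [h2] at hcard
  obtain ⟨j1, j2, hj, hO⟩ := Finset.card_eq_two.1 hcard
  have hF0 : ∀ j, F j ≠ 0 := by
    intro j h0
    have := hdeg j
    rw [h0, natDegree_zero] at this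
    omega
  have hsum : ∑ j, (F j).natDegree = 6 := by
    rw [← natDegree_prod _ _ fun j _ => hF0 j, hnat, h6]
  have m1 : Odd (F j1).natDegree := by
    have : j1 ∈ univ.filter (fun j => Odd (F j).natDegree) := by
      rw [hO]
      exact mem_insert_self _ _
    exact (mem_filter.1 this).2
  have m2 : Odd (F j2).natDegree := by
    have : j2 ∈ univ.filter (fun j => Odd (F j).natDegree) := by
      rw [hO]
      exact mem_insert_of_mem (mem_singleton_self _)
    exact (mem_filter.1 this).2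
  have l1 := hdeg j1
  have l2 := hdeg j2
  have hpair : (F j1).natDegree + (F j2).natDegree ≤ 6 := by
    rw [← hsum, ← Finset.sum_pair (f := fun j => (F j).natDegree) hj]
    exact Finset.sum_le_sum_of_subset (subset_univ _)
  have d1 : (F j1).natDegree = 3 := by
    obtain ⟨a, ha⟩ := m1
    obtain ⟨b, hb⟩ := m2
    omega
  have d2 : (F j2).natDegree = 3 := by
    obtain ⟨a, ha⟩ := m1
    obtain ⟨b, hb⟩ := m2
    omega
  have hall : ∀ j, j = j1 ∨ j = j2 := by
    intro j
    by_contra hcon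
    rw [not_or] at hcon
    have h3 : (F j).natDegree + ((F j1).natDegree + (F j2).natDegree) ≤ 6 := by
      rw [← hsum, ← Finset.sum_pair (f := fun j => (F j).natDegree) hj,
        ← Finset.sum_insert (s := {j1, j2}) (a := j) (f := fun j => (F j).natDegree)
        (by rw [mem_insert, mem_singleton]; exact fun h => h.elim hcon.1 hcon.2)]
      exact Finset.sum_le_sum_of_subset (subset_univ _)
    have := hdeg j
    omega
  have hinj : Function.Injective (Int.castRingHom ℚ) := (Int.castRingHom ℚ).injective_int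
  obtain ⟨σ, hσ⟩ := cubic_pair (hirr j1) (hirr j2)
    (by rw [natDegree_map_eq_of_injective hinj, d1])
    (by rw [natDegree_map_eq_of_injective hinj, d2])
  refine ⟨σ, fun x hx => hσ x ?_⟩
  rw [hf, map_mul, map_prod, aeval_C, mul_eq_zero] at hx
  rcases hx with hx | hx
  · exfalso
    refine hc ?_
    have : ((c : ℤ) : AlgebraicClosure ℚ) = 0 := hx
    exact_mod_cast this
  · obtain ⟨j, -, hj0⟩ := Finset.prod_eq_zero_iff.1 hx
    have hmap : ∀ g : ℤ[X], aeval x (g.map (Int.castRingHom ℚ)) = aeval x g :=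
      fun g => aeval_map_algebraMap ℚ x g
    rw [hmap, hmap]
    rcases hall j with h | h
    · rw [h] at hj0
      exact Or.inl hj0
    · rw [h] at hj0
      exact Or.inr hj0

end Pool.Agent.SCX
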