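import Mathlib

/-!
SCX module FacO: factorisation of an integral polynomial without rational root, with the number of
irreducible factors of odd degree.

Proof.  As `Pool.Agent.SCT.exists_factors`: `f = C (content) * primPart`, the factors are the
irreducible factors of the primitive part in `ℤ[X]`.  A factor of degree one would give a rational
root.  The images of the factors over `ℚ` and the normalized factors of `f` over `ℚ` are two
factorisations into irreducibles with associated products, so they agree up to association.
-/

set_option linter.dupNamespace false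

namespace Pool.Agent.SCX

open Polynomial

private theorem card_filter_of_rel {p : ℚ[X] → Prop} [DecidablePred p]
    (hp : ∀ a b : ℚ[X], Associated a b → (p a ↔ p b)) {S T : Multiset ℚ[X]}
    (h : Multiset.Rel Associated S T) :
    (S.filter p).card = (T.filter p).card := by
  induction h with
  | zero => rfl
  | @cons a b S T hab _ ih =>
    by_cases ha : p a
    · rw [Multiset.filter_cons_of_pos _ ha, Multiset.filter_cons_of_pos _ ((hp a b hab).1 ha),
        Multiset.card_cons, Multiset.card_cons, ih]
    · rw [Multiset.filter_cons_of_neg _ ha,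
        Multiset.filter_cons_of_neg _ (fun hb => ha ((hp a b hab).2 hb)), ih]

private theorem exists_factors_odd_aux (f : ℤ[X]) (hsq : Squarefree (f.map (Int.castRingHom ℚ)))
    (h6 : 6 ≤ f.natDegree) (hroot : ∀ t : ℚ, aeval t f ≠ 0) :
    ∃ (n : ℕ) (F : Fin n → ℤ[X]) (c : ℤ), c ≠ 0 ∧ f = C c * ∏ j, F j ∧
      (∀ j, Irreducible ((F j).map (Int.castRingHom ℚ))) ∧ (∀ j, 2 ≤ (F j).natDegree) ∧
      (∏ j, F j).natDegree = f.natDegree ∧
      ((∏ j, F j).map (Int.castRingHom ℚ)).Separable ∧
      (Finset.univ.filter (fun j => Odd (F j).natDegree)).card =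
        ((UniqueFactorizationMonoid.normalizedFactors
          (f.map (Int.castRingHom ℚ))).filter (fun g => Odd g.natDegree)).card := by
  have hf0 : f ≠ 0 := by
    rintro rfl
    simp at h6
  have hinj : Function.Injective (Int.castRingHom ℚ) := (Int.castRingHom ℚ).injective_int
  have hfq0 : f.map (Int.castRingHom ℚ) ≠ 0 := (Polynomial.map_ne_zero_iff hinj).2 hf0
  have hpp0 : f.primPart ≠ 0 := f.isPrimitive_primPart.ne_zero
  obtain ⟨S, hS, hass⟩ := WfDvdMonoid.exists_factors f.primPart hpp0
  obtain ⟨u, hu⟩ := hass.symm
  obtain ⟨e, he, heu⟩ := Polynomial.isUnit_iff.1 u⁻¹.isUnit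
  have hprod : f.primPart = C e * S.prod := by
    rw [← hu, heu]
    have : (↑(u⁻¹) : ℤ[X]) * (f.primPart * ↑u) = f.primPart := by
      rw [mul_comm f.primPart, ← mul_assoc, Units.inv_mul, one_mul]
    exact this.symm
  have hSprod : ∏ j : Fin S.toList.length, S.toList[j.1] = S.prod := by
    rw [Fin.prod_univ_getElem, Multiset.prod_toList]
  have hmem : ∀ j : Fin S.toList.length, S.toList[j.1] ∈ S := fun j =>
    Multiset.mem_toList.1 (List.getElem_mem _)
  have hfc : f = C (f.content * e) * ∏ j : Fin S.toList.length, S.toList[j.1] := by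
    rw [hSprod]
    conv_lhs => rw [f.eq_C_content_mul_primPart, hprod]
    rw [C_mul, mul_assoc]
  have hc0 : f.content * e ≠ 0 := mul_ne_zero (by rwa [Ne, content_eq_zero_iff]) he.ne_zero
  have hdvd : ∀ b ∈ S, b ∣ f.primPart := fun b hb =>
    (Multiset.dvd_prod hb).trans hass.dvd
  have hirr : ∀ b ∈ S, Irreducible (b.map (Int.castRingHom ℚ)) := fun b hb =>
    (IsPrimitive.Int.irreducible_iff_irreducible_map_cast
      (isPrimitive_of_dvd f.isPrimitive_primPart (hdvd b hb))).1 (hS b hb)
  have hnd : ∀ b ∈ S, 2 ≤ b.natDegree := by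
    intro b hb
    have hir := hirr b hb
    have hdeg : (b.map (Int.castRingHom ℚ)).natDegree = b.natDegree :=
      natDegree_map_eq_of_injective hinj b
    have hpos : 0 < (b.map (Int.castRingHom ℚ)).natDegree := hir.natDegree_pos
    by_contra hlt
    have h1 : (b.map (Int.castRingHom ℚ)).natDegree = 1 := by omega
    have hd1 : (b.map (Int.castRingHom ℚ)).degree = 1 := by
      rw [degree_eq_natDegree hir.ne_zero, h1]
      rfl
    obtain ⟨t, ht⟩ := exists_root_of_degree_eq_one hd1
    refine hroot t ?_
    have hdv : b.map (Int.castRingHom ℚ) ∣ f.map (Int.castRingHom ℚ) :=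
      Polynomial.map_dvd _ ((hdvd b hb).trans f.primPart_dvd)
    have h2 : (f.map (Int.castRingHom ℚ)).IsRoot t := ht.dvd hdv
    rw [IsRoot.def, eval_map] at h2
    exact h2
  refine ⟨S.toList.length, fun j => S.toList[j.1], f.content * e, hc0, hfc,
    fun j => hirr _ (hmem j), fun j => hnd _ (hmem j), ?_, ?_, ?_⟩
  · conv_rhs => rw [hfc]
    rw [natDegree_C_mul hc0]
  · rw [PerfectField.separable_iff_squarefree]
    refine hsq.squarefree_of_dvd (Polynomial.map_dvd _ ?_)
    exact ⟨C (f.content * e), by conv_lhs => rw [hfc, mul_comm]⟩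
  · set S' : Multiset ℚ[X] := S.map (fun b => b.map (Int.castRingHom ℚ)) with hS'
    have hrel : Multiset.Rel Associated S'
        (UniqueFactorizationMonoid.normalizedFactors (f.map (Int.castRingHom ℚ))) := by
      refine UniqueFactorizationMonoid.factors_unique ?_ ?_ ?_
      · intro x hx
        obtain ⟨b, hb, rfl⟩ := Multiset.mem_map.1 hx
        exact hirr b hb
      · intro x hx
        exact UniqueFactorizationMonoid.irreducible_of_normalized_factor x hx
      · have h1 : Associated (f.map (Int.castRingHom ℚ)) S'.prod := by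
          have h2 : f.map (Int.castRingHom ℚ) =
              C (((f.content * e : ℤ)) : ℚ) * S'.prod := by
            have h3 : S'.prod = (S.prod).map (Int.castRingHom ℚ) := by
              rw [hS', ← Polynomial.coe_mapRingHom, map_multiset_prod]
            rw [h3]
            conv_lhs => rw [hfc, hSprod]
            rw [Polynomial.map_mul, map_C]
            rfl
          rw [h2]
          have hu' : IsUnit (C (((f.content * e : ℤ)) : ℚ) : ℚ[X]) := by
            rw [isUnit_C]
            exact (Int.cast_ne_zero.2 hc0).isUnit
          exact associated_unit_mul_left _ _ hu'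
        exact h1.symm.trans
          (UniqueFactorizationMonoid.prod_normalizedFactors hfq0).symm
    have hcard := card_filter_of_rel (p := fun g : ℚ[X] => Odd g.natDegree)
      (fun a b hab => by
        have : a.natDegree = b.natDegree := natDegree_eq_of_degree_eq (degree_eq_degree_of_associated hab)
        show Odd a.natDegree ↔ Odd b.natDegree
        rw [this]) hrel
    rw [← hcard, hS', Multiset.filter_map, Multiset.card_map]
    have h4 : (S.filter ((fun g : ℚ[X] => Odd g.natDegree) ∘
        fun b : ℤ[X] => b.map (Int.castRingHom ℚ))) = S.filter (fun b => Odd b.natDegree) := by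
      refine Multiset.filter_congr ?_
      intro b _
      show Odd (b.map (Int.castRingHom ℚ)).natDegree ↔ Odd b.natDegree
      rw [natDegree_map_eq_of_injective hinj]
    rw [h4]
    have h5 : S = (Finset.univ : Finset (Fin S.toList.length)).val.map
        (fun j => S.toList[j.1]) := by
      have h6 : (List.ofFn (fun j : Fin S.toList.length => S.toList[j.1])) = S.toList :=
        List.ofFn_getElem
      rw [Fin.univ_val_map, h6, Multiset.coe_toList]
    conv_rhs => rw [h5]
    rw [Multiset.filter_map, Multiset.card_map]
    rfl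

open Finset

open Classical in
theorem exists_factors_odd (f : ℤ[X]) (hsq : Squarefree (f.map (Int.castRingHom ℚ)))
    (heven : Even f.natDegree) (h6 : 6 ≤ f.natDegree) (hroot : ∀ x : ℚ, aeval x f ≠ 0) :
    ∃ (n : ℕ) (F : Fin n → ℤ[X]) (c : ℤ), c ≠ 0 ∧ f = C c * ∏ j, F j ∧
      (∀ j, Irreducible ((F j).map (Int.castRingHom ℚ))) ∧ (∀ j, 2 ≤ (F j).natDegree) ∧
      (∏ j, F j).natDegree = f.natDegree ∧ ((∏ j, F j).map (Int.castRingHom ℚ)).Separable ∧
      (univ.filter (fun j => Odd (F j).natDegree)).card =
        Multiset.card ((UniqueFactorizationMonoid.normalizedFactors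
          (f.map (Int.castRingHom ℚ))).filter (fun g => Odd g.natDegree)) :=
  exists_factors_odd_aux f hsq h6 hroot

end Pool.Agent.SCX
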