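import Pool.Agent.SCT.Defs

/-!
SCX module FLIP (MP_896029_ag; plan /team-store/scx_plan.md): sets of patterns closed under changing
the signs of all coordinates in `O`.

* `coefP_flipSet_eq_zero`: `coefP` is (up to the factor) the sum of `∏ j ∈ A, y j` over `y ∈ flipSet O i P`.
  `flp O i` is an involution of `flipSet O i P` and multiplies the product by `(-1) ^ (A ∩ O).card = -1`
  (as `i ∉ A`, the changed coordinates in `A` are exactly those in `A ∩ O`), so the sum is its own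
  negative (`Finset.sum_bij` or `Finset.sum_involution`; all terms are nonzero).
* `card_flipSet_le`: union of `P` and an image of `P`.
* `mem_flipSet`: by definition.
-/

set_option linter.dupNamespace false

namespace Pool.Agent.SCX

open Finset Pool.Agent.SCT

variable {ι : Type} [Fintype ι] [DecidableEq ι]

/-- change the signs of the coordinates in `O` except `i` -/
def flp (O : Finset ι) (i : ι) (y : ι → ℤˣ) : ι → ℤˣ :=
  fun j => if j ∈ O ∧ j ≠ i then - y j else y j

open Classical in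
/-- closure of a set of patterns under `flp O i` -/
noncomputable def flipSet (O : Finset ι) (i : ι) (P : Finset (ι → ℤˣ)) : Finset (ι → ℤˣ) :=
  P ∪ P.image (flp O i)

omit [Fintype ι] in
theorem flp_flp (O : Finset ι) (i : ι) (y : ι → ℤˣ) : flp O i (flp O i y) = y := by
  funext j
  unfold flp
  split_ifs with h
  · exact neg_neg _
  · rfl

theorem mem_flipSet {O : Finset ι} {i : ι} {P : Finset (ι → ℤˣ)} {y : ι → ℤˣ} :
    y ∈ flipSet O i P ↔ y ∈ P ∨ ∃ z ∈ P, flp O i z = y := by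
  classical
  unfold flipSet
  rw [mem_union, mem_image]

theorem flipSet_norm (O : Finset ι) (i : ι) (P : Finset (ι → ℤˣ)) (hP : ∀ y ∈ P, y i = 1) :
    ∀ y ∈ flipSet O i P, y i = 1 := by
  intro y hy
  rcases mem_flipSet.1 hy with h | ⟨z, hz, rfl⟩
  · exact hP y h
  · unfold flp
    rw [if_neg (fun h => h.2 rfl)]
    exact hP z hz

theorem card_flipSet_le (O : Finset ι) (i : ι) (P : Finset (ι → ℤˣ)) :
    (flipSet O i P).card ≤ 2 * P.card := by
  classical
  unfold flipSet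
  refine (card_union_le _ _).trans ?_
  have := card_image_le (s := P) (f := flp O i)
  omega

theorem flp_mem_flipSet (O : Finset ι) (i : ι) (P : Finset (ι → ℤˣ)) (y : ι → ℤˣ)
    (hy : y ∈ flipSet O i P) : flp O i y ∈ flipSet O i P := by
  rcases mem_flipSet.1 hy with h | ⟨z, hz, rfl⟩
  · exact mem_flipSet.2 (Or.inr ⟨y, h, rfl⟩)
  · rw [flp_flp]
    exact mem_flipSet.2 (Or.inl hz)

omit [Fintype ι] in
theorem prod_flp (O : Finset ι) (i : ι) (A : Finset ι) (hi : i ∉ A) (y : ι → ℤˣ) :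
    ∏ j ∈ A, (((flp O i y j : ℤˣ) : ℤ) : ℝ) =
      (-1) ^ (A ∩ O).card * ∏ j ∈ A, (((y j : ℤˣ) : ℤ) : ℝ) := by
  have h1 : ∀ j ∈ A, (((flp O i y j : ℤˣ) : ℤ) : ℝ) =
      (if j ∈ O then (-1 : ℝ) else 1) * (((y j : ℤˣ) : ℤ) : ℝ) := by
    intro j hj
    have hji : j ≠ i := fun h => hi (h ▸ hj)
    unfold flp
    by_cases h : j ∈ O
    · rw [if_pos ⟨h, hji⟩, if_pos h, Units.val_neg]
      push_cast
      ring
    · rw [if_neg (fun h' => h h'.1), if_neg h, one_mul]
  rw [prod_congr rfl h1, prod_mul_distrib]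
  congr 1
  rw [prod_ite, prod_const_one, mul_one, prod_const, filter_mem_eq_inter]

theorem coefP_flipSet_eq_zero (O : Finset ι) (i : ι) (P : Finset (ι → ℤˣ)) (A : Finset ι)
    (hi : i ∉ A) (hA : ¬ Even (A ∩ O).card) : coefP (flipSet O i P) A = 0 := by
  have hA' : Odd (A ∩ O).card := Nat.not_even_iff_odd.1 hA
  have h1 : ∑ y ∈ flipSet O i P, ∏ j ∈ A, (((y j : ℤˣ) : ℤ) : ℝ) =
      ∑ y ∈ flipSet O i P, ∏ j ∈ A, (((flp O i y j : ℤˣ) : ℤ) : ℝ) := by
    refine (Finset.sum_bij' (fun y _ => flp O i y) (fun y _ => flp O i y) ?_ ?_ ?_ ?_ ?_).symm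
    · exact fun y hy => flp_mem_flipSet O i P y hy
    · exact fun y hy => flp_mem_flipSet O i P y hy
    · exact fun y _ => flp_flp O i y
    · exact fun y _ => flp_flp O i y
    · exact fun y _ => rfl
  have h2 : ∑ y ∈ flipSet O i P, ∏ j ∈ A, (((flp O i y j : ℤˣ) : ℤ) : ℝ) =
      - ∑ y ∈ flipSet O i P, ∏ j ∈ A, (((y j : ℤˣ) : ℤ) : ℝ) := by
    rw [← sum_neg_distrib]
    refine sum_congr rfl fun y _ => ?_
    rw [prod_flp O i A hi y, hA'.neg_one_pow, neg_one_mul]
  unfold coefP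
  have h3 : ∑ y ∈ flipSet O i P, ∏ j ∈ A, (((y j : ℤˣ) : ℤ) : ℝ) = 0 := by linarith
  rw [h3, zero_div]

end Pool.Agent.SCX
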