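import Mathlib
import Pool.Agent.Helper19.Sec.RK

/-!
SCX part C, (1)-(4), for MP_896029_ag (helper25 for helper10): the number of primes of degree one
of the subfields of a Galois number field in terms of Frobenius elements.
-/

set_option autoImplicit false

namespace Pool.Agent.SCX

open NumberField Polynomial Pool.Agent.Helper19.Sec
open scoped Pointwise

/-- two homomorphisms into a field which agree on the invariants of a finite group are conjugate
(characteristic larger than the order of the group) -/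
theorem hom_conj {A B G F : Type*} [CommRing A] [CommRing B] [Algebra A B] [Group G] [Finite G]
    [MulSemiringAction G B] [Algebra.IsInvariant A B G] [Field F] (q : ℕ) [Fact q.Prime]
    [CharP F q] (hG : Nat.card G < q) (ψ ψ' : B →+* F)
    (h : ∀ a : A, ψ (algebraMap A B a) = ψ' (algebraMap A B a)) :
    ∃ g : G, ∀ x : B, ψ' x = ψ (g • x) := by
  classical
  have := Fintype.ofFinite G
  by_contra! hne
  let φ : G → B →+ F := fun g => ψ'.toAddMonoidHom -
    (ψ.toAddMonoidHom.comp (DistribSMul.toAddMonoidHom B g))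
  have hφ : ∀ g x, φ g x = ψ' x - ψ (g • x) := fun g x => rfl
  have hcov : ⋃ g ∈ (Finset.univ : Finset G), (0 : B) +ᵥ (((φ g).ker : AddSubgroup B) : Set B)
      = Set.univ := by
    refine Set.eq_univ_of_forall fun x => ?_
    obtain ⟨p, hp⟩ := Algebra.IsInvariant.charpoly_mem_lifts A B G x
    have hp' : p.map (algebraMap A B) = MulSemiringAction.charpoly G x := hp
    have e1 : (MulSemiringAction.charpoly G x).map ψ =
        (MulSemiringAction.charpoly G x).map ψ' := by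
      rw [← hp', Polynomial.map_map, Polynomial.map_map]
      congr 1
      ext a
      exact h a
    have e2 : ((MulSemiringAction.charpoly G x).map ψ').eval (ψ' x) = 0 := by
      rw [eval_map, eval₂_at_apply, MulSemiringAction.eval_charpoly, map_zero]
    rw [← e1, MulSemiringAction.charpoly_eq, Polynomial.map_prod, eval_prod,
      Finset.prod_eq_zero_iff] at e2
    obtain ⟨g, -, hg⟩ := e2
    simp only [zero_vadd]
    refine Set.mem_biUnion (Finset.mem_univ g) ?_
    change φ g x = 0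
    rw [hφ]
    simpa using hg
  obtain ⟨g, -, hfi, hle⟩ := AddSubgroup.exists_index_le_card_of_leftCoset_cover hcov
  rw [Finset.card_univ, ← Nat.card_eq_fintype_card] at hle
  obtain ⟨x, hx⟩ := hne g
  have hdvd : q ∣ (φ g).ker.index := by
    rw [AddSubgroup.index_ker]
    have hy : φ g x ≠ 0 := by rw [hφ]; exact sub_ne_zero.mpr hx
    let y : (φ g).range := ⟨φ g x, x, rfl⟩
    have hord : addOrderOf y = q := by
      refine addOrderOf_eq_prime ?_ ?_
      · apply Subtype.ext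
        change q • (φ g x) = 0
        rw [nsmul_eq_mul, CharP.cast_eq_zero, zero_mul]
      · intro h0
        exact hy (congrArg Subtype.val h0)
    rw [← hord]
    exact addOrderOf_dvd_natCard y
  have := Nat.le_of_dvd (Nat.pos_of_ne_zero hfi.index_ne_zero) hdvd
  omega

/-- extension of homomorphisms into algebraically closed fields along integral extensions -/
theorem hom_ext {A B F : Type*} [CommRing A] [CommRing B] [Algebra A B] [Algebra.IsIntegral A B]
    [Field F] [IsAlgClosed F] (hinj : Function.Injective (algebraMap A B)) (χ : A →+* F) :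
    ∃ ψ : B →+* F, ∀ a, ψ (algebraMap A B a) = χ a := by
  classical
  have hP : (RingHom.ker χ).IsPrime := RingHom.ker_isPrime χ
  obtain ⟨Q, -, hQp, hQ⟩ := Ideal.exists_ideal_over_prime_of_isIntegral (R := A) (S := B)
    (RingHom.ker χ) ⊥ (by
      rw [← RingHom.ker_eq_comap_bot, (RingHom.injective_iff_ker_eq_bot _).mp hinj]
      exact bot_le)
  let i : A ⧸ RingHom.ker χ →+* B ⧸ Q := Ideal.quotientMap Q (algebraMap A B) (le_of_eq hQ.symm)
  let j : A ⧸ RingHom.ker χ →+* F := RingHom.kerLift χ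
  have hi : Function.Injective i := Ideal.quotientMap_injective' (le_of_eq hQ)
  have hj : Function.Injective j := RingHom.kerLift_injective χ
  let _ : Algebra (A ⧸ RingHom.ker χ) (B ⧸ Q) := i.toAlgebra
  let _ : Algebra (A ⧸ RingHom.ker χ) F := j.toAlgebra
  have : Module.IsTorsionFree (A ⧸ RingHom.ker χ) (B ⧸ Q) :=
    Module.isTorsionFree_iff_algebraMap_injective.mpr hi
  have : Module.IsTorsionFree (A ⧸ RingHom.ker χ) F :=
    Module.isTorsionFree_iff_algebraMap_injective.mpr hj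
  have : Algebra.IsIntegral (A ⧸ RingHom.ker χ) (B ⧸ Q) := by
    refine ⟨fun b => ?_⟩
    obtain ⟨b, rfl⟩ := Ideal.Quotient.mk_surjective b
    obtain ⟨p, hp, hpb⟩ := Algebra.IsIntegral.isIntegral (R := A) b
    refine ⟨p.map (Ideal.Quotient.mk _), hp.map _, ?_⟩
    have e : i.comp (Ideal.Quotient.mk (RingHom.ker χ)) =
        (Ideal.Quotient.mk Q).comp (algebraMap A B) := by
      ext a
      rfl
    rw [eval₂_map]
    change eval₂ (i.comp (Ideal.Quotient.mk (RingHom.ker χ))) _ p = 0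
    rw [e, ← hom_eval₂, hpb, map_zero]
  let l : B ⧸ Q →ₐ[A ⧸ RingHom.ker χ] F := IsAlgClosed.lift
  refine ⟨(l : B ⧸ Q →+* F).comp (Ideal.Quotient.mk Q), fun a => ?_⟩
  have h1 := l.commutes (Ideal.Quotient.mk _ a)
  exact h1

/-- a nonzero integer of `L` does not vanish modulo large primes -/
theorem hom_ne_zero (L : Type*) [Field L] [NumberField L] (x : 𝓞 L) (hx : x ≠ 0) :
    ∃ Q0 : ℕ, ∀ (q : ℕ) [Fact q.Prime], Q0 < q →
      ∀ ψ : 𝓞 L →+* AlgebraicClosure (ZMod q), ψ x ≠ 0 := by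
  obtain ⟨r, hr, y, hy⟩ := IsAlgebraic.exists_nonzero_dvd (R := ℤ)
    (Algebra.IsIntegral.isIntegral (R := ℤ) x).isAlgebraic (mem_nonZeroDivisors_of_ne_zero hx)
  refine ⟨r.natAbs, fun q hq hqQ ψ h0 => ?_⟩
  have h1 : ψ (algebraMap ℤ (𝓞 L) r) = 0 := by rw [hy, map_mul, h0, zero_mul]
  rw [eq_intCast, map_intCast] at h1
  have h2 := (CharP.intCast_eq_zero_iff (AlgebraicClosure (ZMod q)) q r).mp h1
  have := Int.natAbs_dvd_natAbs.mpr h2
  rw [Int.natAbs_natCast] at this
  exact absurd (Nat.le_of_dvd (Int.natAbs_pos.mpr hr) this) (by omega)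

/-- the Galois group acts freely on the homomorphisms modulo large primes -/
theorem hom_free (L : Type*) [Field L] [NumberField L] :
    ∃ Q0 : ℕ, ∀ (q : ℕ) [Fact q.Prime], Q0 < q →
      ∀ (ψ : 𝓞 L →+* AlgebraicClosure (ZMod q)) (h h' : L ≃ₐ[ℚ] L),
        (∀ x : 𝓞 L, ψ (h • x) = ψ (h' • x)) → h = h' := by
  classical
  have main : ∀ g : L ≃ₐ[ℚ] L, ∃ Q0 : ℕ, ∀ (q : ℕ) [Fact q.Prime], Q0 < q →
      ∀ (ψ : 𝓞 L →+* AlgebraicClosure (ZMod q)), (∀ x : 𝓞 L, ψ (g • x) = ψ x) → g = 1 := by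
    intro g
    by_cases hg : g = 1
    · exact ⟨0, fun _ _ _ _ _ => hg⟩
    have hx : ∃ x : 𝓞 L, g • x ≠ x := by
      by_contra! hall
      apply hg
      ext y
      have hall' : ∀ x : 𝓞 L, g (x : L) = (x : L) := fun x =>
        congrArg (fun x : 𝓞 L => (x : L)) (hall x)
      obtain ⟨a, b, -, rfl⟩ := IsFractionRing.div_surjective (A := 𝓞 L) y
      rw [map_div₀, hall', hall']
      rfl
    obtain ⟨x, hx⟩ := hx
    obtain ⟨Q0, hQ0⟩ := hom_ne_zero L (g • x - x) (sub_ne_zero.mpr hx)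
    refine ⟨Q0, fun q hq hqQ ψ hψ => absurd ?_ (hQ0 q hqQ ψ)⟩
    rw [map_sub, hψ x, sub_self]
  choose Q0 hQ0 using main
  refine ⟨Finset.univ.sup Q0, fun q hq hqQ ψ h h' hh => ?_⟩
  have := hQ0 (h' * h⁻¹) q (lt_of_le_of_lt (Finset.le_sup (Finset.mem_univ _)) hqQ) ψ (fun x => by
    rw [mul_smul, ← hh, smul_inv_smul])
  exact (mul_inv_eq_one.mp this).symm

/-- invariants of a subgroup of the Galois group on the integers -/
theorem invariant_fixed (L : Type*) [Field L] [NumberField L] (H : Subgroup (L ≃ₐ[ℚ] L)) :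
    Algebra.IsInvariant (𝓞 (IntermediateField.fixedField H)) (𝓞 L) H := by
  refine ⟨fun b hb => ?_⟩
  have h1 : (b : L) ∈ IntermediateField.fixedField H := by
    rw [IntermediateField.mem_fixedField_iff]
    intro h hh
    have := congrArg (fun x : 𝓞 L => (x : L)) (hb ⟨h, hh⟩)
    exact this
  have h2 : IsIntegral ℤ (⟨(b : L), h1⟩ : IntermediateField.fixedField H) := by
    rw [← isIntegral_algebraMap_iff (B := L) (FaithfulSMul.algebraMap_injective _ _)]
    exact b.2
  refine ⟨⟨⟨(b : L), h1⟩, h2⟩, ?_⟩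
  ext
  rfl

theorem invariant_int (L : Type*) [Field L] [NumberField L] [IsGalois ℚ L] :
    Algebra.IsInvariant ℤ (𝓞 L) (L ≃ₐ[ℚ] L) := by
  refine ⟨fun b hb => ?_⟩
  have hb' : ∀ g : L ≃ₐ[ℚ] L, g (b : L) = (b : L) := fun g =>
    congrArg (fun x : 𝓞 L => (x : L)) (hb g)
  obtain ⟨r, hr⟩ := (IsGalois.mem_range_algebraMap_iff_fixed (F := ℚ) (b : L)).mpr hb'
  have h2 : IsIntegral ℤ r := by
    rw [← isIntegral_algebraMap_iff (B := L) (FaithfulSMul.algebraMap_injective _ _), hr]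
    exact b.2
  obtain ⟨m, hm⟩ := IsIntegrallyClosed.algebraMap_eq_of_integral h2
  refine ⟨m, ?_⟩
  ext
  rw [← hr, ← hm]
  simp

/-- for all large primes `q`: finitely many `ψ : 𝓞 L →+* F̄_q`, at most `[L:ℚ]` of them, the
Galois group acts freely on them, and `|H| rK (L^H) q` counts the `ψ` whose Frobenius lies in `H` -/
theorem frob_count (L : Type*) [Field L] [NumberField L] [IsGalois ℚ L] :
    ∃ Q0 : ℕ, ∀ (q : ℕ) [Fact q.Prime], Q0 < q →
      Finite (𝓞 L →+* AlgebraicClosure (ZMod q)) ∧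
      Nat.card (𝓞 L →+* AlgebraicClosure (ZMod q)) ≤ Nat.card (L ≃ₐ[ℚ] L) ∧
      (∀ (ψ : 𝓞 L →+* AlgebraicClosure (ZMod q)) (h h' : L ≃ₐ[ℚ] L),
        (∀ x : 𝓞 L, ψ (h • x) = ψ (h' • x)) → h = h') ∧
      ∀ H : Subgroup (L ≃ₐ[ℚ] L),
        Nat.card H * rK (IntermediateField.fixedField H) q =
          Nat.card {ψ : 𝓞 L →+* AlgebraicClosure (ZMod q) //
            ∃ h ∈ H, ∀ x : 𝓞 L, ψ x ^ q = ψ (h • x)} := by
  classical
  obtain ⟨Q0, hQ0⟩ := hom_free L
  refine ⟨max Q0 (Nat.card (L ≃ₐ[ℚ] L)), fun q hq hqQ => ?_⟩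
  have hq1 : Q0 < q := lt_of_le_of_lt (le_max_left _ _) hqQ
  have hq2 : Nat.card (L ≃ₐ[ℚ] L) < q := lt_of_le_of_lt (le_max_right _ _) hqQ
  have hfree := hQ0 q hq1
  have hinv := invariant_int L
  have htrans : ∀ ψ ψ' : 𝓞 L →+* AlgebraicClosure (ZMod q),
      ∃ g : L ≃ₐ[ℚ] L, ∀ x, ψ' x = ψ (g • x) := fun ψ ψ' =>
    hom_conj (A := ℤ) (G := L ≃ₐ[ℚ] L) q hq2 ψ ψ' (fun a => by simp)
  have hfin : Finite (𝓞 L →+* AlgebraicClosure (ZMod q)) ∧
      Nat.card (𝓞 L →+* AlgebraicClosure (ZMod q)) ≤ Nat.card (L ≃ₐ[ℚ] L) := by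
    rcases isEmpty_or_nonempty (𝓞 L →+* AlgebraicClosure (ZMod q)) with he | ⟨⟨ψ0⟩⟩
    · exact ⟨inferInstance, by simp⟩
    · let F : (L ≃ₐ[ℚ] L) → (𝓞 L →+* AlgebraicClosure (ZMod q)) :=
        fun g => ψ0.comp (MulSemiringAction.toRingHom (L ≃ₐ[ℚ] L) (𝓞 L) g)
      have hF : Function.Surjective F := fun ψ => by
        obtain ⟨g, hg⟩ := htrans ψ0 ψ
        exact ⟨g, by ext x; exact (hg x).symm⟩
      exact ⟨Finite.of_surjective F hF, Nat.card_le_card_of_surjective F hF⟩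
  refine ⟨hfin.1, hfin.2, hfree, fun H => ?_⟩
  have hinvH := invariant_fixed L H
  have hcard : Nat.card H < q := lt_of_le_of_lt (Subgroup.card_le_card_group H) hq2
  have htr : ∀ ψ ψ' : 𝓞 L →+* AlgebraicClosure (ZMod q),
      (∀ a : 𝓞 (IntermediateField.fixedField H),
        ψ (algebraMap (𝓞 (IntermediateField.fixedField H)) (𝓞 L) a) =
        ψ' (algebraMap (𝓞 (IntermediateField.fixedField H)) (𝓞 L) a)) →
      ∃ g : H, ∀ x, ψ' x = ψ ((g : L ≃ₐ[ℚ] L) • x) := fun ψ ψ' h =>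
    hom_conj (A := 𝓞 (IntermediateField.fixedField H)) (G := H) q hcard ψ ψ' h
  have hιinj : Function.Injective (algebraMap (ZMod q) (AlgebraicClosure (ZMod q))) :=
    (algebraMap (ZMod q) (AlgebraicClosure (ZMod q))).injective
  have hext : ∀ χ : 𝓞 (IntermediateField.fixedField H) →+* ZMod q,
      ∃ ψ : 𝓞 L →+* AlgebraicClosure (ZMod q), ∀ a,
        ψ (algebraMap (𝓞 (IntermediateField.fixedField H)) (𝓞 L) a) =
          algebraMap (ZMod q) (AlgebraicClosure (ZMod q)) (χ a) := fun χ =>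
    hom_ext (FaithfulSMul.algebraMap_injective _ _)
      ((algebraMap (ZMod q) (AlgebraicClosure (ZMod q))).comp χ)
  choose Ψ hΨ using hext
  have hfixE : ∀ (h : L ≃ₐ[ℚ] L), h ∈ H → ∀ a : 𝓞 (IntermediateField.fixedField H),
      h • (algebraMap (𝓞 (IntermediateField.fixedField H)) (𝓞 L) a) =
        algebraMap (𝓞 (IntermediateField.fixedField H)) (𝓞 L) a := by
    intro h hh a
    ext
    exact (IntermediateField.mem_fixedField_iff H _).mp (a : IntermediateField.fixedField H).2 h hh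
  -- elements fixed by Frobenius come from the prime field
  have hprime : ∀ y : AlgebraicClosure (ZMod q), y ^ q = y →
      ∃ a : ZMod q, algebraMap (ZMod q) (AlgebraicClosure (ZMod q)) a = y := by
    intro y hy
    have h1 := (Subfield.mem_bot_iff_pow_eq_self (AlgebraicClosure (ZMod q)) q).mpr hy
    have h2 : (⊥ : Subfield (AlgebraicClosure (ZMod q))) ≤
      (algebraMap (ZMod q) (AlgebraicClosure (ZMod q))).fieldRange := bot_le
    exact h2 h1
  -- Frobenius
  have hfrob : ∀ ψ : 𝓞 L →+* AlgebraicClosure (ZMod q),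
      (∀ a : 𝓞 (IntermediateField.fixedField H),
        ψ (algebraMap (𝓞 (IntermediateField.fixedField H)) (𝓞 L) a) ^ q =
        ψ (algebraMap (𝓞 (IntermediateField.fixedField H)) (𝓞 L) a)) →
      ∃ h ∈ H, ∀ x : 𝓞 L, ψ x ^ q = ψ (h • x) := by
    intro ψ hψ
    obtain ⟨g, hg⟩ := htr ψ ((frobenius (AlgebraicClosure (ZMod q)) q).comp ψ)
      (fun a => by rw [RingHom.comp_apply, frobenius_def, hψ])
    exact ⟨g, g.2, fun x => by rw [← hg x, RingHom.comp_apply, frobenius_def]⟩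
  let T : H × (𝓞 (IntermediateField.fixedField H) →+* ZMod q) →
      {ψ : 𝓞 L →+* AlgebraicClosure (ZMod q) // ∃ h ∈ H, ∀ x : 𝓞 L, ψ x ^ q = ψ (h • x)} :=
    fun p => ⟨(Ψ p.2).comp (MulSemiringAction.toRingHom (L ≃ₐ[ℚ] L) (𝓞 L) (p.1 : L ≃ₐ[ℚ] L)), by
      apply hfrob
      intro a
      change (Ψ p.2 ((p.1 : L ≃ₐ[ℚ] L) • _)) ^ q = Ψ p.2 ((p.1 : L ≃ₐ[ℚ] L) • _)
      rw [hfixE _ p.1.2, hΨ, ← map_pow, ZMod.pow_card]⟩
  have hT : ∀ p x, (T p).1 x = Ψ p.2 ((p.1 : L ≃ₐ[ℚ] L) • x) := fun p x => rfl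
  have hbij : Function.Bijective T := by
    constructor
    · rintro ⟨h, χ⟩ ⟨h', χ'⟩ hh
      have h1 : ∀ x, Ψ χ ((h : L ≃ₐ[ℚ] L) • x) = Ψ χ' ((h' : L ≃ₐ[ℚ] L) • x) := by
        intro x
        rw [← hT (h, χ) x, ← hT (h', χ') x, hh]
      have h2 : χ = χ' := by
        ext a
        apply hιinj
        have e1 := h1 (algebraMap (𝓞 (IntermediateField.fixedField H)) (𝓞 L) a)
        rw [hfixE _ h.2, hfixE _ h'.2, hΨ, hΨ] at e1
        exact e1
      subst h2
      have h3 : (h : L ≃ₐ[ℚ] L) = h' := hfree _ _ _ h1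
      rw [Subtype.ext h3]
    · rintro ⟨ψ, h, hh, hψ⟩
      have h1 : ∀ a : 𝓞 (IntermediateField.fixedField H), ∃ b : ZMod q,
          algebraMap (ZMod q) (AlgebraicClosure (ZMod q)) b =
            ψ (algebraMap (𝓞 (IntermediateField.fixedField H)) (𝓞 L) a) := fun a =>
        hprime _ (by rw [hψ, hfixE h hh])
      choose χ0 hχ0 using h1
      let χ : 𝓞 (IntermediateField.fixedField H) →+* ZMod q :=
        { toFun := χ0
          map_one' := hιinj (by rw [hχ0]; simp only [map_one])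
          map_zero' := hιinj (by rw [hχ0]; simp only [map_zero])
          map_mul' := fun a b => hιinj (by rw [map_mul, hχ0, hχ0, hχ0, map_mul, map_mul])
          map_add' := fun a b => hιinj (by rw [map_add, hχ0, hχ0, hχ0, map_add, map_add]) }
      obtain ⟨g, hg⟩ := htr (Ψ χ) ψ (fun a => by rw [hΨ]; exact hχ0 a)
      refine ⟨(g, χ), Subtype.ext (RingHom.ext fun x => ?_)⟩
      rw [hT]
      exact (hg x).symm
  rw [rK, ← Nat.card_prod]
  exact Nat.card_congr (Equiv.ofBijective T hbij)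

end Pool.Agent.SCX
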