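import Pool.Agent.SCT.Iso

/-!
SCX module ISO (MP_896029_ag; plan /team-store/scx_plan.md): pairwise unlinked sets of live indices.

`O : Finset ι` is the set of the factors of odd degree; an index `v = (i, A)` is live if `A ∩ O` has
an even number of elements.

Proof of `card_unlinked_live`: as `card_unlinked` (SCT/Iso), with one more vector.  Keep the space
`ISOV ι`, the form `ISOB ι`, `ISOf v = (single v.i 1, indicator of v.A)`.  Let `o = (indicator of O, 0)`.
`ISOB o (ISOf v) = |v.A ∩ O| = 0` in `ZMod 2` for live `v`, and `ISOB o o = 0`.  So the span `W` of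
`ISOf '' U ∪ {o}` is totally isotropic and `Nat.card W ≤ 2 ^ m` (same proof as in `card_unlinked`).
`W` contains the four translates `ISOf v`, `ISOf v + o`, `ISOf v + ISOf v0`, `ISOf v + ISOf v0 + o`
(`v ∈ U`, `v0 ∈ U` fixed), which are `4 |U|` different elements:
* the sum of the first coordinates is `1` for the first two kinds and `0` for the last two
  (the sum of the coordinates of `o` is `|O| = 0`);
* `ISOf v = ISOf w + o` is impossible: then `single v.i 1 = single w.i 1 + indicator of O`, so
  `O ⊆ {v.i, w.i}` has at most two elements; `ISOf v = ISOf w` only for `v = w` (`ISOf_inj`).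
-/

set_option linter.dupNamespace false

namespace Pool.Agent.SCX

open Finset Pool.Agent.SCT

variable {ι : Type} [Fintype ι] [DecidableEq ι]

theorem card_unlinked_live (O : Finset ι) (hO : Even O.card) (hO3 : 3 ≤ O.card)
    (U : Finset (Idx ι)) (hlive : ∀ v ∈ U, Even (v.A ∩ O).card)
    (h : ∀ v ∈ U, ∀ w ∈ U, ¬ Linked v w) : 4 * U.card ≤ 2 ^ Fintype.card ι := by
  rcases U.eq_empty_or_nonempty with h0 | ⟨v0, hv0⟩
  · rw [h0]
    simp
  set o : ISOV ι := ((fun j => if j ∈ O then 1 else 0), 0) with ho
  have hev : ∀ n : ℕ, Even n → ((n : ℕ) : ZMod 2) = 0 := fun n hn =>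
    (ZMod.natCast_eq_zero_iff n 2).2 hn.two_dvd
  have hcnt : ∀ v ∈ U, ∑ i, (if i ∈ O then (1 : ZMod 2) else 0) * (if i ∈ v.A then 1 else 0) = 0 := by
    intro v hv
    have h1 : ∀ i, (if i ∈ O then (1 : ZMod 2) else 0) * (if i ∈ v.A then 1 else 0) =
        if i ∈ v.A ∩ O then 1 else 0 := by
      intro i
      by_cases h1 : i ∈ O <;> by_cases h2 : i ∈ v.A <;> simp [h1, h2]
    rw [Finset.sum_congr rfl fun i _ => h1 i, Finset.sum_boole]
    have h2 : (Finset.univ.filter fun i => i ∈ v.A ∩ O) = v.A ∩ O := by
      ext i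
      simp
    rw [h2]
    exact hev _ (hlive v hv)
  have hov : ∀ v ∈ U, ISOB ι o (ISOf v) = 0 := by
    intro v hv
    rw [ISOB_apply, ← hcnt v hv]
    refine Finset.sum_congr rfl fun i _ => ?_
    simp only [ho, ISOf, Pi.zero_apply, mul_zero, add_zero]
  have hvo : ∀ v ∈ U, ISOB ι (ISOf v) o = 0 := by
    intro v hv
    rw [ISOB_apply, ← hcnt v hv]
    refine Finset.sum_congr rfl fun i _ => ?_
    simp only [ho, ISOf, Pi.zero_apply, mul_zero, zero_add]
  have hoo : ISOB ι o o = 0 := by
    rw [ISOB_apply]
    refine Finset.sum_eq_zero fun i _ => ?_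
    simp only [ho, Pi.zero_apply, mul_zero, add_zero]
  set S : Set (ISOV ι) := insert o (ISOf '' (U : Set (Idx ι))) with hS
  set W : Submodule (ZMod 2) (ISOV ι) := Submodule.span (ZMod 2) S with hW
  have hiso : ∀ s ∈ W, ∀ t ∈ W, ISOB ι s t = 0 := by
    have h1 : ∀ s ∈ S, W ≤ LinearMap.ker (ISOB ι s) := by
      intro s hs
      rw [hW, Submodule.span_le]
      intro t ht
      show ISOB ι s t = 0
      rcases hs with rfl | ⟨v, hv, rfl⟩ <;> rcases ht with rfl | ⟨w, hw, rfl⟩
      · exact hoo
      · exact hov w hw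
      · exact hvo v hv
      · exact ISOB_f v w (h v hv w hw)
    intro s hs t ht
    have h2 : W ≤ LinearMap.ker ((ISOB ι).flip t) := by
      rw [hW, Submodule.span_le]
      intro s' hs'
      exact h1 s' hs' ht
    exact h2 hs
  have hle : W ≤ (ISOB ι).orthogonal W := by
    intro t ht
    rw [LinearMap.BilinForm.mem_orthogonal_iff]
    intro s hs
    exact hiso s hs t ht
  have hfin := LinearMap.BilinForm.finrank_add_finrank_orthogonal' (B := ISOB ι) W
  have hk : W ⊓ LinearMap.ker (ISOB ι) = ⊥ := by
    rw [ISOker, inf_bot_eq]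
  rw [hk, finrank_bot, add_zero] at hfin
  have hV : Module.finrank (ZMod 2) (ISOV ι) = 2 * Fintype.card ι := by
    rw [Module.finrank_prod, Module.finrank_fintype_fun_eq_card]
    ring
  have hWm : Module.finrank (ZMod 2) W ≤ Fintype.card ι := by
    have h1 := Submodule.finrank_mono hle
    rw [hV] at hfin
    omega
  have hcardW : Nat.card W ≤ 2 ^ Fintype.card ι := by
    rw [Module.natCard_eq_pow_finrank (K := ZMod 2), Nat.card_zmod]
    exact Nat.pow_le_pow_right (by norm_num) hWm
  -- four times as many elements of `W`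
  have hsum : ∀ v : Idx ι, ∑ i, (ISOf v).1 i = 1 := by
    intro v
    simp only [ISOf]
    rw [Finset.sum_pi_single']
    simp
  have hsumo : ∑ i, o.1 i = 0 := by
    simp only [ho]
    rw [Finset.sum_boole]
    have h2 : (Finset.univ.filter fun i => i ∈ O) = O := by
      ext i
      simp
    rw [h2]
    exact hev _ hO
  have hno : ∀ v w : Idx ι, ISOf v ≠ ISOf w + o := by
    intro v w hvw
    have h1 : ¬ O ⊆ {v.i, w.i} := by
      intro hsub
      have h2 := Finset.card_le_card hsub
      have h3 := Finset.card_le_two (a := v.i) (b := w.i)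
      omega
    obtain ⟨j, hj, hj2⟩ := Finset.not_subset.1 h1
    rw [Finset.mem_insert, Finset.mem_singleton, not_or] at hj2
    have h2 := congrFun (congrArg Prod.fst hvw) j
    simp only [ISOf, ho, Prod.fst_add, Pi.add_apply] at h2
    rw [Pi.single_eq_of_ne hj2.1, Pi.single_eq_of_ne hj2.2, if_pos hj, zero_add] at h2
    exact zero_ne_one h2
  set φ : Idx ι × Bool × Bool → ISOV ι := fun q =>
    ISOf q.1 + (if q.2.1 then o else 0) + (if q.2.2 then ISOf v0 else 0) with hφ
  have hsφ : ∀ q, ∑ i, (φ q).1 i = 1 + if q.2.2 then 1 else 0 := by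
    rintro ⟨v, a, b⟩
    simp only [hφ, Prod.fst_add, Pi.add_apply]
    rw [Finset.sum_add_distrib, Finset.sum_add_distrib, hsum]
    cases a <;> cases b <;> simp [hsum, hsumo]
  have hinj : Function.Injective φ := by
    rintro ⟨v, a, b⟩ ⟨w, a', b'⟩ hq
    have h1 := hsφ (v, a, b)
    rw [hq, hsφ] at h1
    have h2 : b = b' := by
      cases b <;> cases b'
      · rfl
      · simp at h1
      · simp at h1
      · rfl
    subst h2
    have h3 : ISOf v + (if a then o else 0) = ISOf w + (if a' then o else 0) :=
      add_right_cancel hq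
    cases a <;> cases a'
    · simp only [Bool.false_eq_true, if_false, add_zero] at h3
      rw [ISOf_inj h3]
    · simp only [Bool.false_eq_true, if_false, if_true, add_zero] at h3
      exact absurd h3 (hno v w)
    · simp only [Bool.false_eq_true, if_false, if_true, add_zero] at h3
      exact absurd h3.symm (hno w v)
    · rw [ISOf_inj (add_right_cancel h3)]
  set T : Finset (ISOV ι) := (U ×ˢ (Finset.univ : Finset (Bool × Bool))).image φ with hT
  have hTcard : T.card = 4 * U.card := by
    rw [hT, Finset.card_image_of_injective _ hinj, Finset.card_product]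
    have h4 : (Finset.univ : Finset (Bool × Bool)).card = 4 := by decide
    rw [h4, mul_comm]
  have hTW : (T : Set (ISOV ι)) ⊆ (W : Set (ISOV ι)) := by
    intro x hx
    have hmem : ∀ v ∈ U, ISOf v ∈ W := fun v hv => Submodule.subset_span (Or.inr ⟨v, hv, rfl⟩)
    have hmo : o ∈ W := Submodule.subset_span (Or.inl rfl)
    rw [hT, Finset.mem_coe] at hx
    obtain ⟨⟨v, a, b⟩, hq, rfl⟩ := Finset.mem_image.1 hx
    have hv : v ∈ U := (Finset.mem_product.1 hq).1
    refine W.add_mem (W.add_mem (hmem v hv) ?_) ?_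
    · split_ifs
      · exact hmo
      · exact W.zero_mem
    · split_ifs
      · exact hmem v0 hv0
      · exact W.zero_mem
  have hle2 : T.card ≤ Nat.card W := by
    have h1 := Set.ncard_le_ncard hTW (Set.toFinite _)
    rw [Set.ncard_coe_finset] at h1
    exact h1
  rw [← hTcard]
  exact hle2.trans hcardW

end Pool.Agent.SCX
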