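import Mathlib
import Pool.Agent.Helper19.Sec.RK

/-!
SCX module RDA (MP_896029_ag, part C of /team-store/scx_plan.md; helper30): homomorphisms `ψ : 𝓞 L → 𝔽̄_q` for large `q`:
a finite set of nonzero elements is not in the kernel, the Frobenius of `ψ` is unique, the number of the `ψ` is bounded,
and if `f` has a root modulo `q` then the Frobenius of every `ψ` fixes a root of `f`.
-/

set_option linter.dupNamespace false
set_option linter.unusedSectionVars false

namespace Pool.Agent.SCX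

open NumberField Polynomial

/-- finitely many nonzero elements stay nonzero modulo all large primes -/
theorem psi_ne (L : Type) [Field L] [NumberField L] (T : Finset (𝓞 L)) (hT : ∀ x ∈ T, x ≠ 0) :
    ∃ Q0 : ℕ, ∀ q : ℕ, ∀ [Fact q.Prime], Q0 < q → ∀ ψ : 𝓞 L →+* AlgebraicClosure (ZMod q),
      ∀ x ∈ T, ψ x ≠ 0 := by
  classical
  have key : ∀ x : 𝓞 L, x ≠ 0 → ∃ c : ℤ, c ≠ 0 ∧ ∃ y : 𝓞 L, (c : 𝓞 L) = x * y := by
    intro x hx
    have hi : IsIntegral ℤ x := RingOfIntegers.isIntegral x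
    obtain ⟨p, hp1, hp2⟩ := hi
    -- a polynomial with nonzero constant coefficient
    have hex : ∃ n : ℕ, ∃ p : ℤ[X], p.natDegree = n ∧ p ≠ 0 ∧ aeval x p = 0 :=
      ⟨p.natDegree, p, rfl, hp1.ne_zero, by rw [aeval_def]; exact hp2⟩
    obtain ⟨p, h1, h2, h3⟩ := Nat.find_spec hex
    have h4 := fun m => Nat.find_min (m := m) hex
    refine ⟨p.coeff 0, ?_, ?_⟩
    · intro h0
      have h5 : X ∣ p := X_dvd_iff.2 h0
      obtain ⟨g, hg⟩ := h5
      have hg0 : g ≠ 0 := by
        rintro rfl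
        exact h2 (by rw [hg, mul_zero])
      have h6 : aeval x g = 0 := by
        rw [hg, map_mul, aeval_X] at h3
        exact (mul_eq_zero.1 h3).resolve_left hx
      refine h4 g.natDegree ?_ ⟨g, rfl, hg0, h6⟩
      rw [← h1, hg, natDegree_X_mul hg0]
      omega
    · have h5 := p.divX_mul_X_add
      have h6 : aeval x p = aeval x p.divX * x + ((p.coeff 0 : ℤ) : 𝓞 L) := by
        conv_lhs => rw [← h5]
        rw [map_add, map_mul, aeval_X, aeval_C]
        rfl
      rw [h3] at h6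
      refine ⟨- aeval x p.divX, ?_⟩
      linear_combination -h6
  choose! c hc0 y hcy using key
  refine ⟨∑ x ∈ T, (c x).natAbs, fun q _ hq ψ x hx h0 => ?_⟩
  have h1 : ψ ((c x : ℤ) : 𝓞 L) = 0 := by
    rw [hcy x (hT x hx), map_mul, h0, zero_mul]
  rw [map_intCast] at h1
  rw [CharP.intCast_eq_zero_iff (AlgebraicClosure (ZMod q)) q] at h1
  have h2 := Int.natAbs_dvd_natAbs.2 h1
  rw [Int.natAbs_natCast] at h2
  have h3 := Nat.le_of_dvd (Int.natAbs_pos.2 (hc0 x (hT x hx))) h2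
  have h4 : (c x).natAbs ≤ ∑ x ∈ T, (c x).natAbs :=
    Finset.single_le_sum (f := fun x => (c x).natAbs) (fun _ _ => Nat.zero_le _) hx
  omega

/-- two automorphisms that agree on the integers are equal -/
theorem eq_of_smul {L : Type} [Field L] [NumberField L] {h h' : L ≃ₐ[ℚ] L}
    (H : ∀ x : 𝓞 L, h • x = h' • x) : h = h' := by
  ext z
  obtain ⟨a, b, hb, rfl⟩ := IsFractionRing.div_surjective (A := 𝓞 L) z
  have h1 : ∀ x : 𝓞 L, h (algebraMap (𝓞 L) L x) = h' (algebraMap (𝓞 L) L x) := by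
    intro x
    have := congrArg (algebraMap (𝓞 L) L) (H x)
    exact this
  rw [map_div₀, map_div₀, h1, h1]

/-- the Frobenius of a homomorphism is unique for large `q` -/
theorem psi_uniq (L : Type) [Field L] [NumberField L] :
    ∃ Q0 : ℕ, ∀ q : ℕ, ∀ [Fact q.Prime], Q0 < q → ∀ ψ : 𝓞 L →+* AlgebraicClosure (ZMod q),
      ∀ h h' : L ≃ₐ[ℚ] L, (∀ x : 𝓞 L, ψ (h • x) = ψ (h' • x)) → h = h' := by
  classical
  have hex : ∀ p : (L ≃ₐ[ℚ] L) × (L ≃ₐ[ℚ] L), p.1 ≠ p.2 → ∃ x : 𝓞 L, p.1 • x ≠ p.2 • x := by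
    intro p hp
    by_contra hcon
    push Not at hcon
    exact hp (eq_of_smul hcon)
  choose! x hx using hex
  have _ := Fintype.ofFinite (L ≃ₐ[ℚ] L)
  let T : Finset (𝓞 L) := (Finset.univ.filter fun p : (L ≃ₐ[ℚ] L) × (L ≃ₐ[ℚ] L) => p.1 ≠ p.2).image
    fun p => p.1 • x p - p.2 • x p
  obtain ⟨Q0, hQ0⟩ := psi_ne L T (by
    intro z hz
    obtain ⟨p, hp, rfl⟩ := Finset.mem_image.1 hz
    rw [Finset.mem_filter] at hp
    exact sub_ne_zero.2 (hx p hp.2))
  refine ⟨Q0, fun q _ hq ψ h h' H => ?_⟩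
  by_contra hne
  refine hQ0 q hq ψ _ (Finset.mem_image.2 ⟨(h, h'), Finset.mem_filter.2 ⟨Finset.mem_univ _, hne⟩, rfl⟩) ?_
  rw [map_sub, sub_eq_zero]
  exact H _

/-- the number of the homomorphisms is bounded -/
theorem psi_card (L : Type) [Field L] [NumberField L] :
    ∃ N : ℕ, ∀ q : ℕ, ∀ [Fact q.Prime], Finite (𝓞 L →+* AlgebraicClosure (ZMod q)) ∧
      Nat.card (𝓞 L →+* AlgebraicClosure (ZMod q)) ≤ N := by
  classical
  obtain ⟨s, hs⟩ := (Module.Finite.fg_top : (⊤ : Submodule ℤ (𝓞 L)).FG)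
  have hint : ∀ x : 𝓞 L, ∃ p : ℤ[X], p.Monic ∧ aeval x p = 0 := by
    intro x
    obtain ⟨p, hp1, hp2⟩ := RingOfIntegers.isIntegral x
    exact ⟨p, hp1, by rw [aeval_def]; exact hp2⟩
  choose p hp1 hp2 using hint
  refine ⟨∏ x : s, (p x).natDegree, fun q _ => ?_⟩
  let F := AlgebraicClosure (ZMod q)
  let R : s → Finset F := fun x => ((p x).map (Int.castRingHom F)).roots.toFinset
  have hR : ∀ (ψ : 𝓞 L →+* F) (x : s), ψ x ∈ R x := by
    intro ψ x
    rw [Multiset.mem_toFinset, mem_roots ((hp1 x).map _).ne_zero, IsRoot.def, eval_map]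
    have h1 := congrArg ψ (hp2 x)
    rw [map_zero, aeval_def, hom_eval₂] at h1
    have h2 : ψ.comp (algebraMap ℤ (𝓞 L)) = Int.castRingHom F := Subsingleton.elim _ _
    rw [h2] at h1
    exact h1
  let g : (𝓞 L →+* F) → (∀ x : s, R x) := fun ψ x => ⟨ψ x, hR ψ x⟩
  have hg : Function.Injective g := by
    intro Ψ Ψ' h
    ext w
    have hw : w ∈ Submodule.span ℤ (s : Set (𝓞 L)) := by rw [hs]; trivial
    induction hw using Submodule.span_induction with
    | mem x hx => exact congrArg Subtype.val (congrFun h ⟨x, by simpa using hx⟩)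
    | zero => simp
    | add x y _ _ hx hy => rw [map_add, map_add, hx, hy]
    | smul c x _ hx => rw [zsmul_eq_mul, map_mul, map_mul, hx, map_intCast, map_intCast]
  refine ⟨Finite.of_injective g hg, (Nat.card_le_card_of_injective g hg).trans ?_⟩
  rw [Nat.card_pi]
  refine Finset.prod_le_prod' fun x _ => ?_
  rw [Nat.card_eq_fintype_card, Fintype.card_coe]
  refine (Multiset.toFinset_card_le _).trans ((card_roots' _).trans ?_)
  exact natDegree_map_le

/-- if `f` has a root modulo `q` then the Frobenius of every `ψ` fixes a root of `f` -/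
theorem psi_root (L : Type) [Field L] [NumberField L] (f : ℤ[X]) (hf : f ≠ 0)
    (hs : (f.map (Int.castRingHom L)).Splits) :
    ∃ Q0 : ℕ, ∀ q : ℕ, ∀ [Fact q.Prime], Q0 < q → ∀ ψ : 𝓞 L →+* AlgebraicClosure (ZMod q),
      ∀ h : L ≃ₐ[ℚ] L, (∀ x : 𝓞 L, ψ x ^ q = ψ (h • x)) →
      ∀ t : ZMod q, (f.map (Int.castRingHom (ZMod q))).eval t = 0 →
        ∃ θ : L, aeval θ f = 0 ∧ h θ = θ := by
  classical
  have hl0 : f.leadingCoeff ≠ 0 := leadingCoeff_ne_zero.2 hf
  have hlL : (f.leadingCoeff : L) ≠ 0 := Int.cast_ne_zero.2 hl0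
  have hlO : (f.leadingCoeff : 𝓞 L) ≠ 0 := Int.cast_ne_zero.2 hl0
  set l : ℤ := f.leadingCoeff with hldef
  set R : Multiset L := (f.map (Int.castRingHom L)).roots with hR
  have hinj : Function.Injective (Int.castRingHom L) := fun a b h => by
    simpa using h
  have hfL0 : f.map (Int.castRingHom L) ≠ 0 := (Polynomial.map_ne_zero_iff hinj).2 hf
  have hRm : ∀ θ ∈ R, aeval θ f = 0 := by
    intro θ hθ
    rw [hR, mem_roots hfL0, IsRoot.def, eval_map] at hθ
    rw [aeval_def]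
    exact hθ
  -- the integers `l θ`
  have hb : ∀ θ : L, ∃ b : 𝓞 L, aeval θ f = 0 → (b : L) = l * θ := by
    intro θ
    by_cases h0 : aeval θ f = 0
    · have h1 := isIntegral_leadingCoeff_smul f θ h0
      refine ⟨⟨f.leadingCoeff • θ, h1⟩, fun _ => ?_⟩
      change f.leadingCoeff • θ = l * θ
      rw [zsmul_eq_mul]
    · exact ⟨0, fun h => absurd h h0⟩
  choose b hb using hb
  have _ := Fintype.ofFinite (L ≃ₐ[ℚ] L)
  let T1 : Finset (𝓞 L) := ((Finset.univ ×ˢ R.toFinset).image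
    fun p : (L ≃ₐ[ℚ] L) × L => p.1 • b p.2 - b p.2).filter fun z => z ≠ 0
  obtain ⟨Q0, hQ0⟩ := psi_ne L (insert (l : 𝓞 L) T1) (by
    intro z hz
    rcases Finset.mem_insert.1 hz with rfl | hz
    · exact hlO
    · exact (Finset.mem_filter.1 hz).2)
  -- the identity
  have hE : C (l : 𝓞 L) * ((R.map fun θ => (X - C (b θ) : (𝓞 L)[X])).prod).comp (C (l : 𝓞 L) * X) =
      C ((l : 𝓞 L) ^ Multiset.card R) * f.map (Int.castRingHom (𝓞 L)) := by
    apply Polynomial.map_injective (algebraMap (𝓞 L) L) RingOfIntegers.coe_injective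
    have h1 : (f.map (Int.castRingHom (𝓞 L))).map (algebraMap (𝓞 L) L) =
        f.map (Int.castRingHom L) := by
      rw [Polynomial.map_map]
      congr 1
    have h2 : f.map (Int.castRingHom L) = C (l : L) * (R.map fun θ => X - C θ).prod := by
      conv_lhs => rw [hs.eq_prod_roots]
      rw [leadingCoeff_map_of_injective hinj]
      rfl
    rw [Polynomial.map_mul, Polynomial.map_mul, h1, h2, Polynomial.map_comp, map_C, map_C,
      Polynomial.map_mul, map_C, map_X, Polynomial.map_multiset_prod, Multiset.map_map,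
      multiset_prod_comp, Multiset.map_map, map_pow, map_intCast, C_pow, mul_left_comm]
    congr 1
    rw [← Multiset.prod_replicate, ← Multiset.map_const', ← Multiset.prod_map_mul]
    congr 1
    refine Multiset.map_congr rfl fun θ hθ => ?_
    have h3 : algebraMap (𝓞 L) L (b θ) = l * θ := hb θ (hRm θ hθ)
    simp only [Function.comp_apply, Polynomial.map_sub, map_X, map_C, sub_comp, X_comp, C_comp]
    rw [h3, C_mul]
    ring
  refine ⟨Q0, fun q _ hq ψ h hψ t ht => ?_⟩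
  have hψl : ψ (l : 𝓞 L) ≠ 0 := hQ0 q hq ψ _ (Finset.mem_insert_self _ _)
  let F := AlgebraicClosure (ZMod q)
  have hft : eval₂ ψ (algebraMap (ZMod q) F t) (f.map (Int.castRingHom (𝓞 L))) = 0 := by
    rw [eval₂_map]
    have h1 : ψ.comp (Int.castRingHom (𝓞 L)) = (algebraMap (ZMod q) F).comp (Int.castRingHom (ZMod q)) :=
      Subsingleton.elim _ _
    rw [h1, ← hom_eval₂, ← eval_map, ht, map_zero]
  have h1 := congrArg (eval₂ ψ (algebraMap (ZMod q) F t)) hE
  rw [eval₂_mul, eval₂_mul, hft, mul_zero, eval₂_C, eval₂_comp, eval₂_mul, eval₂_C, eval₂_X,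
    eval₂_multiset_prod, Multiset.map_map, mul_eq_zero] at h1
  have h2 := h1.resolve_left hψl
  rw [Multiset.prod_eq_zero_iff, Multiset.mem_map] at h2
  obtain ⟨θ, hθ, h3⟩ := h2
  have h4 : ψ (b θ) = algebraMap (ZMod q) F ((l : ZMod q) * t) := by
    simp only [Function.comp_apply, eval₂_sub, eval₂_X, eval₂_C, sub_eq_zero] at h3
    rw [← h3, map_mul, map_intCast, map_intCast]
  have h5 : ψ (h • b θ) = ψ (b θ) := by
    rw [← hψ, h4, ← map_pow, ZMod.pow_card]
  have h6 : h • b θ - b θ = 0 := by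
    by_contra hne
    refine hQ0 q hq ψ (h • b θ - b θ) (Finset.mem_insert_of_mem (Finset.mem_filter.2 ⟨?_, hne⟩)) ?_
    · exact Finset.mem_image.2 ⟨(h, θ), Finset.mem_product.2 ⟨Finset.mem_univ _,
        Multiset.mem_toFinset.2 hθ⟩, rfl⟩
    · rw [map_sub, h5, sub_self]
  refine ⟨θ, hRm θ hθ, ?_⟩
  have h7 : h (b θ : L) = (b θ : L) := by
    have := congrArg (fun z : 𝓞 L => (z : L)) (sub_eq_zero.1 h6)
    exact this
  rw [hb θ (hRm θ hθ), map_mul, map_intCast] at h7
  exact mul_left_cancel₀ hlL h7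

end Pool.Agent.SCX
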