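import Mathlib
import Pool.Agent.SCX.Frob

/-!
SCX module RKH (MP_896029_ag, part C (1), (3), (4) of /team-store/scx_plan.md; helper25): primes of degree one of the
fixed field of a subgroup `H`, counted by homomorphisms `𝓞 L → 𝔽̄_q` whose Frobenius is in `H`.
-/

namespace Pool.Agent.SCX

open NumberField Pool.Agent.Helper19.Sec

theorem card_mul_rK (L : Type) [Field L] [NumberField L] [IsGalois ℚ L] :
    ∃ Q0 : ℕ, ∀ q : ℕ, [Fact q.Prime] → Q0 < q → ∀ H : Subgroup (L ≃ₐ[ℚ] L),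
      Nat.card H * rK (IntermediateField.fixedField H) q =
        Nat.card {ψ : 𝓞 L →+* AlgebraicClosure (ZMod q) // ∃ h ∈ H, ∀ x : 𝓞 L, ψ x ^ q = ψ (h • x)} := by
  obtain ⟨Q0, h⟩ := frob_count L
  exact ⟨Q0, fun q _ hq H => (h q hq).2.2.2 H⟩

end Pool.Agent.SCX
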