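import Mathlib
import Pool.Agent.Helper19.Sec.Zeta
import Pool.Agent.SCX.RdA
import Pool.Agent.SCX.RkH

/-!
SCX module RDB (MP_896029_ag, part C (5), (7) of /team-store/scx_plan.md; helper30): the homomorphisms `ψ` whose
Frobenius generates a given cyclic group `⟨g⟩` of order `n` have Dirichlet density `φ(n)`.

Induction over the divisors `d` of `n` (instead of the Moebius function): the subgroup of order `d` contains exactly the
elements of `⟨g⟩` whose order divides `d`.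
-/

set_option linter.dupNamespace false

namespace Pool.Agent.SCX

open NumberField Polynomial Pool.Agent.Helper19.Sec

/-- the prime series is bounded by the rational case -/
theorem summable_primes {s : ℝ} (hs : 1 < s) : Summable fun p : Nat.Primes => ((p : ℕ) : ℝ) ^ (-s) :=
  Nat.Primes.summable_rpow.2 (by linarith)

/-- purely analytic induction: `a e q` is the number of objects of order exactly `e` -/
theorem series_ind (n : ℕ) (hn : n ≠ 0) (a : ℕ → Nat.Primes → ℝ) (r : ℕ → Nat.Primes → ℝ) (N : ℝ) (Q0 : ℕ)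
    (ha0 : ∀ e q, 0 ≤ a e q) (haN : ∀ e q, a e q ≤ N)
    (hr0 : ∀ d q, 0 ≤ r d q)
    (hr : ∀ d, d ∣ n → ∃ B : ℝ, ∀ s : ℝ, 1 < s → s ≤ 2 →
      Summable (fun p : Nat.Primes => r d p * ((p : ℕ) : ℝ) ^ (-s)) ∧
      |(∑' p : Nat.Primes, r d p * ((p : ℕ) : ℝ) ^ (-s)) - Real.log (1 / (s - 1))| ≤ B)
    (hrel : ∀ d, d ∣ n → ∀ q : Nat.Primes, Q0 < (q : ℕ) → (d : ℝ) * r d q = ∑ e ∈ d.divisors, a e q) :
    ∀ d, d ∣ n → ∃ B : ℝ, ∀ s : ℝ, 1 < s → s ≤ 2 →
      |(∑' p : Nat.Primes, (if Q0 < (p : ℕ) then a d p else 0) * ((p : ℕ) : ℝ) ^ (-s)) -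
        (d.totient : ℝ) * Real.log (1 / (s - 1))| ≤ B := by
  classical
  have hpos : ∀ (p : Nat.Primes) (s : ℝ), 0 ≤ ((p : ℕ) : ℝ) ^ (-s) := fun p s => by positivity
  -- summability of the truncated series
  have hsum : ∀ e (s : ℝ), 1 < s → Summable fun p : Nat.Primes =>
      (if Q0 < (p : ℕ) then a e p else 0) * ((p : ℕ) : ℝ) ^ (-s) := by
    intro e s hs
    refine Summable.of_nonneg_of_le (fun p => ?_) (fun p => ?_) ((summable_primes hs).mul_left N)
    · split_ifs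
      · exact mul_nonneg (ha0 e p) (hpos p s)
      · rw [zero_mul]
    · split_ifs
      · exact mul_le_mul_of_nonneg_right (haN e p) (hpos p s)
      · rw [zero_mul]
        exact mul_nonneg ((ha0 e p).trans (haN e p)) (hpos p s)
  intro d
  induction d using Nat.strong_induction_on with
  | _ d ih =>
    intro hd
    have hd0 : d ≠ 0 := fun h => hn (Nat.eq_zero_of_zero_dvd (h ▸ hd))
    obtain ⟨B, hB⟩ := hr d hd
    -- the finite part
    have hfin : ({p : Nat.Primes | (p : ℕ) ≤ Q0}).Finite := by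
      refine Set.Finite.of_finite_image (f := fun p : Nat.Primes => (p : ℕ)) ?_ (by
        intro p _ q _ h
        exact Subtype.ext h)
      exact (Set.finite_Iic Q0).subset (by rintro _ ⟨p, hp, rfl⟩; exact hp)
    have hih : ∀ e, ∃ B : ℝ, e ∈ d.properDivisors → ∀ s : ℝ, 1 < s → s ≤ 2 →
        |(∑' p : Nat.Primes, (if Q0 < (p : ℕ) then a e p else 0) * ((p : ℕ) : ℝ) ^ (-s)) -
          (e.totient : ℝ) * Real.log (1 / (s - 1))| ≤ B := by
      intro e
      by_cases he : e ∈ d.properDivisors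
      · obtain ⟨h1, h2⟩ := Nat.mem_properDivisors.1 he
        obtain ⟨B, hB⟩ := ih e h2 (h1.trans hd)
        exact ⟨B, fun _ => hB⟩
      · exact ⟨0, fun h => absurd h he⟩
    choose B' hB' using hih
    let K : ℝ := ∑ p ∈ hfin.toFinset, r d p
    refine ⟨d * B + d * K + ∑ e ∈ d.properDivisors, B' e, fun s hs hs2 => ?_⟩
    obtain ⟨h1, h2⟩ := hB s hs hs2
    -- splitting of the series of `r`
    have h3 : (∑' p : Nat.Primes, (if Q0 < (p : ℕ) then r d p else 0) * ((p : ℕ) : ℝ) ^ (-s)) =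
        (∑' p : Nat.Primes, r d p * ((p : ℕ) : ℝ) ^ (-s)) -
          ∑ p ∈ hfin.toFinset, r d p * ((p : ℕ) : ℝ) ^ (-s) := by
      have h4 : HasSum (fun p : Nat.Primes => if p ∈ hfin.toFinset then r d p * ((p : ℕ) : ℝ) ^ (-s) else 0)
          (∑ p ∈ hfin.toFinset, r d p * ((p : ℕ) : ℝ) ^ (-s)) := by
        have this : HasSum (fun p : Nat.Primes => if p ∈ hfin.toFinset then r d p * ((p : ℕ) : ℝ) ^ (-s) else 0)
            (∑ p ∈ hfin.toFinset, if p ∈ hfin.toFinset then r d p * ((p : ℕ) : ℝ) ^ (-s) else 0) :=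
          hasSum_sum_of_ne_finset_zero fun p hp => if_neg hp
        rwa [Finset.sum_congr rfl (fun p hp => if_pos hp)] at this
      have h5 := (h1.hasSum.sub h4).tsum_eq
      rw [← h5]
      refine tsum_congr fun p => ?_
      by_cases hp : Q0 < (p : ℕ)
      · have : p ∉ hfin.toFinset := by
          rw [Set.Finite.mem_toFinset]
          exact fun h => absurd hp (not_lt.2 h)
        rw [if_pos hp, if_neg this, sub_zero]
      · have : p ∈ hfin.toFinset := by
          rw [Set.Finite.mem_toFinset]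
          exact not_lt.1 hp
        rw [if_neg hp, if_pos this, zero_mul, sub_self]
    have h4 : |∑ p ∈ hfin.toFinset, r d p * ((p : ℕ) : ℝ) ^ (-s)| ≤ K := by
      rw [abs_of_nonneg (Finset.sum_nonneg fun p _ => mul_nonneg (hr0 d p) (hpos p s))]
      refine Finset.sum_le_sum fun p _ => ?_
      have : ((p : ℕ) : ℝ) ^ (-s) ≤ 1 := by
        refine Real.rpow_le_one_of_one_le_of_nonpos ?_ (by linarith)
        exact_mod_cast p.2.one_le
      calc r d p * ((p : ℕ) : ℝ) ^ (-s) ≤ r d p * 1 := mul_le_mul_of_nonneg_left this (hr0 d p)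
        _ = r d p := mul_one _
    -- the relation of the series
    have h5 : (d : ℝ) * (∑' p : Nat.Primes, (if Q0 < (p : ℕ) then r d p else 0) * ((p : ℕ) : ℝ) ^ (-s)) =
        ∑ e ∈ d.divisors, ∑' p : Nat.Primes, (if Q0 < (p : ℕ) then a e p else 0) * ((p : ℕ) : ℝ) ^ (-s) := by
      rw [← tsum_mul_left, ← Summable.tsum_finsetSum (fun e _ => hsum e s hs)]
      refine tsum_congr fun p => ?_
      rw [← Finset.sum_mul, ← mul_assoc]
      congr 1
      by_cases hp : Q0 < (p : ℕ)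
      · simp only [if_pos hp]
        exact hrel d hd p hp
      · simp only [if_neg hp, mul_zero, Finset.sum_const_zero]
    have h6 : ∑ e ∈ d.divisors, ∑' p : Nat.Primes, (if Q0 < (p : ℕ) then a e p else 0) * ((p : ℕ) : ℝ) ^ (-s) =
        (∑ e ∈ d.properDivisors, ∑' p : Nat.Primes, (if Q0 < (p : ℕ) then a e p else 0) * ((p : ℕ) : ℝ) ^ (-s)) +
        ∑' p : Nat.Primes, (if Q0 < (p : ℕ) then a d p else 0) * ((p : ℕ) : ℝ) ^ (-s) := by
      rw [← Nat.cons_self_properDivisors hd0, Finset.sum_cons, add_comm]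
    have h7 : (d : ℝ) = (∑ e ∈ d.properDivisors, (e.totient : ℝ)) + d.totient := by
      have := Nat.sum_totient d
      rw [← Nat.cons_self_properDivisors hd0, Finset.sum_cons] at this
      have h8 : ((d.totient + ∑ e ∈ d.properDivisors, e.totient : ℕ) : ℝ) = d := by exact_mod_cast this
      push_cast at h8
      linarith
    set lg := Real.log (1 / (s - 1)) with hlg
    set S : ℕ → ℝ := fun e => ∑' p : Nat.Primes, (if Q0 < (p : ℕ) then a e p else 0) * ((p : ℕ) : ℝ) ^ (-s) with hS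
    have h8 : |∑ e ∈ d.properDivisors, (S e - (e.totient : ℝ) * lg)| ≤ ∑ e ∈ d.properDivisors, B' e :=
      (Finset.abs_sum_le_sum_abs _ _).trans (Finset.sum_le_sum fun e he => hB' e he s hs hs2)
    rw [Finset.sum_sub_distrib, ← Finset.sum_mul] at h8
    have hd1 : (0 : ℝ) ≤ d := Nat.cast_nonneg d
    have h9 : S d - (d.totient : ℝ) * lg =
        d * ((∑' p : Nat.Primes, r d p * ((p : ℕ) : ℝ) ^ (-s)) - lg)
          - d * (∑ p ∈ hfin.toFinset, r d p * ((p : ℕ) : ℝ) ^ (-s))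
          - ((∑ e ∈ d.properDivisors, S e) - (∑ e ∈ d.properDivisors, (e.totient : ℝ)) * lg) := by
      have h10 : (d : ℝ) * ((∑' p : Nat.Primes, r d p * ((p : ℕ) : ℝ) ^ (-s)) -
          ∑ p ∈ hfin.toFinset, r d p * ((p : ℕ) : ℝ) ^ (-s)) = (∑ e ∈ d.properDivisors, S e) + S d := by
        rw [← h3, h5, h6]
      have h11 : (d.totient : ℝ) = d - ∑ e ∈ d.properDivisors, (e.totient : ℝ) := by linarith
      rw [h11]
      linear_combination -h10
    rw [h9]
    have h12 := mul_le_mul_of_nonneg_left (abs_le.1 h2).1 hd1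
    have h13 := mul_le_mul_of_nonneg_left (abs_le.1 h2).2 hd1
    have h14 := mul_le_mul_of_nonneg_left (abs_le.1 h4).1 hd1
    have h15 := mul_le_mul_of_nonneg_left (abs_le.1 h4).2 hd1
    have h16 := abs_le.1 h8
    rw [abs_le]
    constructor
    · linarith [h16.2]
    · linarith [h16.1]

/-- the number of the homomorphisms whose Frobenius is an element of order `e` of `⟨g⟩` -/
noncomputable def fA (L : Type) [Field L] [NumberField L] (g : L ≃ₐ[ℚ] L) (e : ℕ) (q : Nat.Primes) : ℕ :=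
  haveI : Fact (q : ℕ).Prime := ⟨q.2⟩
  Nat.card {ψ : 𝓞 L →+* AlgebraicClosure (ZMod q) // ∃ h ∈ Subgroup.zpowers g, orderOf h = e ∧
    ∀ x : 𝓞 L, ψ x ^ (q : ℕ) = ψ (h • x)}

/-- the subgroup of order `d` of a finite cyclic group -/
theorem mem_zp {G : Type*} [Group G] [Finite G] (g : G) {d : ℕ} (hd : d ∣ orderOf g) (h : G) :
    h ∈ Subgroup.zpowers (g ^ (orderOf g / d)) ↔ h ∈ Subgroup.zpowers g ∧ orderOf h ∣ d := by
  obtain ⟨m, hm⟩ := hd
  have hn : 0 < orderOf g := orderOf_pos g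
  have hd0 : 0 < d := Nat.pos_of_ne_zero fun h0 => by rw [hm, h0, zero_mul] at hn; exact lt_irrefl _ hn
  have hm0 : 0 < m := Nat.pos_of_ne_zero fun h0 => by rw [hm, h0, mul_zero] at hn; exact lt_irrefl _ hn
  have hdiv : orderOf g / d = m := by rw [hm, Nat.mul_div_cancel_left _ hd0]
  rw [hdiv]
  constructor
  · rintro ⟨k, rfl⟩
    refine ⟨⟨(m : ℤ) * k, by simp [zpow_mul]⟩, orderOf_dvd_of_pow_eq_one ?_⟩
    change ((g ^ m) ^ k) ^ d = 1
    rw [← zpow_natCast, ← zpow_mul, mul_comm k, zpow_mul, zpow_natCast, ← pow_mul, mul_comm m, ← hm,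
      pow_orderOf_eq_one, one_zpow]
  · rintro ⟨⟨j, rfl⟩, h2⟩
    have h3 : (g ^ j) ^ d = 1 := orderOf_dvd_iff_pow_eq_one.1 h2
    rw [← zpow_natCast, ← zpow_mul] at h3
    have h4 := orderOf_dvd_iff_zpow_eq_one.2 h3
    rw [hm] at h4
    have h5 : (m : ℤ) ∣ j := by
      obtain ⟨c, hc⟩ := h4
      refine ⟨c, ?_⟩
      have h6 : (d : ℤ) ≠ 0 := by exact_mod_cast hd0.ne'
      apply mul_left_cancel₀ h6
      push_cast at hc
      linear_combination hc
    obtain ⟨k, rfl⟩ := h5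
    exact ⟨k, by simp [zpow_mul]⟩

theorem card_zp {G : Type*} [Group G] [Finite G] (g : G) {d : ℕ} (hd : d ∣ orderOf g) :
    Nat.card (Subgroup.zpowers (g ^ (orderOf g / d))) = d := by
  have hn : 0 < orderOf g := orderOf_pos g
  rw [Nat.card_zpowers]
  obtain ⟨m, hm⟩ := hd
  have hd0 : 0 < d := Nat.pos_of_ne_zero fun h0 => by rw [hm, h0, zero_mul] at hn; exact lt_irrefl _ hn
  have hm0 : 0 < m := Nat.pos_of_ne_zero fun h0 => by rw [hm, h0, mul_zero] at hn; exact lt_irrefl _ hn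
  have hdiv : orderOf g / d = m := by rw [hm, Nat.mul_div_cancel_left _ hd0]
  rw [hdiv, orderOf_pow_of_dvd hm0.ne' (by rw [hm]; exact dvd_mul_left _ _), hm,
    Nat.mul_div_cancel _ hm0]

/-- the relation between the degree one primes of the fixed fields and `fA` -/
theorem fA_rel (L : Type) [Field L] [NumberField L] [IsGalois ℚ L] (g : L ≃ₐ[ℚ] L) :
    ∃ Q0 : ℕ, ∀ d, d ∣ orderOf g → ∀ q : Nat.Primes, Q0 < (q : ℕ) →
      d * rK (IntermediateField.fixedField (Subgroup.zpowers (g ^ (orderOf g / d)))) q =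
        ∑ e ∈ d.divisors, fA L g e q := by
  classical
  obtain ⟨Q1, h1⟩ := card_mul_rK L
  obtain ⟨Q2, h2⟩ := psi_uniq L
  obtain ⟨N, hN⟩ := psi_card L
  refine ⟨Q1 + Q2, fun d hd q hq => ?_⟩
  have hF : Fact (q : ℕ).Prime := ⟨q.2⟩
  have h3 := h1 q (by omega) (Subgroup.zpowers (g ^ (orderOf g / d)))
  rw [card_zp g hd] at h3
  rw [h3]
  have _ := (hN q).1
  have _ := Fintype.ofFinite (𝓞 L →+* AlgebraicClosure (ZMod q))
  have hd0 : d ≠ 0 := fun h => (orderOf_pos g).ne' (Nat.eq_zero_of_zero_dvd (h ▸ hd))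
  have h4 : ∀ e, fA L g e q = (Finset.univ.filter fun ψ : 𝓞 L →+* AlgebraicClosure (ZMod q) =>
      ∃ h ∈ Subgroup.zpowers g, orderOf h = e ∧ ∀ x : 𝓞 L, ψ x ^ (q : ℕ) = ψ (h • x)).card := by
    intro e
    unfold fA
    rw [Nat.card_eq_fintype_card, Fintype.card_subtype]
  rw [Nat.card_eq_fintype_card, Fintype.card_subtype, Finset.sum_congr rfl (fun e _ => h4 e),
    ← Finset.card_biUnion]
  · congr 1
    ext ψ
    simp only [Finset.mem_filter, Finset.mem_univ, true_and, Finset.mem_biUnion]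
    constructor
    · rintro ⟨h, h5, h6⟩
      obtain ⟨h7, h8⟩ := (mem_zp g hd h).1 h5
      exact ⟨orderOf h, Nat.mem_divisors.2 ⟨h8, hd0⟩, h, h7, rfl, h6⟩
    · rintro ⟨e, he, h, h5, h6, h7⟩
      exact ⟨h, (mem_zp g hd h).2 ⟨h5, h6 ▸ (Nat.mem_divisors.1 he).1⟩, h7⟩
  · intro e _ e' _ hne
    refine Finset.disjoint_left.2 ?_
    intro ψ h5 h6
    obtain ⟨h, -, h7, h8⟩ := (Finset.mem_filter.1 h5).2
    obtain ⟨h', -, h7', h8'⟩ := (Finset.mem_filter.1 h6).2
    have h9 : h = h' := h2 q (by omega) ψ h h' fun x => by rw [← h8, ← h8']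
    rw [h9] at h7
    exact hne (h7.symm.trans h7')

theorem fA_le (L : Type) [Field L] [NumberField L] : ∃ N : ℕ, ∀ (g : L ≃ₐ[ℚ] L) (e : ℕ) (q : Nat.Primes),
    fA L g e q ≤ N := by
  obtain ⟨N, hN⟩ := psi_card L
  refine ⟨N, fun g e q => ?_⟩
  have hF : Fact (q : ℕ).Prime := ⟨q.2⟩
  have _ := (hN q).1
  exact (Nat.card_le_card_of_injective _ Subtype.val_injective).trans (hN q).2

/-- density of the homomorphisms whose Frobenius generates `⟨g⟩` -/
theorem fA_density (L : Type) [Field L] [NumberField L] [IsGalois ℚ L] (g : L ≃ₐ[ℚ] L) :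
    ∃ Q0 : ℕ, ∃ B : ℝ, ∀ s : ℝ, 1 < s → s ≤ 2 →
      |(∑' p : Nat.Primes, (if Q0 < (p : ℕ) then (fA L g (orderOf g) p : ℝ) else 0) *
        ((p : ℕ) : ℝ) ^ (-s)) - ((orderOf g).totient : ℝ) * Real.log (1 / (s - 1))| ≤ B := by
  obtain ⟨Q0, hQ0⟩ := fA_rel L g
  obtain ⟨N, hN⟩ := fA_le L
  refine ⟨Q0, ?_⟩
  exact series_ind (orderOf g) (orderOf_pos g).ne' (fun e q => (fA L g e q : ℝ))
    (fun d q => (rK (IntermediateField.fixedField (Subgroup.zpowers (g ^ (orderOf g / d)))) q : ℝ)) N Q0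
    (fun e q => Nat.cast_nonneg _) (fun e q => Nat.cast_le.2 (hN g e q)) (fun d q => Nat.cast_nonneg _)
    (fun d _ => rK_sum _) (fun d hd q hq => by
      have := hQ0 d hd q hq
      exact_mod_cast this) (orderOf g) (dvd_refl _)

end Pool.Agent.SCX
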