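import Pool.Agent.Helper19.Sec.Zeta
import Pool.Agent.SCX.RdB

/-!
SCX module ROOTDEN (MP_896029_ag, part C of /team-store/scx_plan.md; helper30, with helper25): the density of the primes
modulo which `f` has a root is smaller than one if some automorphism fixes no root of `f`.
-/

set_option linter.dupNamespace false

namespace Pool.Agent.SCX

open Polynomial Finset NumberField Pool.Agent.Helper19.Sec

/-- the primes: upper bound by the field of rational numbers -/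
theorem primes_log : ∃ B : ℝ, ∀ s : ℝ, 1 < s → s ≤ 2 →
    ∑' p : Nat.Primes, ((p : ℕ) : ℝ) ^ (-s) ≤ Real.log (1 / (s - 1)) + B := by
  obtain ⟨B, hB⟩ := rK_sum ℚ
  refine ⟨B, fun s hs hs2 => ?_⟩
  obtain ⟨h1, h2⟩ := hB s hs hs2
  have h3 : ∀ p : Nat.Primes, rK ℚ p = 1 := by
    intro p
    have hF : Fact (p : ℕ).Prime := ⟨p.2⟩
    unfold rK
    have e : (𝓞 ℚ →+* ZMod p) ≃ (ℤ →+* ZMod p) :=
      { toFun := fun φ => φ.comp (Rat.ringOfIntegersEquiv.symm : ℤ →+* 𝓞 ℚ)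
        invFun := fun φ => φ.comp (Rat.ringOfIntegersEquiv : 𝓞 ℚ →+* ℤ)
        left_inv := fun φ => RingHom.ext fun x => congrArg φ (Rat.ringOfIntegersEquiv.symm_apply_apply x)
        right_inv := fun φ => Subsingleton.elim _ _ }
    rw [Nat.card_congr e]
    have _ : Nonempty (ℤ →+* ZMod p) := ⟨Int.castRingHom _⟩
    exact Nat.card_unique
  have h4 : (∑' p : Nat.Primes, (rK ℚ p : ℝ) * ((p : ℕ) : ℝ) ^ (-s)) = ∑' p : Nat.Primes, ((p : ℕ) : ℝ) ^ (-s) := by
    refine tsum_congr fun p => ?_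
    rw [h3 p, Nat.cast_one, one_mul]
  rw [h4] at h2
  linarith [(abs_le.1 h2).2]

/-- the case of a splitting field `L` -/
theorem root_den_aux (L : Type) [Field L] [NumberField L] [IsGalois ℚ L] (f : ℤ[X]) (hf : f ≠ 0)
    (hs : (f.map (Int.castRingHom L)).Splits) (g : L ≃ₐ[ℚ] L)
    (hg : ∀ x : L, aeval x f = 0 → g x ≠ x) :
    ∃ Q0 : ℕ, ∀ q : Nat.Primes, Q0 < (q : ℕ) → (∃ t : ZMod q, (f.map (Int.castRingHom (ZMod q))).eval t = 0) →
      fA L g (orderOf g) q = 0 := by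
  obtain ⟨Q0, hQ0⟩ := psi_root L f hf hs
  obtain ⟨N, hN⟩ := psi_card L
  refine ⟨Q0, fun q hq ht => ?_⟩
  have hF : Fact (q : ℕ).Prime := ⟨q.2⟩
  unfold fA
  rw [Nat.card_eq_zero]
  left
  rw [isEmpty_subtype]
  rintro ψ ⟨h, h1, h2, h3⟩
  obtain ⟨t, ht⟩ := ht
  obtain ⟨θ, h4, h5⟩ := hQ0 q hq ψ h h3 t ht
  have h6 : g ∈ Subgroup.zpowers h := by
    have h7 : Subgroup.zpowers h = Subgroup.zpowers g := by
      apply Subgroup.eq_of_le_of_card_ge (Subgroup.zpowers_le.2 h1)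
      rw [Nat.card_zpowers, Nat.card_zpowers, h2]
    rw [h7]
    exact Subgroup.mem_zpowers g
  obtain ⟨k, rfl⟩ := h6
  refine hg θ h4 ?_
  have h8 : h ∈ MulAction.stabilizer (L ≃ₐ[ℚ] L) θ := MulAction.mem_stabilizer_iff.2 h5
  exact MulAction.mem_stabilizer_iff.1 (Subgroup.zpow_mem _ h8 k)

open Classical in
theorem root_den (f : ℤ[X]) (hf : f ≠ 0) (σ : AlgebraicClosure ℚ ≃ₐ[ℚ] AlgebraicClosure ℚ)
    (hσ : ∀ x : AlgebraicClosure ℚ, aeval x f = 0 → σ x ≠ x) :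
    ∃ δ C0 : ℝ, 0 < δ ∧ δ ≤ 1 ∧ ∀ s : ℝ, 1 < s → s ≤ 2 → ∀ Y : ℕ,
      ∑ q ∈ (range (Y + 1)).filter (fun q => q.Prime ∧ ∃ t : ZMod q,
        (f.map (Int.castRingHom (ZMod q))).eval t = 0), (q : ℝ) ^ (-s) ≤
        (1 - δ) * Real.log (1 / (s - 1)) + C0 := by
  classical
  -- the splitting field in the algebraic closure
  let fQ : ℚ[X] := f.map (Int.castRingHom ℚ)
  let L : IntermediateField ℚ (AlgebraicClosure ℚ) := IntermediateField.adjoin ℚ (fQ.rootSet (AlgebraicClosure ℚ))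
  have hspl : (fQ.map (algebraMap ℚ (AlgebraicClosure ℚ))).Splits := IsAlgClosed.splits _
  have hSF : IsSplittingField ℚ L fQ := IntermediateField.adjoin_rootSet_isSplittingField hspl
  have hfd : FiniteDimensional ℚ L := IsSplittingField.finiteDimensional L fQ
  have hno : Normal ℚ L := Normal.of_isSplittingField fQ
  have hnf : NumberField L := ⟨⟩
  have hgal : IsGalois ℚ L := ⟨⟩
  let g : L ≃ₐ[ℚ] L := σ.restrictNormal L
  have hg : ∀ x : L, aeval x f = 0 → g x ≠ x := by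
    intro x hx h
    have h1 := AlgEquiv.restrictNormal_commutes σ L x
    have h2 : aeval (algebraMap L (AlgebraicClosure ℚ) x) f = 0 := by
      rw [aeval_algebraMap_apply, hx, map_zero]
    refine hσ _ h2 ?_
    rw [← h1]
    exact congrArg _ h
  have hsL : (f.map (Int.castRingHom L)).Splits := by
    have h1 := hSF.splits
    have h2 : fQ.map (algebraMap ℚ L) = f.map (Int.castRingHom L) := by
      rw [Polynomial.map_map]
      congr 1
    rwa [h2] at h1
  obtain ⟨Q1, hQ1⟩ := root_den_aux L f hf hsL g hg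
  obtain ⟨Q0, B, hB⟩ := fA_density L g
  obtain ⟨N, hN⟩ := fA_le L
  obtain ⟨B', hB'⟩ := primes_log
  set t : ℕ := (orderOf g).totient with ht
  have ht0 : 0 < t := Nat.totient_pos.2 (orderOf_pos g)
  set M : ℝ := (N : ℝ) + t with hM
  have ht0' : (0 : ℝ) < t := Nat.cast_pos.2 ht0
  have hM0 : 0 < M := by positivity
  have hMt : (t : ℝ) ≤ M := by rw [hM]; linarith [(Nat.cast_nonneg N : (0 : ℝ) ≤ N)]
  refine ⟨t / M, B' + B / M + (Q0 + Q1 + 1 : ℕ), by positivity, (div_le_one hM0).2 hMt, fun s hs hs2 Y => ?_⟩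
  set a : Nat.Primes → ℝ := fun p => if Q0 < (p : ℕ) then (fA L g (orderOf g) p : ℝ) else 0 with ha
  have ha0 : ∀ p, 0 ≤ a p := fun p => by
    simp only [ha]; split_ifs
    · exact Nat.cast_nonneg _
    · exact le_refl _
  have haN : ∀ p, a p ≤ N := fun p => by
    simp only [ha]; split_ifs
    · exact Nat.cast_le.2 (hN g _ p)
    · exact Nat.cast_nonneg _
  have hpos : ∀ (p : ℕ), 0 ≤ (p : ℝ) ^ (-s) := fun p => by positivity
  have hs1 := summable_primes hs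
  have hs3 : Summable fun p : Nat.Primes => a p * ((p : ℕ) : ℝ) ^ (-s) :=
    Summable.of_nonneg_of_le (fun p => mul_nonneg (ha0 p) (hpos p))
      (fun p => mul_le_mul_of_nonneg_right (haN p) (hpos p)) (hs1.mul_left (N : ℝ))
  have hs4 : Summable fun p : Nat.Primes => (1 - a p / M) * ((p : ℕ) : ℝ) ^ (-s) := by
    have := hs1.sub (hs3.mul_left M⁻¹)
    refine this.congr fun p => ?_
    ring
  have hnn : ∀ p : Nat.Primes, 0 ≤ (1 - a p / M) * ((p : ℕ) : ℝ) ^ (-s) := by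
    intro p
    refine mul_nonneg ?_ (hpos p)
    have : a p / M ≤ 1 := (div_le_one hM0).2 ((haN p).trans (by rw [hM]; linarith))
    linarith
  have htot : ∑' p : Nat.Primes, (1 - a p / M) * ((p : ℕ) : ℝ) ^ (-s) ≤
      (1 - t / M) * Real.log (1 / (s - 1)) + (B' + B / M) := by
    have h1 : ∑' p : Nat.Primes, (1 - a p / M) * ((p : ℕ) : ℝ) ^ (-s) =
        (∑' p : Nat.Primes, ((p : ℕ) : ℝ) ^ (-s)) - M⁻¹ * ∑' p : Nat.Primes, a p * ((p : ℕ) : ℝ) ^ (-s) := by
      rw [← tsum_mul_left, ← hs1.tsum_sub (hs3.mul_left M⁻¹)]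
      refine tsum_congr fun p => ?_
      ring
    have h2 := hB' s hs hs2
    have h3 := (abs_le.1 (hB s hs hs2)).1
    have h4 : M⁻¹ * (t * Real.log (1 / (s - 1)) - B) ≤ M⁻¹ * ∑' p : Nat.Primes, a p * ((p : ℕ) : ℝ) ^ (-s) :=
      mul_le_mul_of_nonneg_left (by linarith) (inv_nonneg.2 hM0.le)
    have h5 : M⁻¹ * (t * Real.log (1 / (s - 1)) - B) = t / M * Real.log (1 / (s - 1)) - B / M := by
      field_simp
    rw [h5] at h4
    rw [h1]
    linarith
  -- the finite sum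
  set S := (range (Y + 1)).filter (fun q => q.Prime ∧ ∃ t : ZMod q,
        (f.map (Int.castRingHom (ZMod q))).eval t = 0) with hS
  have h6 : ∑ q ∈ S, (q : ℝ) ^ (-s) ≤ ∑ q ∈ S.filter (fun q => q ≤ Q0 + Q1), (1 : ℝ) +
      ∑ q ∈ S.filter (fun q => ¬ q ≤ Q0 + Q1), (q : ℝ) ^ (-s) := by
    rw [← Finset.sum_filter_add_sum_filter_not S (fun q => q ≤ Q0 + Q1)]
    gcongr with q hq
    have h7 : q.Prime := (Finset.mem_filter.1 (Finset.mem_filter.1 hq).1).2.1
    exact Real.rpow_le_one_of_one_le_of_nonpos (by exact_mod_cast h7.one_le) (by linarith)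
  have h7 : ∑ q ∈ S.filter (fun q => q ≤ Q0 + Q1), (1 : ℝ) ≤ ((Q0 + Q1 + 1 : ℕ) : ℝ) := by
    rw [Finset.sum_const, nsmul_eq_mul, mul_one, Nat.cast_le]
    refine (Finset.card_le_card (t := range (Q0 + Q1 + 1)) ?_).trans (by rw [card_range])
    intro q hq
    rw [Finset.mem_filter] at hq
    rw [Finset.mem_range]
    omega
  have h8 : ∑ q ∈ S.filter (fun q => ¬ q ≤ Q0 + Q1), (q : ℝ) ^ (-s) ≤
      ∑' p : Nat.Primes, (1 - a p / M) * ((p : ℕ) : ℝ) ^ (-s) := by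
    let T : Finset Nat.Primes := (S.filter (fun q => ¬ q ≤ Q0 + Q1)).attach.map
      ⟨fun q => ⟨q.1, (Finset.mem_filter.1 (Finset.mem_filter.1 q.2).1).2.1⟩, fun x y h => by
        have := congrArg Subtype.val h
        exact Subtype.ext this⟩
    have h9 : ∑ q ∈ S.filter (fun q => ¬ q ≤ Q0 + Q1), (q : ℝ) ^ (-s) =
        ∑ p ∈ T, (1 - a p / M) * ((p : ℕ) : ℝ) ^ (-s) := by
      rw [Finset.sum_map, ← Finset.sum_attach]
      refine Finset.sum_congr rfl fun q _ => ?_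
      obtain ⟨h10, h11⟩ := Finset.mem_filter.1 q.2
      obtain ⟨h12, h13, h14⟩ := Finset.mem_filter.1 h10
      have h15 : a ⟨q.1, h13⟩ = 0 := by
        simp only [ha]
        have h16 := hQ1 ⟨q.1, h13⟩ (by change Q1 < (q : ℕ); omega) h14
        rw [h16, Nat.cast_zero, ite_self]
      simp only [Function.Embedding.coeFn_mk]
      rw [h15, zero_div, sub_zero, one_mul]
    rw [h9]
    exact hs4.sum_le_tsum T fun p _ => hnn p
  calc ∑ q ∈ S, (q : ℝ) ^ (-s) ≤ _ := h6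
    _ ≤ ((Q0 + Q1 + 1 : ℕ) : ℝ) + ((1 - t / M) * Real.log (1 / (s - 1)) + (B' + B / M)) := by
        linarith
    _ = _ := by ring

end Pool.Agent.SCX
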