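import Pool.Agent.SCX.CntO
import Pool.Agent.SCX.CntA
import Pool.Agent.SCX.RootDen
import Pool.Agent.SCX.FacO
import Pool.Agent.SCX.Cub
import Pool.Agent.SCT.Main

/-!
SCX module MAIN (MP_896029_ag): almost all quadratic twists of a hyperelliptic curve without rational
Weierstrass point have no section, unless there are exactly two factors of odd degree and the
polynomial has a root modulo almost all primes.
-/

set_option linter.dupNamespace false

namespace Pool.Agent.SCX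

open Polynomial Finset Pool.Agent.Helper36 Pool.Agent.Helper19.Sec Pool.Agent.SCT

/-- from the squarefree twists of `g` to all twists of `f = c * g` -/
theorem all_twists (f g : ℤ[X]) (c : ℤ) (hc : c ≠ 0) (hf : f = C c * g) (h6 : 6 ≤ f.natDegree)
    (hcnt : ∃ C δ : ℝ, 0 ≤ C ∧ 0 < δ ∧ ∀ N : ℕ, 2 ≤ N →
      ({d : ℤ | Squarefree d ∧ |d| ≤ N ∧ HasSection g d}.ncard : ℝ) ≤ C * N / (Real.log N) ^ δ) :
    ∃ C δ : ℝ, 0 < δ ∧ ∀ N : ℕ, 2 ≤ N →
      (Nat.card {d : ℤ // |d| ≤ N ∧ HasSection f d} : ℝ) ≤ C * N / (Real.log N) ^ δ := by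
  obtain ⟨C, δ, hC, hδ, hcnt⟩ := hcnt
  obtain ⟨C', hC', hall⟩ := sqfree_to_all {d : ℤ | Squarefree d ∧ HasSection g d} C δ hC hδ
    (by
      intro N hN
      have h1 : {d : ℤ | d ∈ {d : ℤ | Squarefree d ∧ HasSection g d} ∧ |d| ≤ N} =
          {d : ℤ | Squarefree d ∧ |d| ≤ N ∧ HasSection g d} := by
        ext d
        simp only [Set.mem_ofPred_eq]
        tauto
      rw [h1]
      exact hcnt N hN) c hc
  refine ⟨C', δ, hδ, fun N hN => ?_⟩
  refine le_trans ?_ (hall N hN)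
  have hsub : {d : ℤ | |d| ≤ N ∧ HasSection f d} ⊆ {d : ℤ | d ≠ 0 ∧ |d| ≤ N ∧
      ∃ d0 ∈ {d : ℤ | Squarefree d ∧ HasSection g d}, ∃ t : ℤ, c * d = d0 * t ^ 2} := by
    rintro d ⟨hd, hs⟩
    have hd0 : d ≠ 0 := by
      rintro rfl
      obtain ⟨K, Ω, i1, i2, i3, i4, i5, i6, i7, x, y, hx, hxy, hn⟩ := hs
      rw [Int.cast_zero, zero_mul] at hxy
      have hf0 : f ≠ 0 := by
        rintro rfl
        rw [natDegree_zero] at h6
        omega
      have h2 : aeval x (f.map (Int.castRingHom ℚ)) = 0 := by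
        have := aeval_map_algebraMap ℚ x f
        rw [← hxy] at this
        exact this
      have h3 : f.map (Int.castRingHom ℚ) ≠ 0 :=
        (Polynomial.map_ne_zero_iff (Int.cast_injective)).mpr hf0
      exact hx ⟨_, h3, h2⟩
    refine ⟨hd0, hd, ?_⟩
    obtain ⟨d0, t, hdt, hsq0⟩ : ∃ d0 t : ℤ, c * d = d0 * t ^ 2 ∧ Squarefree d0 := by
      have hcd : c * d ≠ 0 := mul_ne_zero hc hd0
      obtain ⟨a, b, hab, ha⟩ := Nat.sq_mul_squarefree (c * d).natAbs
      refine ⟨(c * d).sign * a, b, ?_, ?_⟩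
      · have h4 : c * d = (c * d).sign * ((c * d).natAbs : ℤ) := (Int.sign_mul_natAbs _).symm
        conv_lhs => rw [h4, ← hab]
        push_cast
        ring
      · rw [← Int.squarefree_natAbs, Int.natAbs_mul, Int.natAbs_sign_of_ne_zero hcd, one_mul,
          Int.natAbs_natCast]
        exact ha
    exact ⟨d0, ⟨hsq0, hasSection_of f _ c d d0 t hc hf hdt hs⟩, t, hdt⟩
  have hfin : {d : ℤ | d ≠ 0 ∧ |d| ≤ N ∧
      ∃ d0 ∈ {d : ℤ | Squarefree d ∧ HasSection g d}, ∃ t : ℤ,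
        c * d = d0 * t ^ 2}.Finite := by
    refine (Set.finite_Icc (-(N : ℤ)) N).subset ?_
    rintro d ⟨-, hd, -⟩
    exact abs_le.mp hd
  have h5 := Set.ncard_le_ncard hsub hfin
  have h6 : Nat.card {d : ℤ // |d| ≤ N ∧ HasSection f d} =
      {d : ℤ | |d| ≤ N ∧ HasSection f d}.ncard := rfl
  rw [h6]
  exact_mod_cast h5

/-- the case of an automorphism without fixed roots -/
theorem main_free (f : ℤ[X]) (hsq : Squarefree (f.map (Int.castRingHom ℚ)))
    (heven : Even f.natDegree) (h6 : 6 ≤ f.natDegree)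
    (σ : AlgebraicClosure ℚ ≃ₐ[ℚ] AlgebraicClosure ℚ)
    (hσ : ∀ x : AlgebraicClosure ℚ, aeval x f = 0 → σ x ≠ x) :
    ∃ C δ : ℝ, 0 < δ ∧ ∀ N : ℕ, 2 ≤ N →
      (Nat.card {d : ℤ // |d| ≤ N ∧ HasSection f d} : ℝ) ≤ C * N / (Real.log N) ^ δ := by
  have hf0 : f ≠ 0 := by
    rintro rfl
    rw [natDegree_zero] at h6
    omega
  obtain ⟨δ, C0, hδ, hδ1, hden⟩ := root_den f hf0 σ hσ
  refine all_twists f f 1 one_ne_zero (by rw [C_1, one_mul]) h6 ?_
  exact cntA f heven h6 (PerfectField.separable_iff_squarefree.2 hsq) δ C0 hδ hδ1 hden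

open Classical in
theorem main (f : ℤ[X]) (hsq : Squarefree (f.map (Int.castRingHom ℚ)))
    (heven : Even f.natDegree) (h6 : 6 ≤ f.natDegree) (hroot : ∀ x : ℚ, aeval x f ≠ 0)
    (h : Multiset.card ((UniqueFactorizationMonoid.normalizedFactors
          (f.map (Int.castRingHom ℚ))).filter (fun g => Odd g.natDegree)) ≠ 2 ∨
      (∃ σ : AlgebraicClosure ℚ ≃ₐ[ℚ] AlgebraicClosure ℚ,
        ∀ x : AlgebraicClosure ℚ, aeval x f = 0 → σ x ≠ x) ∨ f.natDegree = 6) :
    ∃ C δ : ℝ, 0 < δ ∧ ∀ N : ℕ, 2 ≤ N →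
      (Nat.card {d : ℤ // |d| ≤ N ∧ HasSection f d} : ℝ) ≤ C * N / (Real.log N) ^ δ := by
  by_cases hσ : ∃ σ : AlgebraicClosure ℚ ≃ₐ[ℚ] AlgebraicClosure ℚ,
        ∀ x : AlgebraicClosure ℚ, aeval x f = 0 → σ x ≠ x
  · obtain ⟨σ, hσ⟩ := hσ
    exact main_free f hsq heven h6 σ hσ
  have hne2 : Multiset.card ((UniqueFactorizationMonoid.normalizedFactors
          (f.map (Int.castRingHom ℚ))).filter (fun g => Odd g.natDegree)) ≠ 2 := by
    intro h2
    rcases h with h | h | h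
    · exact h h2
    · exact hσ h
    · exact hσ (two_cubics f hsq h hroot h2)
  obtain ⟨n, F, c, hc, hf, hirr, hdeg, hnat, hsep, hcard⟩ :=
    exists_factors_odd f hsq heven h6 hroot
  set O : Finset (Fin n) := univ.filter (fun j => Odd (F j).natDegree) with hOdef
  have hO : ∀ j, j ∈ O ↔ Odd (F j).natDegree := by
    intro j
    rw [hOdef, mem_filter]
    exact ⟨fun h => h.2, fun h => ⟨mem_univ _, h⟩⟩
  have hF0 : ∀ j, F j ≠ 0 := by
    intro j h0
    have := hdeg j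
    rw [h0, natDegree_zero] at this
    omega
  have hPeven : Even (∏ j, F j).natDegree := by
    rw [hnat]
    exact heven
  have hOev : Even O.card := even_card_of_even_natDegree F hF0 hPeven O hO
  refine all_twists f (∏ j, F j) c hc hf h6 ?_
  by_cases h0 : O.card = 0
  · refine cnt_sqfree F ?_ hirr (by rw [hnat]; exact h6) hsep
    intro j
    rw [← Nat.not_odd_iff_even, ← hO j, Finset.card_eq_zero.1 h0]
    exact notMem_empty j
  · refine cntO F hPeven hirr hdeg (by rw [hnat]; exact h6) hsep O hO ?_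
    obtain ⟨t, ht⟩ := hOev
    rw [hcard] at ht
    rw [← hcard] at hne2
    rw [← hcard] at ht
    omega

end Pool.Agent.SCX
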